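import Pool.Agent.Lib.MP_e9c0f3_ag.HY.Sys

/-! Two more exactness lemmas. -/

open scoped Classical

noncomputable section

namespace H5T.HY

variable {I E E' : Type} [AddCommGroup E] [Module ℚ E] [AddCommGroup E'] [Module ℚ E']
variable {c : List (Finset I) → Prop} {G J : Finset I → Submodule ℚ E} {g : ℕ}

/-- `Ex.pull` for a map that is onto modulo `L`. -/
theorem Ex.pull' {H L : Finset I → Submodule ℚ E'} (f : E →ₗ[ℚ] E') (hc : Cv c) (hG : Monotone G)
    (hL : Monotone L) (h1 : ∀ S l, c (S :: l) → ∀ x ∈ G S, f x ∈ H S)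
    (h2 : ∀ S l, c (S :: l) → ∀ x ∈ J S, f x ∈ L S)
    (h3 : ∀ S l, c (S :: l) → H S ≤ (G S).map f ⊔ L S)
    (h4 : ∀ S l, c (S :: l) → ∀ x ∈ G S, f x ∈ L S → x ∈ J S) (e : Ex c H L g) :
    Ex c G J g := by
  refine sys_Ex.2 fun z hz hb => ?_
  obtain ⟨y', hy', n⟩ := sys_Ex.1 e (co f z)
    (sys_CC.2 fun l => ⟨fun a _ => by
      cases l with
      | nil => exact absurd a hc.ne
      | cons S t => exact h1 S t a _ (sys_mem hz (S :: t)),
      fun a => by rw [co_apply, (sys_CC.1 hz l).2 a, map_zero]⟩)
    (sys_NN.2 fun l a => by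
      rw [bd_co, co_apply]
      cases l with
      | nil => exact absurd a hc.ne
      | cons S t => exact h2 S t a _ (sys_NN.1 hb (S :: t) a))
  have hl : CC c H (g + 1) ≤ (CC c G (g + 1)).map (co f) ⊔ CC c L (g + 1) :=
    Ch_le fun l β hβ => by
      split_ifs at hβ with a
      · cases l with
        | nil => exact absurd a.1 hc.ne
        | cons S t =>
          obtain ⟨_, ⟨x, hx, rfl⟩, u, hu, rfl⟩ := Submodule.mem_sup.1 (h3 S t a.1 hβ)
          rw [Finsupp.single_add]
          exact Submodule.add_mem_sup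
            ⟨Finsupp.single (S :: t) x, single_mem_Ch (by rw [if_pos a]; exact hx),
              co_single _ _ _⟩ (single_mem_Ch (by rw [if_pos a]; exact hu))
      · rw [(Submodule.mem_bot ℚ).1 hβ, Finsupp.single_zero]; exact zero_mem _
  obtain ⟨_, ⟨y, hy, rfl⟩, u, hu, rfl⟩ := Submodule.mem_sup.1 (hl hy')
  refine ⟨y, hy, sys_NN.2 fun l a => ?_⟩
  have k1 : (z - bd y) l ∈ hd G l := sub_mem (sys_mem hz l) (sys_bd hc hG hy a)
  have k2 := add_mem (sys_NN.1 n l a) (sys_bd hc hL hu a)
  rw [← Finsupp.add_apply, map_add, ← sub_sub, sub_add_cancel, bd_co, ← map_sub, co_apply] at k2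
  cases l with
  | nil => exact absurd a hc.ne
  | cons S t => exact h4 S t a _ k1 k2

theorem sys2_monoG {κ : Type} (D : Finset κ) (s : κ → Finset I) (W : Submodule ℚ E) :
    Monotone fun S : Finset I => if ∀ i ∈ D, ¬ Disjoint S (s i) then W else ⊥ := by
  intro S S' h
  dsimp only
  by_cases a : ∀ i ∈ D, ¬ Disjoint S (s i)
  · rw [if_pos a, if_pos fun i hi d => a i hi (d.mono_left h)]
  · rw [if_neg a]; exact bot_le

theorem sys2_monoJ (t : Finset I) :
    Monotone fun S : Finset I => if Disjoint S t then (⊥ : Submodule ℚ E) else ⊤ := by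
  intro S S' h
  dsimp only
  by_cases a : Disjoint S' t
  · rw [if_pos a, if_pos (a.mono_left h)]
  · rw [if_neg a]; exact le_top

/-- Inclusion and exclusion over the blocks `s i`. -/
theorem ex_blocks {κ : Type} (hc : Cv c) (D : Finset κ) (s : κ → Finset I) (s₀ : Finset I)
    (W : Submodule ℚ E)
    (h : ∀ D' ⊆ D, Ex c (fun _ => W)
      (fun S => if Disjoint S (s₀ ∪ D'.biUnion s) then ⊥ else ⊤) (g + D'.card)) :
    Ex c (fun S => if ∀ i ∈ D, ¬ Disjoint S (s i) then W else ⊥)
      (fun S => if Disjoint S s₀ then ⊥ else ⊤) g := by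
  induction D using Finset.induction_on generalizing s₀ g with
  | empty =>
    refine (h ∅ (Finset.Subset.refl _)).congr (fun _ => Iff.rfl) (fun S _ _ => ?_)
      fun S _ _ => ?_
    · exact if_pos fun i hi => absurd hi (Finset.notMem_empty i)
    · rw [Finset.biUnion_empty, Finset.union_empty]
  | insert i D hi ih =>
    have e2 := ih s₀ fun D' hD => h D' (hD.trans (Finset.subset_insert _ _))
    have e0 := ih (g := g + 1) (s₀ ∪ s i) fun D' hD => by
      have k := h (insert i D') (Finset.insert_subset_insert _ hD)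
      rwa [Finset.biUnion_insert, ← Finset.union_assoc,
        Finset.card_insert_of_notMem fun a => hi (hD a), add_comm D'.card, ← add_assoc] at k
    refine Ex.sub hc (sys2_monoG D s W) (sys2_monoG _ s W) (sys2_monoJ s₀) (fun S _ _ => ?_)
      (Ex.pull LinearMap.id hc (sys2_monoG D s W) (fun _ _ _ _ a => a) (fun S _ _ x hx => ?_)
        (fun _ _ _ => by rw [Submodule.map_id]) (fun S _ _ x hx hx' => ?_) e0) e2
    · by_cases a : ∀ j ∈ insert i D, ¬ Disjoint S (s j)
      · rw [if_pos a, if_pos fun j hj => a j (Finset.mem_insert_of_mem hj)]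
      · rw [if_neg a]; exact bot_le
    · by_cases a : Disjoint S (s₀ ∪ s i)
      · have b := Finset.disjoint_union_right.1 a
        rw [if_pos b.1, if_neg fun d => d i (Finset.mem_insert_self _ _) b.2, bot_sup_eq] at hx
        rw [if_pos a]
        exact hx
      · rw [if_neg a]; trivial
    · by_cases a : Disjoint S s₀
      · by_cases b : Disjoint S (s i)
        · rw [if_pos (Finset.disjoint_union_right.2 ⟨a, b⟩)] at hx'
          rw [show x = 0 from (Submodule.mem_bot ℚ).1 hx']
          exact zero_mem _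
        · refine Submodule.mem_sup_right ?_
          by_cases d : ∀ j ∈ D, ¬ Disjoint S (s j)
          · rw [if_pos d] at hx
            rw [if_pos fun j hj => (Finset.mem_insert.1 hj).elim (fun e => e ▸ b) (d j)]
            exact hx
          · rw [if_neg d] at hx
            rw [show x = 0 from (Submodule.mem_bot ℚ).1 hx]
            exact zero_mem _
      · refine Submodule.mem_sup_left ?_
        rw [if_neg a]; trivial

end H5T.HY
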