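import Pool.Agent.Lib.MP_e9c0f3_ag.CI.Frame
import Pool.Agent.Lib.MP_e9c0f3_ag.CI.Sys2
import Pool.Agent.Lib.MP_e9c0f3_ag.HY.Poly
import Pool.Agent.Lib.MP_e9c0f3_ag.HY.HAlg

/-! The short exact sequence of one colour. -/

open Matrix ExteriorAlgebra
open scoped Classical

noncomputable section

namespace H5T.Cis

open HY

variable {n c : ℕ} {α β : Type} {H : Cis n c α β} {K : Finset (Jx c α β) → Prop}
  {cl : List (Finset (Jx c α β)) → Prop}

/-- The projection along `v` onto the kernel of `φ`. -/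
def calg_pi {m : ℕ} (φ : Module.Dual ℚ (Fin m → ℚ)) (v : Fin m → ℚ) :
    (Fin m → ℚ) →ₗ[ℚ] (Fin m → ℚ) := LinearMap.id - φ.smulRight v

theorem calg_pi_apply {m : ℕ} (φ : Module.Dual ℚ (Fin m → ℚ)) (v u : Fin m → ℚ) :
    calg_pi φ v u = u - φ u • v := rfl

theorem calg_sq {m : ℕ} (v : Fin m → ℚ) (y : Mv m) : ι ℚ v * (ι ℚ v * y) = 0 := by
  rw [← mul_assoc, ι_sq_zero, zero_mul]

theorem calg_swap {m : ℕ} (u v : Fin m → ℚ) (y : Mv m) :
    ι ℚ u * (ι ℚ v * y) = -(ι ℚ v * (ι ℚ u * y)) := by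
  rw [← mul_assoc, ← mul_assoc, Hyp.halg_swap u v, neg_mul]

theorem calg_map_pi {m : ℕ} (φ : Module.Dual ℚ (Fin m → ℚ)) (v : Fin m → ℚ) (y : Mv m) :
    ExteriorAlgebra.map (calg_pi φ v) y = y - ι ℚ v * ctr φ y := by
  induction y using CliffordAlgebra.left_induction with
  | algebraMap r => rw [Hyp.halg_ctr_alg, mul_zero, sub_zero, AlgHom.commutes]
  | add x y hx hy =>
    rw [map_add, map_add, hx, hy, mul_add]
    abel
  | ι_mul x u hx =>
    rw [Hyp.halg_ctr_mul, map_mul, hx, map_apply_ι, calg_pi_apply, map_sub, map_smul, sub_mul,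
      mul_sub, mul_sub, smul_mul_assoc, smul_mul_assoc, calg_sq, smul_zero, sub_zero, mul_sub,
      mul_smul_comm, calg_swap u v]
    abel

theorem calg_ctr_mem {m : ℕ} (φ : Module.Dual ℚ (Fin m → ℚ)) (U : Submodule ℚ (Fin m → ℚ))
    (p : ℕ) {y : Mv m} (hy : y ∈ wedge U (p + 1)) :
    ctr φ y ∈ wedge (U ⊓ LinearMap.ker φ) p := by
  by_cases h : U ≤ LinearMap.ker φ
  · rw [Hyp.halg_ctr_ker φ _ y (EA.wedge_mono h _ hy)]
    exact zero_mem _
  · obtain ⟨u, hu, k⟩ := SetLike.not_le_iff_exists.1 h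
    obtain ⟨t, htU, ht⟩ : ∃ t ∈ U, φ t = 1 := ⟨(φ u)⁻¹ • u, U.smul_mem _ hu, by
      rw [map_smul, smul_eq_mul, inv_mul_cancel₀ fun e => k (LinearMap.mem_ker.2 e)]⟩
    have hle : U ≤ (U ⊓ LinearMap.ker φ) ⊔ Submodule.span ℚ {t} := by
      intro w hw
      refine Submodule.mem_sup.2 ⟨w - φ w • t, ⟨U.sub_mem hw (U.smul_mem _ htU), ?_⟩, φ w • t,
        Submodule.smul_mem _ _ (Submodule.mem_span_singleton_self t), sub_add_cancel _ _⟩
      rw [SetLike.mem_coe, LinearMap.mem_ker, map_sub, map_smul, ht, smul_eq_mul, mul_one,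
        sub_self]
    obtain ⟨x, hx, z, hz, rfl⟩ := EA.wedge_sup _ t p y (EA.wedge_mono hle _ hy)
    rw [map_add, Hyp.halg_ctr_mul, ht, Hyp.halg_ctr_ker φ _ x (EA.wedge_mono inf_le_right _ hx),
      Hyp.halg_ctr_ker φ _ z (EA.wedge_mono inf_le_right _ hz), one_smul, mul_zero, sub_zero,
      add_zero]
    exact hx

theorem calg_W {A B : Finset (Fin c)} {f g : Fin c → α} {u : Fin (c + n) → ℚ} :
    u ∈ H.W A B f g ↔
      (∀ j ∈ A, H.ell (f j) u = H.ell (g j) u) ∧ ∀ j ∈ B, H.ell (f j) u = 0 := by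
  simp only [W, Submodule.mem_inf, Submodule.mem_iInf, LinearMap.mem_ker, LinearMap.sub_apply,
    sub_eq_zero]

theorem calg_le_G {A B : Finset (Fin c)} {S : Finset (Jx c α β)} {f g : Fin c → α}
    (hp : H.Pk A S f g) (r : ℕ) : wedge (H.W A B f g) r ≤ H.G A B r S :=
  le_iSup_of_le f (le_iSup_of_le g (le_iSup_of_le hp le_rfl))

theorem calg_G_le {A B : Finset (Fin c)} {S : Finset (Jx c α β)} {r : ℕ}
    {T : Submodule ℚ (Mv (c + n))} (h : ∀ f g, H.Pk A S f g → wedge (H.W A B f g) r ≤ T) :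
    H.G A B r S ≤ T :=
  iSup_le fun f => iSup_le fun g => iSup_le (h f g)

theorem calg_one {a : α} {i : Fin c} (h : H.col a = i) : H.ell a (vv n i) = 1 := by
  rw [ell_vv, if_pos h]

theorem calg_zero {a : α} {i j : Fin c} (h : H.col a = j) (hj : j ≠ i) :
    H.ell a (vv n i) = 0 := by
  rw [ell_vv, if_neg (h ▸ hj)]

theorem calg_pi_ell {a b : α} {i j : Fin c} (h : H.col b = j) (hj : j ≠ i)
    (u : Fin (c + n) → ℚ) : H.ell b (calg_pi (H.ell a) (vv n i) u) = H.ell b u := by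
  rw [calg_pi_apply, map_sub, map_smul, calg_zero h hj, smul_zero, sub_zero]

theorem calg_pi_same {a b : α} {i : Fin c} (h : H.col b = i) (u : Fin (c + n) → ℚ) :
    H.ell b (calg_pi (H.ell a) (vv n i) u) = H.ell b u - H.ell a u := by
  rw [calg_pi_apply, map_sub, map_smul, calg_one h, smul_eq_mul, mul_one]

theorem calg_J_le (B : Finset (Fin c)) (i : Fin c) (S : Finset (Jx c α β)) :
    H.J (insert i B) S ≤ H.J B S :=
  mul_le_mul' (Submodule.map_mono (Submodule.span_mono (Set.union_subset_union_right _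
    (Set.image_mono fun _ hx k => hx (Finset.mem_insert_of_mem k))))) le_rfl

theorem calg_v_J {B : Finset (Fin c)} {i : Fin c} (hB : i ∉ B) (S : Finset (Jx c α β))
    (x : Mv (c + n)) : ι ℚ (vv n i) * x ∈ H.J B S :=
  Submodule.mul_mem_mul (Submodule.mem_map_of_mem (Submodule.subset_span
    (Or.inr ⟨i, hB, rfl⟩))) Submodule.mem_top

theorem calg_mul_J (B : Finset (Fin c)) (i : Fin c) (S : Finset (Jx c α β)) {x : Mv (c + n)}
    (hx : x ∈ H.J B S) : ι ℚ (vv n i) * x ∈ H.J (insert i B) S := by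
  have hle : Submodule.span ℚ (H.dh '' cuts S ∪ vv n '' {j | j ∉ B}) ≤
      Submodule.span ℚ (H.dh '' cuts S ∪ vv n '' {j | j ∉ insert i B}) ⊔
        Submodule.span ℚ {vv n i} := by
    refine Submodule.span_le.2 ?_
    rintro _ (k | ⟨j, hj, rfl⟩)
    · exact Submodule.mem_sup_left (Submodule.subset_span (Or.inl k))
    · by_cases e : j = i
      · exact Submodule.mem_sup_right (e ▸ Submodule.mem_span_singleton_self _)
      · exact Submodule.mem_sup_left (Submodule.subset_span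
          (Or.inr ⟨j, fun k => (Finset.mem_insert.1 k).elim e hj, rfl⟩))
  refine Submodule.mul_induction_on hx (fun u hu y _ => ?_) fun u v hu hv => ?_
  · obtain ⟨w, hw, rfl⟩ := hu
    obtain ⟨w', hw', _, hz, rfl⟩ := Submodule.mem_sup.1 (hle hw)
    obtain ⟨t, rfl⟩ := Submodule.mem_span_singleton.1 hz
    rw [map_add, map_smul, add_mul, mul_add, smul_mul_assoc, mul_smul_comm, calg_sq, smul_zero,
      add_zero, calg_swap]
    exact neg_mem (Submodule.mul_mem_mul (Submodule.mem_map_of_mem hw') Submodule.mem_top)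
  · rw [mul_add]
    exact add_mem hu hv

theorem calg_pi_J (h : H.Fm K) {S : Finset (Jx c α β)} (hS : K S) {a : α} (ha : mo a ∈ S)
    {i : Fin c} (hi : H.col a = i) (B : Finset (Fin c)) {x : Mv (c + n)} (hx : x ∈ H.J B S) :
    ExteriorAlgebra.map (calg_pi (H.ell a) (vv n i)) x ∈ H.J (insert i B) S := by
  refine Hyp.halg_ideal_map _ (fun u hu => ?_) hx
  refine Submodule.mem_comap.1 ((Submodule.span_le (p := Submodule.comap _ _)).2 ?_ hu)
  rintro _ (⟨j, hj, rfl⟩ | ⟨j, hj, rfl⟩)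
  · refine Submodule.mem_comap.2 ?_
    rw [calg_pi_apply, h.ell_dh hS ha hj, zero_smul, sub_zero]
    exact Submodule.subset_span (Or.inl ⟨j, hj, rfl⟩)
  · refine Submodule.mem_comap.2 ?_
    by_cases e : j = i
    · rw [e, calg_pi_apply, calg_one hi, one_smul, sub_self]
      exact zero_mem _
    · rw [calg_pi_apply, calg_zero hi (Ne.symm e), zero_smul, sub_zero]
      exact Submodule.subset_span (Or.inr ⟨j, fun k => (Finset.mem_insert.1 k).elim e hj, rfl⟩)

theorem calg_ctr_J (h : H.Fm K) {S : Finset (Jx c α β)} (hS : K S) {a : α} (ha : mo a ∈ S)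
    {i : Fin c} (hi : H.col a = i) (B : Finset (Fin c)) {x : Mv (c + n)}
    (hx : x ∈ H.J (insert i B) S) : ctr (H.ell a) x ∈ H.J (insert i B) S := by
  refine Hyp.halg_ideal_ctr _ (fun u hu => ?_) hx
  refine LinearMap.mem_ker.1 ((Submodule.span_le (p := LinearMap.ker _)).2 ?_ hu)
  rintro _ (⟨j, hj, rfl⟩ | ⟨j, hj, rfl⟩)
  · exact LinearMap.mem_ker.2 (h.ell_dh hS ha hj)
  · exact LinearMap.mem_ker.2 (calg_zero hi fun e => hj (e ▸ Finset.mem_insert_self _ _))

theorem calg_bot {A B : Finset (Fin c)} {S : Finset (Jx c α β)} {r : ℕ} {i : Fin c}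
    (e : ¬ ∃ a, mo a ∈ S ∧ H.col a = i) {x : Mv (c + n)} (hx : x ∈ H.G A B r S) : x = 0 :=
  (Submodule.mem_bot ℚ).1 (calg_G_le (fun f _ hp => absurd ⟨f i, hp.1 i⟩ e) hx)

theorem calg_ctr_G {A B : Finset (Fin c)} {S : Finset (Jx c α β)} {r : ℕ} {i : Fin c}
    (hA : i ∉ A) {a : α} (ha : mo a ∈ S) (hi : H.col a = i) {x : Mv (c + n)}
    (hx : x ∈ H.G A (insert i B) (r + 1) S) : ctr (H.ell a) x ∈ H.G (insert i A) B r S := by
  refine calg_G_le (T := (H.G (insert i A) B r S).comap (ctr (H.ell a)))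
    (fun f g hp y hy => ?_) hx
  rw [Submodule.mem_comap]
  by_cases e : a = f i
  · rw [Hyp.halg_ctr_ker _ _ y (EA.wedge_mono (fun u hu => LinearMap.mem_ker.2
      (e ▸ (calg_W.1 hu).2 i (Finset.mem_insert_self _ _))) _ hy)]
    exact zero_mem _
  · have hu : ∀ j ∈ A, Function.update g i a j = g j := fun j hj =>
      Function.update_of_ne (fun k : j = i => hA (k ▸ hj)) _ _
    have hp' : H.Pk (insert i A) S f (Function.update g i a) := by
      refine ⟨hp.1, fun j hj => ?_⟩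
      rcases Finset.mem_insert.1 hj with rfl | hj
      · rw [Function.update_self]
        exact ⟨ha, hi, e⟩
      · rw [hu j hj]
        exact hp.2 j hj
    refine calg_le_G hp' r (EA.wedge_mono (fun u k => ?_) r (calg_ctr_mem _ _ r hy))
    obtain ⟨k1, k2⟩ := calg_W.1 k.1
    refine calg_W.2 ⟨fun j hj => ?_, fun j hj => k2 j (Finset.mem_insert_of_mem hj)⟩
    rcases Finset.mem_insert.1 hj with rfl | hj
    · rw [Function.update_self, k2 j (Finset.mem_insert_self _ _), LinearMap.mem_ker.1 k.2]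
    · rw [hu j hj, k1 j hj]

theorem calg_mul_G (h : H.Fm K) {S : Finset (Jx c α β)} (hS : K S) {A B : Finset (Fin c)}
    {i : Fin c} (hA : i ∉ A) (hB : i ∉ B) (r : ℕ) {x : Mv (c + n)}
    (hx : x ∈ H.G (insert i A) B r S) : ι ℚ (vv n i) * x ∈ H.G A (insert i B) (r + 1) S := by
  refine calg_G_le (T := (H.G A (insert i B) (r + 1) S).comap
    (LinearMap.mulLeft ℚ (ι ℚ (vv n i)))) (fun f g hp y hy => ?_) hx
  rw [Submodule.mem_comap, LinearMap.mulLeft_apply]
  have nA : ∀ j ∈ A, j ≠ i := fun j hj k => hA (k ▸ hj)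
  have nB : ∀ j ∈ B, j ≠ i := fun j hj k => hB (k ▸ hj)
  have gA : ∀ j ∈ A, mo (g j) ∈ S ∧ H.col (g j) = j ∧ g j ≠ f j := fun j hj =>
    hp.2 j (Finset.mem_insert_of_mem hj)
  obtain ⟨g1, g2, g3⟩ := hp.2 i (Finset.mem_insert_self _ _)
  have hu : ∀ j, j ≠ i → Function.update f i (g i) j = f j := fun j hj =>
    Function.update_of_ne hj _ _
  have hp1 : H.Pk A S f g := ⟨hp.1, gA⟩
  have hp2 : H.Pk A S (Function.update f i (g i)) g := by
    refine ⟨fun j => ?_, fun j hj => by rw [hu j (nA j hj)]; exact gA j hj⟩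
    by_cases e : j = i
    · rw [e, Function.update_self]
      exact ⟨g1, g2⟩
    · rw [hu j e]
      exact hp.1 j
  obtain ⟨t, ht⟩ := exists_dual_vec (h.indep S hS) fun s => if s = mo (g i) then 1 else 0
  have t1 : H.ell (g i) t = 1 := (ht _ (Finset.mem_coe.2 g1)).trans (if_pos rfl)
  have t0 : ∀ a, mo a ∈ S → a ≠ g i → H.ell a t = 0 := fun a ha e =>
    (ht _ (Finset.mem_coe.2 ha)).trans
      (if_neg fun k => e (Sum.inl_injective (Sum.inr_injective k)))
  have tf : ∀ j, H.ell (f j) t = 0 := fun j => t0 _ (hp.1 j).1 fun k => by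
    have e : j = i := by rw [← (hp.1 j).2, k, g2]
    exact g3 (by rw [← k, e])
  have tg : ∀ j ∈ A, H.ell (g j) t = 0 := fun j hj => t0 _ (gA j hj).1 fun k =>
    nA j hj (by rw [← (gA j hj).2.1, k, g2])
  have w1 : ∀ u, (∀ j ∈ A, H.ell (f j) u = H.ell (g j) u) → (∀ j ∈ B, H.ell (f j) u = 0) →
      H.ell (f i) u = 0 → u ∈ H.W A (insert i B) f g := fun u k1 k2 k3 =>
    calg_W.2 ⟨k1, fun j hj => (Finset.mem_insert.1 hj).elim (fun e => e ▸ k3) (k2 j)⟩
  have w2 : ∀ u, (∀ j ∈ A, H.ell (f j) u = H.ell (g j) u) → (∀ j ∈ B, H.ell (f j) u = 0) →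
      H.ell (g i) u = 0 → u ∈ H.W A (insert i B) (Function.update f i (g i)) g := by
    intro u k1 k2 k3
    refine calg_W.2 ⟨fun j hj => by rw [hu j (nA j hj), k1 j hj], fun j hj => ?_⟩
    rcases Finset.mem_insert.1 hj with rfl | hj
    · rwa [Function.update_self]
    · rw [hu j (nB j hj), k2 j hj]
  have p1 : ∀ u ∈ H.W (insert i A) B f g, ∀ j ∈ A,
      H.ell (f j) (calg_pi (H.ell (f i)) (vv n i) u)
        = H.ell (g j) (calg_pi (H.ell (f i)) (vv n i) u) := fun u k j hj => by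
    rw [calg_pi_ell (hp.1 j).2 (nA j hj), calg_pi_ell (gA j hj).2.1 (nA j hj),
      (calg_W.1 k).1 j (Finset.mem_insert_of_mem hj)]
  have p2 : ∀ u ∈ H.W (insert i A) B f g, ∀ j ∈ B,
      H.ell (f j) (calg_pi (H.ell (f i)) (vv n i) u) = 0 := fun u k j hj => by
    rw [calg_pi_ell (hp.1 j).2 (nB j hj), (calg_W.1 k).2 j hj]
  have z1 := Hyp.halg_wedge_map (calg_pi (H.ell (f i)) (vv n i)) (fun u k =>
    w1 _ (p1 u k) (p2 u k) (by rw [calg_pi_same (hp.1 i).2, sub_self])) r y hy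
  have z2 := Hyp.halg_wedge_map (calg_pi (H.ell (f i)) (vv n i)) (fun u k =>
    w2 _ (p1 u k) (p2 u k) (by
      rw [calg_pi_same g2, (calg_W.1 k).1 i (Finset.mem_insert_self _ _), sub_self])) r y hy
  have e : ι ℚ (vv n i) * y
      = ι ℚ t * ExteriorAlgebra.map (calg_pi (H.ell (f i)) (vv n i)) y
        + ι ℚ (vv n i - t) * ExteriorAlgebra.map (calg_pi (H.ell (f i)) (vv n i)) y := by
    rw [← add_mul, ← map_add, add_sub_cancel, calg_map_pi, mul_sub, calg_sq, sub_zero]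
  rw [e]
  refine add_mem (calg_le_G hp1 _ (EA.mul_mem_wedge ?_ z1))
    (calg_le_G hp2 _ (EA.mul_mem_wedge ?_ z2))
  · exact w1 _ (fun j hj => by rw [tf, tg j hj]) (fun j _ => tf j) (tf i)
  · refine w2 _ (fun j hj => ?_) (fun j hj => ?_) (by rw [map_sub, calg_one g2, t1, sub_self])
    · rw [map_sub, map_sub, tf, tg j hj, calg_zero (hp.1 j).2 (nA j hj),
        calg_zero (gA j hj).2.1 (nA j hj)]
    · rw [map_sub, tf, calg_zero (hp.1 j).2 (nB j hj), sub_self]

theorem calg_G_anti (A B : Finset (Fin c)) (i : Fin c) (r : ℕ) (S : Finset (Jx c α β)) :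
    H.G A (insert i B) r S ≤ H.G A B r S :=
  calg_G_le fun _ _ hp => (EA.wedge_mono (fun _ k => calg_W.2 ⟨(calg_W.1 k).1, fun j hj =>
    (calg_W.1 k).2 j (Finset.mem_insert_of_mem hj)⟩) r).trans (calg_le_G hp r)

theorem calg_G_sup {A B : Finset (Fin c)} {i : Fin c} (hA : i ∉ A) (hB : i ∉ B) (r : ℕ)
    (S : Finset (Jx c α β)) : H.G A B r S ≤ H.G A (insert i B) r S ⊔ H.J B S := by
  refine calg_G_le fun f g hp y hy => Submodule.mem_sup.2
    ⟨ExteriorAlgebra.map (calg_pi (H.ell (f i)) (vv n i)) y, calg_le_G hp r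
      (Hyp.halg_wedge_map _ (fun u k => ?_) r y hy), _, calg_v_J hB S (ctr (H.ell (f i)) y),
      by rw [calg_map_pi, sub_add_cancel]⟩
  refine calg_W.2 ⟨fun j hj => ?_, fun j hj => ?_⟩
  · have e : j ≠ i := fun k => hA (k ▸ hj)
    rw [calg_pi_ell (hp.1 j).2 e, calg_pi_ell (hp.2 j hj).2.1 e, (calg_W.1 k).1 j hj]
  · rcases Finset.mem_insert.1 hj with rfl | hj
    · rw [calg_pi_same (hp.1 j).2, sub_self]
    · rw [calg_pi_ell (hp.1 j).2 fun k : j = i => hB (k ▸ hj), (calg_W.1 k).2 j hj]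

theorem Fm.step (h : H.Fm K) (hc : Cv cl) (hK : ∀ S l, cl (S :: l) → K S)
    {A B : Finset (Fin c)} {i : Fin c} (hA : i ∉ A) (hB : i ∉ B) {r g : ℕ}
    (e1 : Ex cl (H.G A (insert i B) (r + 1)) (H.J (insert i B)) g)
    (e2 : Ex cl (H.G A B (r + 1)) (H.J B) (g + 1)) : Ex cl (H.G (insert i A) B r) (H.J B) g := by
  have s1 : Ex cl (H.G A (insert i B) (r + 1)) (fun S => H.J (insert i B) S ⊔
      (H.G (insert i A) B r S).map (LinearMap.mulLeft ℚ (ι ℚ (vv n i)))) (g + 1) := by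
    refine Ex.pull' LinearMap.id hc (G_mono _ _ _) (J_mono B)
      (fun S _ _ x hx => calg_G_anti A B i _ S hx) (fun S _ _ x hx => ?_)
      (fun S _ _ => by rw [Submodule.map_id]; exact calg_G_sup hA hB _ S)
      (fun S l hl x hx k => ?_) e2
    · obtain ⟨u, hu, _, ⟨v, -, rfl⟩, rfl⟩ := Submodule.mem_sup.1 hx
      exact add_mem (calg_J_le B i S hu) (calg_v_J hB S v)
    · by_cases e : ∃ a, mo a ∈ S ∧ H.col a = i
      · obtain ⟨a, ha, hi⟩ := e
        exact Submodule.mem_sup.2 ⟨_, calg_pi_J h (hK S l hl) ha hi B k, _,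
          Submodule.mem_map_of_mem (calg_ctr_G hA ha hi hx), by
            rw [calg_map_pi]
            exact sub_add_cancel _ _⟩
      · rw [calg_bot e hx]
        exact zero_mem _
  have s2 : Ex cl (fun S => (H.G (insert i A) B r S).map (LinearMap.mulLeft ℚ (ι ℚ (vv n i))))
      (H.J (insert i B)) g :=
    Ex.sub hc (G_mono _ _ _) (fun _ _ k => Submodule.map_mono (G_mono _ _ _ k)) (J_mono _)
      (fun S l hl => Submodule.map_le_iff_le_comap.2 fun x hx =>
        calg_mul_G h (hK S l hl) hA hB r hx) s1 e1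
  refine Ex.pull (LinearMap.mulLeft ℚ (ι ℚ (vv n i))) hc (G_mono _ _ _)
    (fun S _ _ x hx => Submodule.mem_map_of_mem hx) (fun S _ _ x hx => calg_mul_J B i S hx)
    (fun S _ _ => le_rfl) (fun S l hl x hx k => ?_) s2
  by_cases e : ∃ a, mo a ∈ S ∧ H.col a = i
  · obtain ⟨a, ha, hi⟩ := e
    have k1 := calg_J_le B i S (calg_ctr_J h (hK S l hl) ha hi B k)
    rw [LinearMap.mulLeft_apply, Hyp.halg_ctr_mul, calg_one hi, one_smul] at k1
    have k2 := add_mem k1 (calg_v_J hB S (ctr (H.ell a) x))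
    rwa [sub_add_cancel] at k2
  · rw [calg_bot e hx]
    exact zero_mem _

end H5T.Cis
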