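import Pool.Agent.Lib.MP_e9c0f3_ag.CI.Defs

/-! Complete intersections in products of projective spaces: data. -/

open Matrix

noncomputable section

namespace H5T

variable {n m c : ℕ} {α : Type}

/-- The rays of the fan of a product of projective spaces: the indicator vectors of the blocks of
coordinates and the vectors `-e_i`. -/
def bfan (blk : Fin n → Fin m) : Fin m ⊕ Fin n → Fin n → ℚ :=
  Sum.elim (fun t i => if blk i = t then 1 else 0) fun i => -Pi.single i 1

/-- The coordinates that occur in the polynomials with colour in `B`. -/
def bused (col : α → Fin c) (ex : α → Fin n → ℚ) (B : Finset (Fin c)) : Set (Fin n) :=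
  {i | ∃ a b, col a ∈ B ∧ col b = col a ∧ ex a i ≠ ex b i}

/-- Tropical polynomials, truncated by a product of simplices. -/
def Cis.blk (blk : Fin n → Fin m) (col : α → Fin c) (ex : α → Fin n → ℚ) (co : α → ℝ) (L : ℝ) :
    Cis n c α (Fin m ⊕ Fin n) := ⟨col, ex, co, bfan blk, fun _ => L, bfan blk⟩

end H5T
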