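import Pool.Agent.Lib.MP_e9c0f3_ag.CI.BDefs
import Pool.Agent.Lib.MP_e9c0f3_ag.H5T.Geo

/-! Truncation by a product of simplices. -/

open Matrix Filter
open scoped Classical

noncomputable section

namespace H5T.Cis

variable {n m c : ℕ} {α : Type} (b : Fin n → Fin m) (col : α → Fin c) (ex : α → Fin n → ℚ)
  (co : α → ℝ)

theorem bka_inl (t : Fin m) (x : Pt n) :
    rv (bfan b (.inl t)) ⬝ᵥ x = ∑ k with b k = t, x k := by
  simp [bfan, dotProduct, G33.rv_apply, apply_ite, Finset.sum_filter]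

theorem bka_inr (k : Fin n) (x : Pt n) : rv (bfan b (.inr k)) ⬝ᵥ x = -x k := by
  simp [bfan, dotProduct, G33.rv_apply, Pi.single_apply, apply_ite]

theorem bka_dot_inl (t : Fin m) (v : Fin n → ℚ) :
    v ⬝ᵥ bfan b (.inl t) = ∑ k with b k = t, v k := by
  simp [bfan, dotProduct, Finset.sum_filter]

theorem bka_dot_inr (k : Fin n) (v : Fin n → ℚ) : v ⬝ᵥ bfan b (.inr k) = -v k := by
  simp [bfan]

theorem bka_sum (μ : Fin m ⊕ Fin n → ℚ) (k : Fin n) :
    (∑ o, μ o • bfan b o) k = μ (.inl (b k)) - μ (.inr k) := by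
  simp [Fintype.sum_sum_type, bfan, Finset.sum_apply, Pi.single_apply, sub_eq_add_neg]

theorem bka_card (t : Fin m) : (((Finset.univ.filter (b · = t)).card : ℕ) : ℝ) ≤ n := by
  exact_mod_cast (Finset.card_filter_le _ _).trans_eq (by simp)

theorem blk_bdd (L : ℝ) : Bornology.IsBounded (blk b col ex co L).box := by
  refine (Metric.isBounded_Icc (fun _ => -L : Pt n) (fun _ => n * |L|)).subset fun x hx => ?_
  have h1 : ∀ i, -L ≤ x i := fun i => by
    have := hx (.inr i)
    simp only [blk, bka_inr] at this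
    linarith
  refine ⟨h1, fun i => ?_⟩
  have h2 : ∑ k with b k = b i, x k ≤ L := by simpa only [blk, bka_inl] using hx (.inl (b i))
  have h3 := Finset.single_le_sum (f := fun i => x i + L) (s := Finset.univ.filter (b · = b i))
    (fun j _ => by linarith [h1 j]) (Finset.mem_filter.2 ⟨Finset.mem_univ i, rfl⟩)
  simp only [Finset.sum_add_distrib, Finset.sum_const, nsmul_eq_mul] at h3
  change x i ≤ n * |L|
  have h5 := mul_le_mul_of_nonneg_left (le_abs_self L)
    (Nat.cast_nonneg (α := ℝ) (Finset.univ.filter (b · = b i)).card)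
  have h6 := mul_le_mul_of_nonneg_right (bka_card b (b i)) (abs_nonneg L)
  linarith

theorem bka_nu {L : ℝ} (hL : 0 < L) (x : Pt n) (t : Fin m) : ∃ ν : Fin m ⊕ Fin n → ℚ,
    (∀ i, 0 ≤ ν i) ∧ (∀ i, ¬ (blk b col ex co L).On i x → ν i = 0) ∧
    ((blk b col ex co L).On (.inl t) x → ∑ k with b k = t, (ν (.inl (b k)) - ν (.inr k)) = 1) ∧
    ∀ k, b k ≠ t ∨ (blk b col ex co L).On (.inr k) x → ν (.inr k) = ν (.inl (b k)) := by
  by_cases hn : (blk b col ex co L).On (.inl t) x
  swap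
  · exact ⟨0, fun _ => le_rfl, fun _ _ => rfl, fun h => absurd h hn, fun _ _ => rfl⟩
  let T := (Finset.univ.filter (b · = t)).filter fun k => ¬ (blk b col ex co L).On (.inr k) x
  have hT : 0 < T.card := by
    rw [Finset.card_pos]
    by_contra hc
    have e : ∀ k ∈ Finset.univ.filter (b · = t), x k ≤ 0 := fun k hk => by
      have : (blk b col ex co L).On (.inr k) x := by
        by_contra h
        exact hc ⟨k, Finset.mem_filter.2 ⟨hk, h⟩⟩
      simp only [On, blk, bka_inr] at this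
      linarith
    simp only [On, blk, bka_inl] at hn
    linarith [Finset.sum_nonpos e]
  have hT' : (0 : ℚ) < T.card := by exact_mod_cast hT
  refine ⟨fun i => if Sum.elim id b i = t ∧ (blk b col ex co L).On i x then (T.card : ℚ)⁻¹ else 0,
    fun i => ?_, fun i hi => if_neg fun k => hi k.2, fun _ => ?_, fun k hk => ?_⟩
  · positivity
  · refine (Finset.sum_congr rfl (g := fun k =>
      if ¬ (blk b col ex co L).On (.inr k) x then (T.card : ℚ)⁻¹ else 0) fun k hk => ?_).trans ?_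
    · have e := (Finset.mem_filter.1 hk).2
      by_cases h : (blk b col ex co L).On (.inr k) x <;> simp [h, e, hn]
    · rw [← Finset.sum_filter, Finset.sum_const, nsmul_eq_mul]
      exact mul_inv_cancel₀ hT'.ne'
  · by_cases e : b k = t
    · simp [e, hn, hk.resolve_left (not_not.2 e)]
    · simp [e]

theorem blk_cut {L : ℝ} (hL : 0 < L) (x : Pt n) (j : Fin m ⊕ Fin n)
    (hj : (blk b col ex co L).On j x) : ∃ μ : Fin m ⊕ Fin n → ℚ,
    (∀ i, 0 ≤ μ i) ∧ (∀ i, ¬ (blk b col ex co L).On i x → μ i = 0) ∧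
    bfan b j ⬝ᵥ ∑ i, μ i • bfan b i = 1 ∧
    ∀ l, (blk b col ex co L).On l x → l ≠ j → bfan b l ⬝ᵥ ∑ i, μ i • bfan b i = 0 := by
  have e0 : ∀ (μ : Fin m ⊕ Fin n → ℚ) t, bfan b (.inl t) ⬝ᵥ ∑ i, μ i • bfan b i =
      ∑ k with b k = t, (μ (.inl (b k)) - μ (.inr k)) := fun μ t => by
    rw [dotProduct_comm, bka_dot_inl]
    simp only [bka_sum]
  have e1 : ∀ (μ : Fin m ⊕ Fin n → ℚ) k, bfan b (.inr k) ⬝ᵥ ∑ i, μ i • bfan b i =
      μ (.inr k) - μ (.inl (b k)) := fun μ k => by
    rw [dotProduct_comm, bka_dot_inr, bka_sum, neg_sub]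
  rcases j with t | j
  · obtain ⟨ν, h0, h1, h2, h3⟩ := bka_nu b col ex co hL x t
    refine ⟨ν, h0, h1, by rw [e0, h2 hj], ?_⟩
    rintro (l | l) hl hne
    · rw [e0]
      refine Finset.sum_eq_zero fun k hk => ?_
      rw [h3 k (.inl fun e => hne (by rw [← e, (Finset.mem_filter.1 hk).2])), sub_self]
    · rw [e1, h3 l (.inr hl), sub_self]
  · obtain ⟨ν, h0, h1, h2, h3⟩ := bka_nu b col ex co hL x (b j)
    refine ⟨ν + Pi.single (.inr j) 1, fun i => add_nonneg (h0 i) ?_, fun i hi => ?_, ?_, ?_⟩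
    · rw [Pi.single_apply]
      split_ifs <;> norm_num
    · have : i ≠ .inr j := fun e => hi (e ▸ hj)
      simp [h1 i hi, this]
    · rw [e1]
      simp [h3 j (.inr hj)]
    · rintro (l | l) hl hne
      · rw [e0]
        have e : ∀ k, (ν + Pi.single (Sum.inr j) 1 : Fin m ⊕ Fin n → ℚ) (.inl (b k)) -
            (ν + Pi.single (Sum.inr j) 1 : Fin m ⊕ Fin n → ℚ) (.inr k) =
            (ν (.inl (b k)) - ν (.inr k)) - if k = j then 1 else 0 := fun k => by
          simp only [Pi.add_apply, Pi.single_apply, Sum.inr.injEq, reduceCtorEq, if_false]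
          ring
        simp only [e]
        rw [Finset.sum_sub_distrib, Finset.sum_ite_eq']
        by_cases k : b j = l
        · subst k
          rw [h2 hl]
          simp
        · rw [Finset.sum_eq_zero fun i hi => by
            rw [h3 i (.inl fun e => k (by rw [← e, (Finset.mem_filter.1 hi).2])), sub_self]]
          simp [k]
      · rw [e1]
        simp [h3 l (.inr hl), hne]

theorem bka_max (x : Pt n) (t : Fin m) : ∃ (M : ℝ) (κ : Option (Fin n)), 0 ≤ M ∧
    (∀ k, b k = t → x k ≤ M) ∧ (κ = none → M = 0) ∧ ∀ k, κ = some k → b k = t ∧ x k = M := by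
  by_cases h : ∃ k, b k = t ∧ 0 ≤ x k
  · obtain ⟨k, hk, h⟩ := h
    obtain ⟨i, hi, hm⟩ := (Finset.univ.filter (b · = t)).exists_max_image x
      ⟨k, Finset.mem_filter.2 ⟨Finset.mem_univ _, hk⟩⟩
    have hm' : ∀ k, b k = t → x k ≤ x i := fun k hk =>
      hm k (Finset.mem_filter.2 ⟨Finset.mem_univ _, hk⟩)
    refine ⟨x i, some i, h.trans (hm' k hk), hm', nofun, fun l hl => ?_⟩
    cases hl
    exact ⟨(Finset.mem_filter.1 hi).2, rfl⟩
  · exact ⟨0, none, le_rfl, fun k hk => le_of_not_ge fun e => h ⟨k, hk, e⟩, fun _ => rfl, nofun⟩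

theorem bka_val (x : Pt n) (M : Fin m → ℝ) (e : Fin n → ℚ) : rv e ⬝ᵥ x =
    ∑ t, ((e ⬝ᵥ bfan b (.inl t) : ℚ) : ℝ) * M t - ∑ k, (e k : ℝ) * (M (b k) - x k) := by
  have : ∑ t, ((e ⬝ᵥ bfan b (.inl t) : ℚ) : ℝ) * M t = ∑ k, (e k : ℝ) * M (b k) := by
    rw [← Finset.sum_fiberwise (s := Finset.univ) (g := b)]
    refine Finset.sum_congr rfl fun t _ => ?_
    rw [bka_dot_inl, Rat.cast_sum, Finset.sum_mul]
    exact Finset.sum_congr rfl fun k hk => by rw [(Finset.mem_filter.1 hk).2]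
  rw [this, ← Finset.sum_sub_distrib]
  simp only [dotProduct, G33.rv_apply]
  exact Finset.sum_congr rfl fun i _ => by ring

/-- If the Newton polytope of each colour is a product of simplices, the top monomials on a facet
far out are extremal. -/
theorem blk_face [Fintype α] (δ : Fin c → Fin m → ℚ) (h0 : ∀ a k, 0 ≤ ex a k)
    (h1 : ∀ a t, ex a ⬝ᵥ bfan b (.inl t) ≤ δ (col a) t)
    (v : ∀ (i : Fin c) (κ : Fin m → Option (Fin n)), ∃ a, col a = i ∧
      ex a = fun k => if κ (b k) = some k then δ i (b k) else 0) :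
    ∀ᶠ L in atTop, ∀ x ∈ (blk b col ex co L).box, ∀ j a, (blk b col ex co L).On j x →
      (blk b col ex co L).Top a x → ∀ d, col d = col a → ex d ⬝ᵥ bfan b j ≤ ex a ⬝ᵥ bfan b j := by
  have big : ∀ c e : ℝ, ∀ᶠ L in atTop, 0 < e → c < e * L := fun c e => by
    by_cases he : 0 < e
    · exact ((tendsto_id.const_mul_atTop he).eventually_gt_atTop c).mono fun _ h _ => h
    · exact Eventually.of_forall fun _ h => absurd h he
  have E1 : ∀ᶠ L : ℝ in atTop, ∀ a d i, (0 : ℝ) < ex a i → co a - co d < ex a i * L := by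
    simp only [eventually_all, big, implies_true]
  have E2 : ∀ᶠ L : ℝ in atTop, ∀ a d t,
      (0 : ℝ) < δ (col a) t - (ex a ⬝ᵥ bfan b (.inl t) : ℚ) →
      n * (co a - co d) < (δ (col a) t - (ex a ⬝ᵥ bfan b (.inl t) : ℚ)) * L := by
    simp only [eventually_all, big, implies_true]
  filter_upwards [E1, E2] with L e1 e2 x _ j a hj ha d hd
  choose M κ hM0 hM hn hs using bka_max b x
  obtain ⟨z, hcol, hz⟩ := v (col a) κ
  have hc : rv (ex z) ⬝ᵥ x = ∑ t, (δ (col a) t : ℝ) * M t := by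
    rw [bka_val b x M, Finset.sum_eq_zero (s := Finset.univ)
      (f := fun k => (ex z k : ℝ) * (M (b k) - x k)) fun k _ => ?_, sub_zero]
    · refine Finset.sum_congr rfl fun t _ => ?_
      rcases e : κ t with _ | k
      · simp [hn t e]
      · rw [bka_dot_inl, Finset.sum_eq_single_of_mem k
          (Finset.mem_filter.2 ⟨Finset.mem_univ _, (hs t k e).1⟩) fun l hl hne => ?_]
        · simp [hz, (hs t k e).1, e]
        · simp [hz, (Finset.mem_filter.1 hl).2, e, hne.symm]
    · by_cases e : κ (b k) = some k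
      · rw [(hs _ k e).2, sub_self, mul_zero]
      · simp [hz, e]
  have h0' : ∀ i, (0 : ℝ) ≤ ex a i := fun i => by exact_mod_cast h0 a i
  have hp : ∀ i ∈ Finset.univ, 0 ≤ (ex a i : ℝ) * (M (b i) - x i) := fun i _ =>
    mul_nonneg (h0' i) (sub_nonneg.2 (hM _ i rfl))
  have hq : ∀ t ∈ Finset.univ,
      0 ≤ ((δ (col a) t : ℝ) - (ex a ⬝ᵥ bfan b (.inl t) : ℚ)) * M t := fun t _ =>
    mul_nonneg (sub_nonneg.2 (by exact_mod_cast h1 a t)) (hM0 t)
  have ht : ∑ t, ((δ (col a) t : ℝ) - (ex a ⬝ᵥ bfan b (.inl t) : ℚ)) * M t +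
      ∑ i, (ex a i : ℝ) * (M (b i) - x i) ≤ co a - co z := by
    have := ha z hcol
    simp only [blk] at this
    rw [hc, bka_val b x M] at this
    simp only [sub_mul, Finset.sum_sub_distrib]
    linarith
  simp only [On, blk] at hj
  rcases j with t | j
  · refine (hd ▸ h1 d t).trans (le_of_not_gt fun hlt => ?_)
    have hlt' : (0 : ℝ) < δ (col a) t - (ex a ⬝ᵥ bfan b (.inl t) : ℚ) := by
      rw [sub_pos]
      exact_mod_cast hlt
    have e := e2 a z t hlt'
    have h4 : L ≤ n * M t := by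
      rw [bka_inl] at hj
      have := Finset.sum_le_card_nsmul (Finset.univ.filter (b · = t)) x (M t) fun i hi =>
        hM t i (Finset.mem_filter.1 hi).2
      rw [nsmul_eq_mul, hj] at this
      exact this.trans (mul_le_mul_of_nonneg_right (bka_card b t) (hM0 t))
    have h5 := Finset.single_le_sum hq (Finset.mem_univ t)
    have h6 := mul_le_mul_of_nonneg_left h4 hlt'.le
    have h7 := mul_le_mul_of_nonneg_left
      (h5.trans ((le_add_of_nonneg_right (Finset.sum_nonneg hp)).trans ht)) (Nat.cast_nonneg n)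
    linarith
  · rw [bka_dot_inr, bka_dot_inr]
    refine (neg_nonpos.2 (h0 d j)).trans (neg_nonneg.2 (le_of_not_gt fun hlt => ?_))
    have hlt' : (0 : ℝ) < ex a j := by exact_mod_cast hlt
    have e := e1 a z j hlt'
    rw [bka_inr] at hj
    have h5 := Finset.single_le_sum hp (Finset.mem_univ j)
    have h6 : x j = -L := by linarith
    rw [h6] at h5
    nlinarith [Finset.sum_nonneg hq, mul_nonneg hlt'.le (hM0 (b j))]

end H5T.Cis
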