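import Pool.Agent.Lib.MP_e9c0f3_ag.CI.BDefs
import Pool.Agent.Lib.MP_e9c0f3_ag.H5T.Geo

/-! Inner points and the number of top monomials. -/

open Matrix
open scoped Classical

noncomputable section

namespace H5T.Cis

variable {n m c : ℕ} {α : Type} [Fintype α]

theorem bb_inl (b : Fin n → Fin m) (v : Fin n → ℚ) (t : Fin m) :
    v ⬝ᵥ bfan b (.inl t) = ∑ k ∈ Finset.univ.filter (b · = t), v k := by
  simp [bfan, dotProduct, Finset.sum_filter]

theorem bb_inr (b : Fin n → Fin m) (v : Fin n → ℚ) (k : Fin n) : v ⬝ᵥ bfan b (.inr k) = -v k := by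
  simp [bfan]

theorem bb_max {col : α → Fin c} (hs : Function.Surjective col) (φ : α → ℚ) (i : Fin c) :
    ∃ a, col a = i ∧ ∀ d, col d = i → φ d ≤ φ a := by
  obtain ⟨a, ha, h⟩ := Finset.exists_max_image (Finset.univ.filter (col · = i)) φ
    ((hs i).imp fun a ha => by simpa using ha)
  exact ⟨a, by simpa using ha, fun d hd => h d (by simpa using hd)⟩

theorem blk_inn (b : Fin n → Fin m) (col : α → Fin c) (ex : α → Fin n → ℚ) (co : α → ℝ) (L : ℝ)
    (hs : Function.Surjective col) {B : Finset (Fin c)} (h : b '' bused col ex B = Set.univ) :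
    (blk b col ex co L).Inn B := by
  choose mn h1 h2 using fun k i => bb_max hs (fun a => -ex a k) i
  choose mx h3 h4 using fun t i =>
    bb_max hs (fun a => ∑ k ∈ Finset.univ.filter (b · = t), ex a k) i
  have h5 : ∀ k a, ex (mn k (col a)) k ≤ ex a k := fun k a => neg_le_neg_iff.1 (h2 k _ a rfl)
  obtain ⟨gap, hg⟩ : ∃ gap : Fin m → ℚ, ∀ t, gap t =
      ∑ i ∈ B, ∑ k ∈ Finset.univ.filter (b · = t), ex (mx t i) k -
        ∑ i ∈ B, ∑ k ∈ Finset.univ.filter (b · = t), ex (mn k i) k := ⟨_, fun _ => rfl⟩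
  have hp : ∀ t, 0 < gap t := fun t => by
    obtain ⟨k, ⟨a, d, ha, hd, hne⟩, hk⟩ := Set.eq_univ_iff_forall.1 h t
    obtain ⟨e, he, hlt⟩ : ∃ e, col e = col a ∧ ex (mn k (col e)) k < ex e k := by
      rcases (h5 k a).lt_or_eq with h6 | h6
      · exact ⟨a, rfl, h6⟩
      · exact ⟨d, hd, (h5 k d).lt_of_ne fun h7 => hne (by rw [← h6, ← h7, hd])⟩
    rw [hg, sub_pos]
    refine Finset.sum_lt_sum (fun i _ => Finset.sum_le_sum fun l _ => ?_) ⟨col e, he ▸ ha, ?_⟩
    · simpa only [h3] using h5 l (mx t i)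
    · exact (Finset.sum_lt_sum (fun l _ => h5 l e) ⟨k, by simpa using hk, hlt⟩).trans_le
        (h4 t _ e rfl)
  refine ⟨fun k => ∑ i ∈ B, ex (mn k i) k + gap (b k) / (n + 1), fun j => ?_⟩
  rcases j with t | k
  · refine ⟨mx t, fun i _ => h3 t i, ?_⟩
    have e1 : ∑ k ∈ Finset.univ.filter (b · = t), gap (b k) / (n + 1) =
        (Finset.univ.filter (b · = t)).card * (gap t / (n + 1)) := by
      rw [Finset.sum_congr rfl fun k hk => by rw [(Finset.mem_filter.1 hk).2], Finset.sum_const,
        nsmul_eq_mul]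
    have e2 : ((Finset.univ.filter (b · = t)).card : ℚ) ≤ n := by
      exact_mod_cast (Finset.card_le_univ _).trans (Fintype.card_fin n).le
    have e3 : 0 < gap t / (n + 1) := div_pos (hp t) (by positivity)
    have e4 : gap t / (n + 1) * (n + 1) = gap t := div_mul_cancel₀ _ (by positivity)
    have e5 := mul_le_mul_of_nonneg_right e2 e3.le
    have e6 := hg t
    simp only [blk, bb_inl]
    rw [Finset.sum_add_distrib, e1, Finset.sum_comm, ← lt_sub_iff_add_lt', ← e6]
    linarith only [e3, e4, e5]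
  · refine ⟨mn k, fun i _ => h1 k i, ?_⟩
    have e3 : 0 < gap (b k) / (n + 1) := div_pos (hp _) (by positivity)
    simp only [blk, bb_inr]
    rw [Finset.sum_neg_distrib]
    exact neg_lt_neg (lt_add_of_pos_right _ e3)

theorem Good.few_used {ι : Type} [Fintype ι] {H : Cis n c α ι} (h : H.Good) (B : Finset (Fin c)) :
    H.Few B (B.card + (bused H.col H.ex B).ncard) := by
  intro x hx τ hτ
  have h1 : LinearIndependent ℚ fun a : τ => ((Pi.single (H.col a) 1 : Fin c → ℚ), H.ex a) :=
    (h.tri x hx).comp (fun a : τ => (⟨a, (hτ a a.2).1⟩ : {a // H.Top a x}))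
      fun a a' e => Subtype.ext (congrArg Subtype.val e :)
  have h2 : LinearIndependent ℚ fun a : τ =>
      ((fun i : B => (Pi.single (H.col a) 1 : Fin c → ℚ) i),
        fun k : bused H.col H.ex B => H.ex a k) := by
    rw [Fintype.linearIndependent_iff] at h1 ⊢
    intro g hg
    have e1 : ∀ i, ∑ a : τ, g a * (Pi.single (H.col a) 1 : Fin c → ℚ) i = 0 := fun i => by
      by_cases hi : i ∈ B
      · simpa only [Prod.fst_sum, Finset.sum_apply, Prod.smul_fst, Pi.smul_apply, smul_eq_mul,
          Prod.fst_zero, Pi.zero_apply] using congrFun (congrArg Prod.fst hg) ⟨i, hi⟩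
      · exact Finset.sum_eq_zero fun a _ => by
          rw [Pi.single_eq_of_ne fun e : i = H.col a => hi (e ▸ (hτ a a.2).2), mul_zero]
    have e2 : ∀ k, ∑ a : τ, g a * H.ex a k = 0 := fun k => by
      by_cases hk : k ∈ bused H.col H.ex B
      · simpa only [Prod.snd_sum, Finset.sum_apply, Prod.smul_snd, Pi.smul_apply, smul_eq_mul,
          Prod.snd_zero, Pi.zero_apply] using congrFun (congrArg Prod.snd hg) ⟨k, hk⟩
      · obtain ⟨e, he⟩ : ∃ e : Fin c → ℚ, ∀ a : τ, H.ex a k = e (H.col a) :=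
          ⟨fun i => if h : ∃ a : τ, H.col a = i then H.ex h.choose k else 0, fun a => by
            have h0 : ∃ a' : τ, H.col a' = H.col a := ⟨a, rfl⟩
            refine Eq.trans ?_ (dif_pos h0).symm
            by_contra hne
            exact hk ⟨a, h0.choose, (hτ a a.2).2, h0.choose_spec, hne⟩⟩
        have e3 : ∀ a : τ, g a * H.ex a k =
            ∑ i, e i * (g a * (Pi.single (H.col a) 1 : Fin c → ℚ) i) := fun a => by
          simp [he, Pi.single_apply, mul_comm]
        simp only [e3]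
        rw [Finset.sum_comm]
        exact Finset.sum_eq_zero fun i _ => by rw [← Finset.mul_sum, e1, mul_zero]
    refine h1 g (Prod.ext (funext fun i => ?_) (funext fun k => ?_))
    · simpa only [Prod.fst_sum, Finset.sum_apply, Prod.smul_fst, Pi.smul_apply, smul_eq_mul,
        Prod.fst_zero, Pi.zero_apply] using e1 i
    · simpa only [Prod.snd_sum, Finset.sum_apply, Prod.smul_snd, Pi.smul_apply, smul_eq_mul,
        Prod.snd_zero, Pi.zero_apply] using e2 k
  have h3 := h2.fintype_card_le_finrank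
  rwa [Module.finrank_prod, Module.finrank_fintype_fun_eq_card, Module.finrank_fintype_fun_eq_card,
    Fintype.card_coe, Fintype.card_coe, ← Nat.card_eq_fintype_card, Nat.card_coe_set_eq] at h3

end H5T.Cis
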