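import Pool.Agent.Lib.MP_e9c0f3_ag.CI.Frame
import Pool.Agent.Lib.MP_e9c0f3_ag.CI.Trans
import Pool.Agent.Lib.MP_e9c0f3_ag.HY.HCell

/-! Cells of the complete intersection and sets of constraints. -/

open Matrix ExteriorAlgebra
open scoped Classical

noncomputable section

namespace H5T.Cis

variable {n c : ℕ} {α β : Type} [Fintype α] [Fintype β]

/-- The cell of a set of constraints. -/
def ceCx (H : Cis n c α β) (S : Finset (Jx c α β)) : Set (Pt n) :=
  {x ∈ H.box | (∀ a, mo a ∈ S → H.Top a x) ∧ ∀ j ∈ cuts S, H.On j x}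

/-- The constraints that are tight on a set. -/
def ceIx (H : Cis n c α β) (σ : Set (Pt n)) : Finset (Jx c α β) :=
  Finset.univ.filter fun s => match s with
    | .inl _ => False
    | .inr (.inl a) => ∀ x ∈ σ, H.Top a x
    | .inr (.inr j) => ∀ x ∈ σ, H.On j x

variable {H : Cis n c α β} {K : Finset (Jx c α β) → Prop} {X : TropCx n}

theorem ce_mon {σ : Set (Pt n)} {a : α} : mo a ∈ H.ceIx σ ↔ ∀ x ∈ σ, H.Top a x := by
  simp [ceIx]

theorem ce_cut {σ : Set (Pt n)} {j : β} : j ∈ cuts (H.ceIx σ) ↔ ∀ x ∈ σ, H.On j x := by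
  simp [cuts, ceIx]

theorem ce_lid (σ : Set (Pt n)) (i : Fin c) : .inl i ∉ H.ceIx σ := by
  simp [ceIx]

theorem ce_anti {σ ρ : Set (Pt n)} (h : ρ ⊆ σ) : H.ceIx σ ⊆ H.ceIx ρ := by
  rintro (i | a | j) hs
  · exact absurd hs (ce_lid σ i)
  · exact ce_mon.2 fun x hx => ce_mon.1 hs x (h hx)
  · exact ce_cut.2 fun x hx => ce_cut.1 hs x (h hx)

omit [Fintype α] [Fintype β] in
theorem ce_cx_anti {S S' : Finset (Jx c α β)} (h : S ⊆ S') : H.ceCx S' ⊆ H.ceCx S :=
  fun _ hx => ⟨hx.1, fun a ha => hx.2.1 a (h ha), fun j hj => hx.2.2 j (h hj)⟩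

omit [Fintype α] [Fintype β] in
theorem ce_tang_le {σ : Set (Pt n)} {a b : α} (hab : H.col a = H.col b)
    (ha : ∀ x ∈ σ, H.Top a x) (hb : ∀ x ∈ σ, H.Top b x) :
    tang σ ≤ LinearMap.ker (dl (H.ex a - H.ex b)) := by
  intro v hv
  have h1 : ∀ x ∈ σ, rv (H.ex a - H.ex b) ⬝ᵥ x = H.co b - H.co a := by
    intro x hx
    have h2 := ha x hx b hab.symm
    have h3 := hb x hx a hab
    rw [map_sub, sub_dotProduct]
    linarith
  have h4 := G33.kill h1 (rv v) hv
  rw [G33.rv_dot] at h4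
  exact_mod_cast h4

theorem ce_le_tang {S : Finset (Jx c α β)} {f g : Fin c → α} {x : Pt n} (hx : x ∈ H.box)
    (hf : ∀ i, H.col (f i) = i) (hg : ∀ i, H.col (g i) = i)
    (hm : ∀ a, mo a ∈ S ↔ ∃ i, a = f i ∨ a = g i) (hc : ∀ j, j ∉ cuts S)
    (h1 : ∀ a, H.Top a x ↔ mo a ∈ S) (h2 : ∀ j, H.On j x ↔ j ∈ cuts S) :
    ⨅ i, LinearMap.ker (dl (H.ex (f i) - H.ex (g i))) ≤ tang (H.ceCx S) := by
  intro v hv
  have hv' : ∀ i, rv (H.ex (f i) - H.ex (g i)) ⬝ᵥ rv v = 0 := fun i => by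
    rw [G33.rv_dot]
    exact_mod_cast (Submodule.mem_iInf _).1 hv i
  have ha : ∀ i, H.Top (f i) x := fun i => (h1 _).2 ((hm _).2 ⟨i, Or.inl rfl⟩)
  have hb : ∀ i, H.Top (g i) x := fun i => (h1 _).2 ((hm _).2 ⟨i, Or.inr rfl⟩)
  obtain ⟨e, he, h3⟩ := G33.slack
    ((Finset.univ.image fun j => (-H.nm j, -H.lev j)) ∪ Finset.univ.image fun a =>
      (H.ex (f (H.col a)) - H.ex a, H.co a - H.co (f (H.col a)))) (p := x) (w := rv v)
    (by
      intro u hu
      rcases Finset.mem_union.1 hu with hu | hu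
      · obtain ⟨j, -, rfl⟩ := Finset.mem_image.1 hu
        have := hx j
        simp only [map_neg, neg_dotProduct]
        linarith
      · obtain ⟨a, -, rfl⟩ := Finset.mem_image.1 hu
        have := ha (H.col a) a (hf _).symm
        simp only [map_sub, sub_dotProduct]
        linarith)
    (by
      intro u hu ht
      rcases Finset.mem_union.1 hu with hu | hu
      · obtain ⟨j, -, rfl⟩ := Finset.mem_image.1 hu
        simp only [map_neg, neg_dotProduct, neg_inj] at ht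
        exact absurd ((h2 j).1 ht) (hc j)
      · obtain ⟨a, -, rfl⟩ := Finset.mem_image.1 hu
        have h4 : H.Top a x := by
          intro d hd
          have := ha (H.col a) d (hd.trans (hf _).symm)
          simp only [map_sub, sub_dotProduct] at ht
          linarith
        obtain ⟨i, rfl | rfl⟩ := (hm a).1 ((h1 a).1 h4)
        · simp [hf]
        · simp only [hg]
          exact hv' i)
  have h5 : ∀ i, H.Top (f i) (x + e • rv v) := by
    intro i a hai
    have := h3 _ (Finset.mem_union_right _ (Finset.mem_image_of_mem _ (Finset.mem_univ a)))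
    simp only [map_sub, sub_dotProduct, hai, hf] at this
    linarith
  have h6 : x + e • rv v ∈ H.ceCx S := by
    refine ⟨fun j => ?_, fun a ha' => ?_, fun j hj => absurd hj (hc j)⟩
    · have := h3 _ (Finset.mem_union_left _ (Finset.mem_image_of_mem _ (Finset.mem_univ j)))
      simp only [map_neg, neg_dotProduct] at this
      linarith
    · obtain ⟨i, rfl | rfl⟩ := (hm a).1 ha'
      · exact h5 i
      · intro d hd
        have h7 := h5 i d (hd.trans ((hg i).trans (hf i).symm))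
        have h8 := hb i (f i) ((hf i).trans (hg i).symm)
        have h9 := hv' i
        rw [map_sub, sub_dotProduct, sub_eq_zero] at h9
        simp only [dotProduct_add, dotProduct_smul, smul_eq_mul] at h7 ⊢
        rw [h9] at h7
        linarith
  have h9 : x ∈ H.ceCx S := ⟨hx, fun a ha' => (h1 a).2 ha', fun j hj => (h2 j).2 hj⟩
  have h10 := (vectorSpan ℝ (H.ceCx S)).smul_mem e⁻¹ (vsub_mem_vectorSpan ℝ h6 h9)
  rw [vsub_eq_sub, add_sub_cancel_left, smul_smul, inv_mul_cancel₀ he.ne', one_smul] at h10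
  exact h10

theorem Fm.dict (h : H.Fm K) (hX : H.Is X) :
    ∃ ix cx, HY.Dic X K (fun S => ∃ f g, H.Pk Finset.univ S f g) ix cx H.FX H.I0 := by
  have hK : ∀ σ ∈ X.cells, K (H.ceIx σ) := by
    intro σ hσ
    obtain ⟨⟨x, hx⟩, τ, J, -, e⟩ := (hX.1 σ).1 hσ
    exact h.of_pt x (e ▸ hx : x ∈ H.cell τ J).1 _ (ce_lid σ) (fun a ha => ce_mon.1 ha x hx)
      fun j hj => ce_cut.1 hj x hx
  have hM : ∀ σ ∈ X.cells, ∃ f g, H.Pk Finset.univ (H.ceIx σ) f g := by
    intro σ hσ
    obtain ⟨-, τ, J, hτ, rfl⟩ := (hX.1 σ).1 hσ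
    choose f hf g hg hfg using fun i => Finset.one_lt_card.1 (hτ i)
    simp only [Finset.mem_filter] at hf hg
    exact ⟨f, g, fun i => ⟨ce_mon.2 fun x hx => hx.2.1 _ (hf i).1, (hf i).2⟩,
      fun i _ => ⟨ce_mon.2 fun x hx => hx.2.1 _ (hg i).1, (hg i).2, (hfg i).symm⟩⟩
  have hC : ∀ σ ∈ X.cells, H.ceCx (H.ceIx σ) = σ := by
    intro σ hσ
    obtain ⟨-, τ, J, -, rfl⟩ := (hX.1 σ).1 hσ
    refine Set.Subset.antisymm (fun x hx => ⟨hx.1, fun a ha => ?_, fun j hj => ?_⟩)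
      fun x hx => ⟨hx.1, fun a ha => ce_mon.1 ha x hx, fun j hj => ce_cut.1 hj x hx⟩
    · exact hx.2.1 a (ce_mon.2 fun y hy => hy.2.1 a ha)
    · exact hx.2.2 j (ce_cut.2 fun y hy => hy.2.2 j hj)
  have hS : ∀ S, K S → (∃ f g, H.Pk Finset.univ S f g) →
      H.ceCx S ∈ X.cells ∧ H.ceIx (H.ceCx S) = S := by
    rintro S hK ⟨f, g, hf, hg⟩
    obtain ⟨x, hx, h1, h2⟩ := h.exact S hK fun i => ⟨f i, hf i⟩
    have hxS : x ∈ H.ceCx S := ⟨hx, fun a ha => (h1 a).2 ha, fun j hj => (h2 j).2 hj⟩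
    constructor
    · refine (hX.1 _).2 ⟨⟨x, hxS⟩, Finset.univ.filter (mo · ∈ S),
        Finset.univ.filter (· ∈ cuts S), fun i => ?_, ?_⟩
      · obtain ⟨g1, g2, g3⟩ := hg i (Finset.mem_univ i)
        exact Finset.one_lt_card.2 ⟨f i, by simpa using hf i, g i, by simpa using ⟨g1, g2⟩, g3.symm⟩
      · ext y
        simp [ceCx, cell]
    · ext s
      rcases s with i | a | j
      · exact iff_of_false (ce_lid _ i) ((hf i).2 ▸ h.sep S hK (f i) (hf i).1)
      · exact ce_mon.trans ⟨fun h3 => (h1 a).1 (h3 x hxS), fun h3 y hy => hy.2.1 a h3⟩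
      · exact ce_cut.trans ⟨fun h3 => (h2 j).1 (h3 x hxS), fun h3 y hy => hy.2.2 j h3⟩
  refine ⟨H.ceIx, H.ceCx, hK, hC, hS, fun _ _ => ce_anti, fun _ _ => ce_cx_anti,
    fun S S' hle ⟨f, g, hp⟩ => ⟨f, g, hp.mono hle⟩, fun p S hN => ?_, FX_mono, I0_mono, ?_, ?_⟩
  · exact le_bot_iff.1 (iSup_le fun f => iSup_le fun g => iSup_le fun hp => absurd ⟨f, g, hp⟩ hN)
  · intro σ hσ p
    refine le_antisymm (iSup₂_le fun η hη => iSup_le fun hση => ?_)
      (iSup_le fun f => iSup_le fun g => iSup_le fun hp => ?_)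
    · obtain ⟨f, g, hp⟩ := hM η hη
      refine le_iSup_of_le f (le_iSup_of_le g (le_iSup_of_le (hp.mono (ce_anti hση))
        (EA.wedge_mono (le_iInf fun i => ?_) p)))
      obtain ⟨g1, g2, -⟩ := hp.2 i (Finset.mem_univ i)
      exact ce_tang_le ((hp.1 i).2.trans g2.symm) (ce_mon.1 (hp.1 i).1) (ce_mon.1 g1)
    · let S : Finset (Jx c α β) :=
        (Finset.univ.image fun i => mo (f i)) ∪ Finset.univ.image fun i => mo (g i)
      have hm : ∀ a, mo a ∈ S ↔ ∃ i, a = f i ∨ a = g i := fun a => by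
        simp [S, exists_or, eq_comm]
      have hc : ∀ j, j ∉ cuts S := fun j => by simp [S, cuts]
      have hle : S ⊆ H.ceIx σ := Finset.union_subset
        (Finset.image_subset_iff.2 fun i _ => (hp.1 i).1)
        (Finset.image_subset_iff.2 fun i hi => (hp.2 i hi).1)
      have hKS : K S := h.down _ _ hle (hK σ hσ)
      have hN : H.Pk Finset.univ S f g :=
        ⟨fun i => ⟨(hm _).2 ⟨i, Or.inl rfl⟩, (hp.1 i).2⟩,
          fun i hi => ⟨(hm _).2 ⟨i, Or.inr rfl⟩, (hp.2 i hi).2⟩⟩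
      obtain ⟨x, hx, h1, h2⟩ := h.exact S hKS fun i => ⟨f i, hN.1 i⟩
      have hσS : σ ⊆ H.ceCx S := (hC σ hσ).symm.subset.trans (ce_cx_anti hle)
      exact le_iSup₂_of_le (H.ceCx S) (hS S hKS ⟨f, g, hN⟩).1
        (le_iSup_of_le hσS (EA.wedge_mono (ce_le_tang hx (fun i => (hp.1 i).2)
          (fun i => (hp.2 i (Finset.mem_univ i)).2.1) hm hc h1 h2) p))
  · intro σ hσ
    have h1 : cuts (H.ceIx σ) = {j | ∀ x ∈ σ, H.On j x} := Set.ext fun j => ce_cut
    rw [TropCx.I, I0, TropCx.sed, hX.2 σ hσ, h1]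

theorem Fm.FX_bot (h : H.Fm K) {S : Finset (Jx c α β)} (hS : K S) {p : ℕ} (hp : n < p + c) :
    H.FX p S = ⊥ := by
  refine le_bot_iff.1 (iSup_le fun f => iSup_le fun g => iSup_le fun hk => ?_)
  refine (Hyp.hc_wedge_bot ?_).le
  let Φ : (Fin n → ℚ) →ₗ[ℚ] Fin c → ℚ := LinearMap.pi fun i => dl (H.ex (f i) - H.ex (g i))
  have hsurj : LinearMap.range Φ = ⊤ := by
    refine LinearMap.range_eq_top.2 fun y => ?_
    obtain ⟨w, hw⟩ := HY.exists_dual_vec (h.indep S hS) fun s => match s with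
      | .inr (.inl a) => if a = g (H.col a) then y (H.col a) else 0
      | _ => 0
    refine ⟨fun k => w (Fin.natAdd c k), funext fun i => ?_⟩
    obtain ⟨g1, g2, g3⟩ := hk.2 i (Finset.mem_univ i)
    obtain ⟨f1, f2⟩ := hk.1 i
    have e : w = Fin.append (fun k => w (Fin.castAdd n k)) fun k => w (Fin.natAdd c k) :=
      (Fin.append_castAdd_natAdd (f := w)).symm
    have a1 : H.ell (f i) w = 0 := by
      have := hw _ (Finset.mem_coe.2 f1)
      simp only [f2, if_neg g3.symm] at this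
      exact this
    have a2 : H.ell (g i) w = y i := by
      have := hw _ (Finset.mem_coe.2 g1)
      simp only [g2, if_true] at this
      exact this
    rw [e, ell_ap] at a1 a2
    rw [f2] at a1
    rw [g2] at a2
    simp only [Φ, LinearMap.pi_apply, dl_apply, sub_dotProduct]
    linarith
  have h1 := LinearMap.finrank_range_add_finrank_ker Φ
  rw [hsurj, finrank_top, LinearMap.ker_pi] at h1
  simp only [Module.finrank_fin_fun] at h1
  omega

end H5T.Cis
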