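import Pool.Agent.Lib.MP_e9c0f3_ag.CI.Red
import Pool.Agent.Lib.MP_e9c0f3_ag.HY.Bool

/-! Exactness of the monomial systems: counting. -/

open Matrix ExteriorAlgebra
open scoped Classical

noncomputable section

namespace H5T.Cis

open HY

variable {n c : ℕ} {α β : Type} [Fintype α] [Fintype β] {H : Cis n c α β}
  {K : Finset (Jx c α β) → Prop} {vx up : Finset (Jx c α β) → Finset (Jx c α β)}
  {rk : Finset (Jx c α β) → ℝ} {B B' : Finset (Fin c)} {g r : ℕ}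

omit [Fintype α] [Fintype β] in
/-- The two Boolean lemmas for a system that is given by a predicate on the constraints. -/
theorem cn_bool {I E : Type} [AddCommGroup E] [Module ℚ E] {φ : List (Finset I)}
    {u v : Finset I} (p : I → Prop) (hu : u ⊆ v) (W : Submodule ℚ E)
    {i : ∀ S : Finset I, Decidable (∀ s ∈ S, ¬ p s)}
    (h : (φ = [] ∧ ((∀ x, x ∈ u ↔ x ∈ v ∧ p x) → g ≠ u.card + 1)) ∨ (φ ≠ [] ∧ g ≤ v.card)) :
    Ex (Cl (· ⊆ v) φ u) (fun _ => W) (fun S => @ite _ (∀ s ∈ S, ¬ p s) (i S) ⊥ ⊤) g := by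
  have e : Ex (Cl (· ⊆ v) φ u) (fun _ => W)
      (fun S => if S ⊆ v.filter (fun x => ¬ p x) then ⊥ else ⊤) g := by
    rcases h with ⟨rfl, h⟩ | ⟨h1, h2⟩
    · refine ex_global hu W fun a b => h fun x => ⟨fun hx => ⟨hu hx, ?_⟩, fun hx => ?_⟩
      · by_contra hp
        exact Finset.disjoint_left.1 a hx (Finset.mem_filter.2 ⟨hu hx, hp⟩)
      · exact (Finset.mem_union.1 (b hx.1)).resolve_right fun e => (Finset.mem_filter.1 e).2 hx.2
    · exact ex_local h1 h2 W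
  exact e.congr (fun _ => Iff.rfl) (fun _ _ _ => rfl) fun S l hl =>
    if_congr ⟨fun a x hx => Finset.mem_filter.2 ⟨hl.2.1 S List.mem_cons_self hx, a x hx⟩,
      fun a x hx => (Finset.mem_filter.1 (a hx)).2⟩ rfl rfl

omit [Fintype α] [Fintype β] in
theorem cn_rep {A : Finset (Fin c)} {f : Fin c → α} {X Z : Finset (Jx c α β)} (hX : X ⊆ Z)
    (hf : ∀ i ∈ A, H.col (f i) = i ∧ mo (f i) ∈ Z ∧ mo (f i) ∉ X) : X.card + A.card ≤ Z.card := by
  have h1 : A.card ≤ (Z \ X).card := by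
    refine Finset.card_le_card_of_injOn (fun i => mo (f i))
      (fun i hi => Finset.mem_coe.2 (Finset.mem_sdiff.2 (hf i hi).2)) fun i hi j hj e => ?_
    have : f i = f j := by simpa using e
    rw [← (hf i hi).1, this, (hf j hj).1]
  have h2 := Finset.card_sdiff_add_card_eq_card hX
  omega

theorem Fm.cn_glob (h : H.Fm K) (hs : H.Sh K B' vx up rk)
    (e : ∀ S, K S → (∀ i, .inl i ∉ vx S) → ∀ U ⊆ vx S, U.card = r →
      (∀ i ∉ B, ∃ a, H.col a = i ∧ mo a ∈ vx S ∧ mo a ∉ U) → ∀ D : Finset (Fin c),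
      (∀ x, x ∈ up (vx S) ↔ x ∈ vx S ∧ H.Kill B D U x) → g + D.card ≠ (up (vx S)).card + 1) :
    Ex (Cl K [] ∅) (H.G ∅ B r) (H.J B) g :=
  hs.shell.ex (G_mono _ _ _) (J_mono _) fun S hS =>
    h.red (hs.shell.mem S hS) (hs.card S hS) fun h1 U h2 h3 h4 D W =>
      cn_bool _ ((hs.shell.up_le S hS).trans (hs.shell.le S hS)) W
        (Or.inl ⟨rfl, e S hS h1 U h2 h3 h4 D⟩)

theorem Fm.ex_loc (h : H.Fm K) (hs : H.Sh K B' vx up rk) {φ : List (Finset (Jx c α β))}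
    (hφ : φ ≠ []) (hg : g ≤ n) : Ex (Cl K φ ∅) (H.G ∅ B r) (H.J B) g := by
  refine hs.shell.ex (G_mono _ _ _) (J_mono _) fun S hS =>
    h.red (hs.shell.mem S hS) (hs.card S hS) fun _ U _ _ _ D W =>
      cn_bool _ ((hs.shell.up_le S hS).trans (hs.shell.le S hS)) W (Or.inr ⟨hφ, ?_⟩)
  have h1 := hs.card S hS
  have h2 := card_finset_fin_le D
  omega

theorem Fm.ex_inn (h : H.Fm K) (hs : H.Sh K B vx up rk) (hI : H.Inn B) (hg : n + 1 < g + r) :
    Ex (Cl K [] ∅) (H.G ∅ B r) (H.J B) g := by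
  refine h.cn_glob hs fun S hS h1 U h2 h3 h4 D hu => ?_
  have hBD : ∀ i ∈ B, i ∈ D := by
    intro i hi
    obtain ⟨a, rfl, ha⟩ := hs.mon_up S hS i hi (h1 i)
    exact ((hu _).1 ha).2.1
  have hd : Disjoint (up (vx S)) U := by
    refine Finset.disjoint_left.2 fun x hx hU => ?_
    rcases x with i | a | j
    · exact h1 i (h2 hU)
    · obtain ⟨hv, hD, hB⟩ := (hu _).1 hx
      have hB' : H.col a ∉ B := hB.resolve_right fun e => e hU
      obtain ⟨b, e1, e2, e3⟩ := h4 _ hB'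
      obtain ⟨-, d, d1, d2, d3⟩ := hs.gen S hS _ hB' a b hv e2 rfl e1 fun e => e3 (e ▸ hU)
      exact d3 ((hu _).2 ⟨d2, d1 ▸ hD, Or.inl (d1 ▸ hB')⟩)
    · exact hs.cut_up hI S hS h1 j hx
  have hf' : ∀ i : Fin c, ∃ b, i ∈ Dᶜ → H.col b = i ∧ mo b ∈ vx S ∧ mo b ∉ up (vx S) ∪ U := by
    intro i
    by_cases hi : i ∈ B
    · obtain ⟨a, -⟩ := hs.mon_up S hS i hi (h1 i)
      exact ⟨a, fun e => absurd (hBD i hi) (Finset.mem_compl.1 e)⟩
    · obtain ⟨b, e1, e2, e3⟩ := h4 i hi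
      refine ⟨b, fun hD => ⟨e1, e2, fun e => ?_⟩⟩
      rcases Finset.mem_union.1 e with e | e
      · exact Finset.mem_compl.1 hD (e1 ▸ ((hu _).1 e).2.1)
      · exact e3 e
  choose f hf' using hf'
  have k1 := cn_rep (Finset.union_subset ((hs.shell.up_le S hS).trans (hs.shell.le S hS)) h2) hf'
  rw [Finset.card_union_of_disjoint hd, hs.card S hS, Finset.card_compl, Fintype.card_fin] at k1
  have k2 := card_finset_fin_le D
  omega

theorem Fm.ex_few (h : H.Fm K) (hs : H.Sh K Finset.univ vx up rk) {t : ℕ} (hT : H.Few B t)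
    (hg : t + g ≤ r + B.card) : Ex (Cl K [] ∅) (H.G ∅ B r) (H.J B) g := by
  refine h.cn_glob hs fun S hS h1 U h2 h3 h4 D hu => ?_
  have hD : ∀ i, i ∈ D := by
    intro i
    obtain ⟨a, rfl, ha⟩ := hs.mon_up S hS i (Finset.mem_univ _) (h1 i)
    exact ((hu _).1 ha).2.1
  have hf : ∀ i : Fin c, ∃ a, H.col a = i ∧ mo a ∈ up (vx S) ∧ mo a ∉ U := by
    intro i
    by_cases hi : i ∈ B
    · obtain ⟨a, rfl, ha⟩ := hs.mon_up S hS i (Finset.mem_univ _) (h1 i)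
      exact ⟨a, rfl, ha, ((hu _).1 ha).2.2.resolve_left fun e => e hi⟩
    · obtain ⟨a, rfl, e2, e3⟩ := h4 i hi
      exact ⟨a, rfl, (hu _).2 ⟨e2, hD _, Or.inl hi⟩, e3⟩
  choose f hf using hf
  obtain ⟨x, hx, hx1, -⟩ := h.pt _ (hs.shell.mem S hS)
  let τ : Finset α := Finset.univ.filter fun a => mo a ∈ vx S ∧ H.col a ∈ B
  have k0 : τ.card ≤ t := hT x hx τ fun a ha =>
    ⟨hx1 a (Finset.mem_filter.1 ha).2.1, (Finset.mem_filter.1 ha).2.2⟩
  have k1 : (U ∩ up (vx S)).card + (Finset.univ : Finset (Fin c)).card ≤ (up (vx S)).card :=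
    cn_rep (H := H) (f := f) Finset.inter_subset_right fun i _ =>
      ⟨(hf i).1, (hf i).2.1, fun e => (hf i).2.2 (Finset.mem_inter.1 e).1⟩
  have k2 : (U \ up (vx S)).card + B.card ≤ (τ.image (mo : α → Jx c α β)).card := by
    refine cn_rep (H := H) (f := f) (fun y hy => ?_) fun i hi => ⟨(hf i).1, ?_, fun e => ?_⟩
    · obtain ⟨y1, y2⟩ := Finset.mem_sdiff.1 hy
      rcases y with i | a | j
      · exact absurd (h2 y1) (h1 i)
      · refine Finset.mem_image_of_mem _ (Finset.mem_filter.2 ⟨Finset.mem_univ _, h2 y1, ?_⟩)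
        by_contra hB
        exact y2 ((hu _).2 ⟨h2 y1, hD _, Or.inl hB⟩)
      · exact absurd ((hu _).2 ⟨h2 y1, y1⟩) y2
    · exact Finset.mem_image_of_mem _ (Finset.mem_filter.2
        ⟨Finset.mem_univ _, ((hu _).1 (hf i).2.1).1, (hf i).1.symm ▸ hi⟩)
    · exact (hf i).2.2 (Finset.mem_sdiff.1 e).1
  have k3 := Finset.card_image_le (s := τ) (f := (mo : α → Jx c α β))
  have k4 := Finset.card_sdiff_add_card_inter U (up (vx S))
  have k5 : D.card = c := by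
    rw [Finset.eq_univ_of_forall hD, Finset.card_univ, Fintype.card_fin]
  rw [Finset.card_univ, Fintype.card_fin] at k1
  omega

end H5T.Cis
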