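import Pool.Agent.Lib.MP_e9c0f3_ag.H5T.Defs

/-! Simple tropical complete intersections. -/

open Matrix

noncomputable section

namespace H5T

/-- Tropical polynomials `max (ex a · x + co a)` over the monomials `a` of colour `i`, a truncating
polytope `nm j · x ≤ lev j`, and the direction `dir j` to infinity through each of its facets. -/
structure Cis (n c : ℕ) (α ι : Type) where
  col : α → Fin c
  ex : α → Fin n → ℚ
  co : α → ℝ
  nm : ι → Fin n → ℚ
  lev : ι → ℝ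
  dir : ι → Fin n → ℚ

namespace Cis

variable {n c : ℕ} {α ι : Type} (H : Cis n c α ι)

/-- The truncating polytope. -/
def box : Set (Pt n) := {x | ∀ j, rv (H.nm j) ⬝ᵥ x ≤ H.lev j}

/-- The monomial `a` attains the maximum of its colour at `x`. -/
def Top (a : α) (x : Pt n) : Prop :=
  ∀ b, H.col b = H.col a → rv (H.ex b) ⬝ᵥ x + H.co b ≤ rv (H.ex a) ⬝ᵥ x + H.co a

/-- `x` lies on the facet `j`. -/
def On (j : ι) (x : Pt n) : Prop := rv (H.nm j) ⬝ᵥ x = H.lev j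

/-- The cell where the monomials in `τ` are maximal, on the facets in `J`. -/
def cell (τ : Finset α) (J : Finset ι) : Set (Pt n) :=
  {x ∈ H.box | (∀ a ∈ τ, H.Top a x) ∧ ∀ j ∈ J, H.On j x}

/-- The Cayley subdivision is a triangulation, and the truncation is transversal and far out. -/
structure Good [Fintype ι] : Prop where
  bdd : Bornology.IsBounded H.box
  tri : ∀ x ∈ H.box, LinearIndependent ℚ fun a : {a // H.Top a x} =>
    ((Pi.single (H.col a) 1 : Fin c → ℚ), H.ex a)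
  face : ∀ x ∈ H.box, ∀ j a, H.On j x → H.Top a x → ∀ b, H.col b = H.col a →
    H.ex b ⬝ᵥ H.dir j ≤ H.ex a ⬝ᵥ H.dir j
  cut : ∀ x ∈ H.box, ∀ j, H.On j x → ∃ μ : ι → ℚ, (∀ i, 0 ≤ μ i) ∧ (∀ i, ¬ H.On i x → μ i = 0) ∧
    H.nm j ⬝ᵥ ∑ i, μ i • H.dir i = 1 ∧ ∀ l, H.On l x → l ≠ j → H.nm l ⬝ᵥ ∑ i, μ i • H.dir i = 0

/-- The sum of the Newton polytopes of the colours in `B` has an inner point. -/
def Inn (B : Finset (Fin c)) : Prop :=
  ∃ o : Fin n → ℚ, ∀ j, ∃ f : Fin c → α, (∀ i ∈ B, H.col (f i) = i) ∧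
    o ⬝ᵥ H.dir j < ∑ i ∈ B, H.ex (f i) ⬝ᵥ H.dir j

/-- At most `t` monomials with colour in `B` are maximal at a point. -/
def Few (B : Finset (Fin c)) (t : ℕ) : Prop :=
  ∀ x ∈ H.box, ∀ τ : Finset α, (∀ a ∈ τ, H.Top a x ∧ H.col a ∈ B) → τ.card ≤ t

/-- `X` is the truncated intersection of the corner loci of `H`. -/
def Is (X : TropCx n) : Prop :=
  (∀ σ, σ ∈ X.cells ↔ σ.Nonempty ∧
    ∃ τ J, (∀ i, 2 ≤ (τ.filter (H.col · = i)).card) ∧ σ = H.cell τ J) ∧
    ∀ σ ∈ X.cells, (X.ray σ : Set (Fin n → ℚ)) = H.dir '' {j | ∀ x ∈ σ, H.On j x}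

end Cis

end H5T
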