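import Pool.Agent.Lib.MP_e9c0f3_ag.CI.Frame
import Pool.Agent.Lib.MP_e9c0f3_ag.CI.Sys2
import Pool.Agent.Lib.MP_e9c0f3_ag.HY.HAlg

/-! Forgetting the vertical directions. -/

open Matrix ExteriorAlgebra
open scoped Classical

noncomputable section

namespace H5T.Cis

open HY

variable {n c : ℕ} {α β : Type} {H : Cis n c α β} {cl : List (Finset (Jx c α β)) → Prop}

/-- The horizontal inclusion. -/
def dnIn (c n : ℕ) : (Fin n → ℚ) →ₗ[ℚ] (Fin (c + n) → ℚ) :=
  LinearMap.pi (Fin.addCases (fun _ => 0) LinearMap.proj)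

/-- The horizontal projection. -/
def dnTl (c n : ℕ) : (Fin (c + n) → ℚ) →ₗ[ℚ] (Fin n → ℚ) := LinearMap.funLeft ℚ ℚ (Fin.natAdd c)

theorem dn_in (x : Fin n → ℚ) : dnIn c n x = Fin.append 0 x := by
  funext i
  refine Fin.addCases (fun i => ?_) (fun i => ?_) i <;> simp [dnIn]

theorem dn_tl (y : Fin c → ℚ) (x : Fin n → ℚ) : dnTl c n (Fin.append y x) = x := by
  funext i
  simp [dnTl]

theorem dn_split (u : Fin (c + n) → ℚ) :
    u = Fin.append (fun i => u (Fin.castAdd n i)) (dnTl c n u) := by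
  funext i
  refine Fin.addCases (fun i => ?_) (fun i => ?_) i <;> simp [dnTl]

theorem dn_ap (y : Fin c → ℚ) (x : Fin n → ℚ) :
    Fin.append y x - dnIn c n x = ∑ i, y i • vv n i := by
  rw [dn_in]
  funext i
  refine Fin.addCases (fun i => ?_) (fun i => ?_) i <;> simp [vv, Pi.single_apply]

theorem dn_left {a : ℕ} {T : Submodule ℚ (Fin a → ℚ)} (w : Fin a → ℚ) {y : Mv a}
    (hy : y ∈ T.map (ι ℚ) * (⊤ : Submodule ℚ (Mv a))) :
    ι ℚ w * y ∈ T.map (ι ℚ) * (⊤ : Submodule ℚ (Mv a)) := by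
  refine Submodule.mul_induction_on hy (fun u hu y _ => ?_) fun u v hu hv => ?_
  · obtain ⟨t, ht, rfl⟩ := hu
    rw [← mul_assoc, Hyp.halg_swap, neg_mul, mul_assoc]
    exact neg_mem (Submodule.mul_mem_mul (Submodule.mem_map_of_mem ht) Submodule.mem_top)
  · rw [mul_add]
    exact add_mem hu hv

/-- A map that is the identity modulo `T` is the identity modulo the ideal of `T`. -/
theorem dn_mod {a : ℕ} {T : Submodule ℚ (Fin a → ℚ)} (q : (Fin a → ℚ) →ₗ[ℚ] (Fin a → ℚ))
    (hq : ∀ u, u - q u ∈ T) (y : Mv a) :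
    y - ExteriorAlgebra.map q y ∈ T.map (ι ℚ) * (⊤ : Submodule ℚ (Mv a)) := by
  induction y using CliffordAlgebra.left_induction with
  | algebraMap r =>
    rw [AlgHom.commutes, sub_self]
    exact zero_mem _
  | add x y hx hy =>
    rw [map_add, add_sub_add_comm]
    exact add_mem hx hy
  | ι_mul y v hy =>
    have e : (ι ℚ v * y - ExteriorAlgebra.map q (ι ℚ v * y) : Mv a) =
        ι ℚ (v - q v) * y + ι ℚ (q v) * (y - ExteriorAlgebra.map q y) := by
      rw [map_mul, map_apply_ι, map_sub, sub_mul, mul_sub, sub_add_sub_cancel]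
    exact e ▸ add_mem (Submodule.mul_mem_mul (Submodule.mem_map_of_mem (hq v)) Submodule.mem_top)
      (dn_left _ hy)

theorem dn_vert (S : Finset (Jx c α β)) (y : Fin c → ℚ) (x : Fin n → ℚ) :
    Fin.append y x - dnIn c n x ∈
      Submodule.span ℚ (H.dh '' cuts S ∪ vv n '' {i | i ∉ (∅ : Finset (Fin c))}) := by
  rw [dn_ap]
  exact Submodule.sum_mem _ fun i _ => Submodule.smul_mem _ _
    (Submodule.subset_span (Or.inr ⟨i, Finset.notMem_empty i, rfl⟩))

theorem dn_W {S : Finset (Jx c α β)} {f g : Fin c → α} (h : H.Pk Finset.univ S f g)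
    (y : Fin c → ℚ) (x : Fin n → ℚ) : Fin.append y x ∈ H.W Finset.univ ∅ f g ↔
      x ∈ ⨅ i, LinearMap.ker (dl (H.ex (f i) - H.ex (g i))) := by
  simp only [W, Submodule.mem_inf, Submodule.mem_iInf, LinearMap.mem_ker, LinearMap.sub_apply,
    ell_ap, Finset.mem_univ, Finset.notMem_empty, forall_true_left, IsEmpty.forall_iff,
    implies_true, and_true, dl_apply, sub_dotProduct]
  refine forall_congr' fun i => ?_
  rw [(h.1 i).2, (h.2 i (Finset.mem_univ i)).2.1]
  constructor <;> intro e <;> linarith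

theorem ex_down (hc : Cv cl) {p g : ℕ} (e : Ex cl (H.G Finset.univ ∅ p) (H.J ∅) g) :
    Ex cl (H.FX p) H.I0 g := by
  refine Ex.pull' (ExteriorAlgebra.map (dnIn c n)).toLinearMap hc (FX_mono p) (J_mono ∅)
    (fun S _ _ => ?_) (fun S _ _ x hx => ?_) (fun S _ _ => ?_) (fun S _ _ x _ hx => ?_) e
  · have : H.FX p S ≤ (H.G Finset.univ ∅ p S).comap (ExteriorAlgebra.map (dnIn c n)).toLinearMap :=
      iSup_le fun f => iSup_le fun g => iSup_le fun hp x hx =>
        Submodule.mem_iSup_of_mem f (Submodule.mem_iSup_of_mem g (Submodule.mem_iSup_of_mem hp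
          (Hyp.halg_wedge_map _ (fun u hu => by rw [dn_in]; exact (dn_W hp 0 u).2 hu) p x hx)))
    exact fun x hx => this hx
  · refine Hyp.halg_ideal_map _ (fun u hu => ?_) hx
    refine Submodule.mem_comap.1 (Submodule.span_le.2 ?_ hu)
    rintro _ ⟨j, hj, rfl⟩
    have h0 : H.dh j ∈
        Submodule.span ℚ (H.dh '' cuts S ∪ vv n '' {i | i ∉ (∅ : Finset (Fin c))}) :=
      Submodule.subset_span (Or.inl ⟨j, hj, rfl⟩)
    have h1 := sub_mem h0 (dn_vert (H := H) S (fun i => H.hh i j) (H.dir j))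
    rwa [dh, sub_sub_cancel] at h1
  · refine iSup_le fun f => iSup_le fun g => iSup_le fun hp y hy => ?_
    rw [← add_sub_cancel (ExteriorAlgebra.map (dnIn c n ∘ₗ dnTl c n) y) y]
    refine Submodule.add_mem_sup ⟨ExteriorAlgebra.map (dnTl c n) y, ?_, Hyp.halg_map_map _ _ y⟩
      (dn_mod _ (fun u => ?_) y)
    · exact Submodule.mem_iSup_of_mem f (Submodule.mem_iSup_of_mem g (Submodule.mem_iSup_of_mem hp
        (Hyp.halg_wedge_map _ (fun u hu => (dn_W hp _ _).1 (dn_split u ▸ hu)) p y hy)))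
    · have h1 := dn_vert (H := H) S (fun i => u (Fin.castAdd n i)) (dnTl c n u)
      rwa [← dn_split] at h1
  · have h1 : dnTl c n ∘ₗ dnIn c n = LinearMap.id :=
      LinearMap.ext fun u => by rw [LinearMap.comp_apply, dn_in, dn_tl]; rfl
    have h2 : ExteriorAlgebra.map (dnTl c n) (ExteriorAlgebra.map (dnIn c n) x) = x := by
      rw [Hyp.halg_map_map, h1, ExteriorAlgebra.map_id]
      rfl
    rw [← h2]
    refine Hyp.halg_ideal_map _ (fun u hu => ?_) hx
    refine Submodule.mem_comap.1 (Submodule.span_le.2 ?_ hu)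
    rintro _ (⟨j, hj, rfl⟩ | ⟨i, -, rfl⟩)
    · exact Submodule.subset_span ⟨j, hj, (dn_tl _ _).symm⟩
    · rw [SetLike.mem_coe, Submodule.mem_comap, vv, dn_tl]
      exact zero_mem _

end H5T.Cis
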