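import Pool.Agent.Lib.MP_e9c0f3_ag.CI.Defs
import Pool.Agent.Lib.MP_e9c0f3_ag.HY.HEx

/-! Good data define a complex. -/

open Matrix
open scoped Classical

set_option linter.unusedSectionVars false

noncomputable section

namespace H5T.Cis

variable {n c : ℕ} {α ι : Type} [Fintype α] [Fintype ι] {H : Cis n c α ι}

open Hyp.HExAux (neg_dot sub_dot exposed)

/-- The nonempty cells with at least two monomials of every colour. -/
def exCells (H : Cis n c α ι) : Finset (Set (Pt n)) :=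
  (((Finset.univ : Finset (Finset α × Finset ι)).filter fun t =>
    ∀ i, 2 ≤ (t.1.filter (H.col · = i)).card).image fun t => H.cell t.1 t.2).filter Set.Nonempty

/-- The facets that contain `σ`. -/
def exFac (H : Cis n c α ι) (σ : Set (Pt n)) : Set ι := {j | ∀ x ∈ σ, H.On j x}

/-- The inequalities of a cell. -/
def exCons (H : Cis n c α ι) (τ : Finset α) (J : Finset ι) : Finset ((Fin n → ℚ) × ℝ) :=
  (Finset.univ.image fun j => (-H.nm j, -H.lev j)) ∪ (J.image fun j => (H.nm j, H.lev j)) ∪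
    ((τ ×ˢ Finset.univ).filter fun t : α × α => H.col t.2 = H.col t.1).image
      fun t : α × α => (H.ex t.1 - H.ex t.2, H.co t.2 - H.co t.1)

lemma ex_all_cons {τ : Finset α} {J : Finset ι} {P : (Fin n → ℚ) × ℝ → Prop} :
    (∀ h ∈ exCons H τ J, P h) ↔ (∀ j, P (-H.nm j, -H.lev j)) ∧ (∀ j ∈ J, P (H.nm j, H.lev j)) ∧
      ∀ a ∈ τ, ∀ b, H.col b = H.col a → P (H.ex a - H.ex b, H.co b - H.co a) := by
  constructor
  · intro h
    refine ⟨fun j => h _ ?_, fun j hj => h _ ?_, fun a ha b hb => h _ ?_⟩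
    · exact Finset.mem_union_left _ (Finset.mem_union_left _
        (Finset.mem_image.2 ⟨j, Finset.mem_univ _, rfl⟩))
    · exact Finset.mem_union_left _ (Finset.mem_union_right _ (Finset.mem_image.2 ⟨j, hj, rfl⟩))
    · exact Finset.mem_union_right _ (Finset.mem_image.2
        ⟨(a, b), Finset.mem_filter.2 ⟨Finset.mem_product.2 ⟨ha, Finset.mem_univ _⟩, hb⟩, rfl⟩)
  · rintro ⟨h1, h2, h3⟩ h hh
    rcases Finset.mem_union.1 hh with hh | hh
    · rcases Finset.mem_union.1 hh with hh | hh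
      · obtain ⟨j, -, rfl⟩ := Finset.mem_image.1 hh
        exact h1 j
      · obtain ⟨j, hj, rfl⟩ := Finset.mem_image.1 hh
        exact h2 j hj
    · obtain ⟨t, ht, rfl⟩ := Finset.mem_image.1 hh
      exact h3 t.1 (Finset.mem_product.1 (Finset.mem_filter.1 ht).1).1 t.2
        (Finset.mem_filter.1 ht).2

lemma ex_mem_cell {τ : Finset α} {J : Finset ι} {x : Pt n} :
    x ∈ H.cell τ J ↔ ∀ h ∈ exCons H τ J, h.2 ≤ rv h.1 ⬝ᵥ x := by
  rw [ex_all_cons]
  simp only [neg_dot, sub_dot]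
  constructor
  · rintro ⟨h1, h2, h3⟩
    refine ⟨fun j => ?_, fun j hj => (h3 j hj).ge, fun a ha b hb => ?_⟩
    · have := h1 j
      linarith
    · have := h2 a ha b hb
      linarith
  · rintro ⟨h1, h2, h3⟩
    have h4 : x ∈ H.box := fun j => by
      have := h1 j
      linarith
    refine ⟨h4, fun a ha b hb => ?_, fun j hj => le_antisymm (h4 j) (h2 j hj)⟩
    have := h3 a ha b hb
    linarith

lemma ex_convex (τ : Finset α) (J : Finset ι) : Convex ℝ (H.cell τ J) := by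
  intro x hx y hy a b ha hb hs
  rw [ex_mem_cell] at hx hy ⊢
  intro h hh
  rw [dotProduct_add, dotProduct_smul, dotProduct_smul, smul_eq_mul, smul_eq_mul]
  have h4 := mul_le_mul_of_nonneg_left (hx h hh) ha
  have h5 := mul_le_mul_of_nonneg_left (hy h hh) hb
  have h6 : h.2 = a * h.2 + b * h.2 := by rw [← add_mul, hs, one_mul]
  linarith

lemma ex_top_eq {a b : α} {x : Pt n} (hc : H.col b = H.col a) (ha : H.Top a x) (hb : H.Top b x) :
    rv (H.ex a) ⬝ᵥ x + H.co a = rv (H.ex b) ⬝ᵥ x + H.co b :=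
  le_antisymm (hb a hc.symm) (ha b hc)

lemma ex_top_of_eq {a b : α} {x : Pt n} (hc : H.col b = H.col a) (ha : H.Top a x)
    (h : rv (H.ex a) ⬝ᵥ x + H.co a = rv (H.ex b) ⬝ᵥ x + H.co b) : H.Top b x :=
  fun d hd => (ha d (hd.trans hc)).trans h.le

/-- A facet through a relatively interior point contains the whole set. -/
lemma ex_on_all {s : Set (Pt n)} (hs : s ⊆ H.box) {p : Pt n} (hp : p ∈ intrinsicInterior ℝ s)
    {j : ι} (hj : H.On j p) : ∀ x ∈ s, H.On j x :=
  Hyp.HExAux.on_all (H := (⟨H.ex, H.co, H.nm, H.lev, H.dir⟩ : Hyp n α ι)) hs hp hj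

/-- The directions of the facets through a point are detected by the normals. -/
lemma ex_key (h : H.Good) {x : Pt n} (hx : x ∈ H.box) {g : ι → ℚ}
    (hg : ∀ i, ¬ H.On i x → g i = 0)
    (h0 : ∀ l, H.On l x → H.nm l ⬝ᵥ ∑ i, g i • H.dir i = 0) : g = 0 := by
  have hs : ∀ g : ι → ℚ, (∀ i, ¬ H.On i x → g i = 0) → ∀ l, H.nm l ⬝ᵥ ∑ i, g i • H.dir i =
      ∑ i : {j // H.On j x}, (H.nm l ⬝ᵥ H.dir i) * g i := by
    intro g hg l
    rw [← Finset.sum_subtype (Finset.univ.filter fun j => H.On j x) (by simp)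
      fun i => (H.nm l ⬝ᵥ H.dir i) * g i, Finset.sum_filter, dotProduct_sum]
    refine Finset.sum_congr rfl fun i _ => ?_
    rw [dotProduct_smul, smul_eq_mul]
    split_ifs with c
    · exact mul_comm _ _
    · rw [hg i c, zero_mul]
  choose μ _ h1 h2 h3 using fun j : {j // H.On j x} => h.cut x hx j.1 j.2
  let A : Matrix {j // H.On j x} {j // H.On j x} ℚ := Matrix.of fun l i => H.nm l ⬝ᵥ H.dir i
  let M : Matrix {j // H.On j x} {j // H.On j x} ℚ := Matrix.of fun i j => μ j i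
  have hAM : A * M = 1 := by
    ext l j
    rw [Matrix.mul_apply]
    change ∑ i : {j // H.On j x}, (H.nm l ⬝ᵥ H.dir i) * μ j i = _
    rw [← hs (μ j) (h1 j) l]
    by_cases c : l = j
    · rw [c, h2 j, Matrix.one_apply_eq]
    · rw [h3 j l l.2 fun e => c (Subtype.ext e), Matrix.one_apply_ne c]
  have hMA : M * A = 1 := mul_eq_one_comm.1 hAM
  have hA : A *ᵥ (fun i : {j // H.On j x} => g i) = 0 := by
    ext l
    change ∑ i : {j // H.On j x}, (H.nm l ⬝ᵥ H.dir i) * g i = 0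
    rw [← hs g hg l, h0 l l.2]
  have hz : (fun i : {j // H.On j x} => g i) = 0 := by
    rw [← Matrix.one_mulVec fun i : {j // H.On j x} => g i, ← hMA, ← Matrix.mulVec_mulVec, hA,
      Matrix.mulVec_zero]
  ext i
  by_cases c : H.On i x
  · exact congrFun hz ⟨i, c⟩
  · exact hg i c

lemma ex_comb (l : ι →₀ ℚ) : Finsupp.linearCombination ℚ H.dir l = ∑ i, l i • H.dir i := by
  rw [Finsupp.linearCombination_apply]
  exact Finsupp.sum_fintype l (fun i a => a • H.dir i) fun i => zero_smul ℚ _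

lemma ex_mem_cells {σ : Set (Pt n)} : σ ∈ H.exCells ↔ σ.Nonempty ∧
    ∃ τ J, (∀ i, 2 ≤ (τ.filter (H.col · = i)).card) ∧ σ = H.cell τ J := by
  rw [exCells, Finset.mem_filter, Finset.mem_image, and_comm]
  refine and_congr_right fun _ => ⟨?_, ?_⟩
  · rintro ⟨t, ht, rfl⟩
    exact ⟨t.1, t.2, (Finset.mem_filter.1 ht).2, rfl⟩
  · rintro ⟨τ, J, h, rfl⟩
    exact ⟨(τ, J), Finset.mem_filter.2 ⟨Finset.mem_univ _, h⟩, rfl⟩

/-- A monomial of each colour. -/
lemma ex_pick {τ : Finset α} (h2 : ∀ i, 2 ≤ (τ.filter (H.col · = i)).card) :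
    ∃ f : α → α, ∀ b, f b ∈ τ ∧ H.col b = H.col (f b) := by
  have h : ∀ b : α, ∃ a, a ∈ τ ∧ H.col b = H.col a := fun b => by
    obtain ⟨a, ha⟩ : (τ.filter (H.col · = H.col b)).Nonempty :=
      Finset.card_pos.1 (lt_of_lt_of_le two_pos (h2 _))
    exact ⟨a, (Finset.mem_filter.1 ha).1, (Finset.mem_filter.1 ha).2.symm⟩
  choose f hf using h
  exact ⟨f, hf⟩

lemma ex_poly : ∀ σ ∈ H.exCells,
    ∃ S : Finset ((Fin n → ℚ) × ℝ), σ = {x | ∀ h ∈ S, h.2 ≤ rv h.1 ⬝ᵥ x} := by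
  intro σ hσ
  obtain ⟨-, τ, J, -, rfl⟩ := ex_mem_cells.1 hσ
  exact ⟨exCons H τ J, Set.ext fun _ => ex_mem_cell⟩

lemma ex_face : ∀ σ ∈ H.exCells, ∀ ρ, IsExposed ℝ σ ρ → ρ.Nonempty → ρ ∈ H.exCells := by
  intro σ hσ ρ hE hne
  obtain ⟨-, τ, J, h2, rfl⟩ := ex_mem_cells.1 hσ
  obtain ⟨p, hp⟩ := hne.intrinsicInterior (hE.convex (ex_convex τ J))
  have hsub : ρ ⊆ H.cell τ J := hE.subset
  have hpρ : p ∈ ρ := intrinsicInterior_subset hp
  have hpσ := hsub hpρ
  obtain ⟨f, hf⟩ := ex_pick h2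
  have hτ : τ ⊆ Finset.univ.filter fun a => H.Top a p := fun a ha =>
    Finset.mem_filter.2 ⟨Finset.mem_univ _, hpσ.2.1 a ha⟩
  refine ex_mem_cells.2 ⟨hne, Finset.univ.filter fun a => H.Top a p,
    Finset.univ.filter fun j => H.On j p,
    fun i => (h2 i).trans (Finset.card_le_card (Finset.filter_subset_filter _ hτ)), ?_⟩
  ext x
  constructor
  · intro hx
    refine ⟨(hsub hx).1, fun a ha => ?_, fun j hj =>
      ex_on_all (fun y hy => (hsub hy).1) hp (Finset.mem_filter.1 hj).2 x hx⟩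
    obtain ⟨ha0, hc⟩ := hf a
    have h3 := G33.tight hp (u := rv (H.ex (f a) - H.ex a)) (c := H.co a - H.co (f a))
      (fun y hy => by
        have := (hsub hy).2.1 (f a) ha0 a hc
        rw [sub_dot]
        linarith)
      (by
        have := ex_top_eq hc (hpσ.2.1 (f a) ha0) (Finset.mem_filter.1 ha).2
        rw [sub_dot]
        linarith) x hx
    rw [sub_dot] at h3
    exact ex_top_of_eq hc ((hsub hx).2.1 (f a) ha0) (by linarith)
  · rintro ⟨h3, h4, h5⟩
    have h4' : ∀ a, H.Top a p → H.Top a x := fun a ha =>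
      h4 a (Finset.mem_filter.2 ⟨Finset.mem_univ _, ha⟩)
    have h5' : ∀ j, H.On j p → H.On j x := fun j hj =>
      h5 j (Finset.mem_filter.2 ⟨Finset.mem_univ _, hj⟩)
    have hxσ : x ∈ H.cell τ J :=
      ⟨h3, fun a ha => h4' a (hpσ.2.1 a ha), fun j hj => h5' j (hpσ.2.2 j hj)⟩
    obtain ⟨l, hl⟩ := hE hne
    have hpl : ∀ y ∈ H.cell τ J, l y ≤ l p := by
      rw [hl] at hpρ
      exact hpρ.2
    obtain ⟨e, he, h6⟩ := G33.slack (exCons H τ J) (w := p - x) (ex_mem_cell.1 hpσ) (by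
      rw [ex_all_cons]
      simp only [neg_dot, sub_dot, dotProduct_sub]
      refine ⟨fun j hj => ?_, fun j _ hj => ?_, fun a ha b hc hb => ?_⟩
      · have h7 : H.On j p := neg_injective hj
        have h8 : rv (H.nm j) ⬝ᵥ x = H.lev j := h5' j h7
        linarith
      · have h8 : rv (H.nm j) ⬝ᵥ x = H.lev j := h5' j hj
        linarith
      · have h7 := hpσ.2.1 a ha
        have h8 := ex_top_eq hc (h4' a h7) (h4' b (ex_top_of_eq hc h7 (by linarith)))
        linarith)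
    have h7 := hpl _ (ex_mem_cell.2 h6)
    rw [map_add, map_smul, map_sub, smul_eq_mul] at h7
    have h8 : l p ≤ l x := by nlinarith
    rw [hl]
    exact ⟨hxσ, fun y hy => (hpl y hy).trans h8⟩

lemma ex_inter : ∀ σ ∈ H.exCells, ∀ ρ ∈ H.exCells, IsExposed ℝ σ (σ ∩ ρ) := by
  intro σ hσ ρ hρ
  obtain ⟨-, τ, J, h2, rfl⟩ := ex_mem_cells.1 hσ
  obtain ⟨-, τ', J', -, rfl⟩ := ex_mem_cells.1 hρ
  obtain ⟨f, hf⟩ := ex_pick h2
  have h1 := exposed (H.cell τ J) (τ'.disjSum J')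
    (Sum.elim (fun b => rv (H.ex b - H.ex (f b))) fun j => rv (H.nm j))
    (Sum.elim (fun b => H.co (f b) - H.co b) H.lev) (by
      rintro (b | j) - y hy
      · have := hy.2.1 (f b) (hf b).1 b (hf b).2
        simp only [Sum.elim_inl, sub_dot]
        linarith
      · exact hy.1 j)
  convert h1 using 1
  ext x
  refine and_congr_right fun hx => ⟨fun h3 => ?_, fun h3 => ⟨hx.1, fun b hb => ?_, fun j hj => ?_⟩⟩
  · rintro (b | j) hk
    · have := ex_top_eq (hf b).2 (hx.2.1 (f b) (hf b).1) (h3.2.1 b (Finset.inl_mem_disjSum.1 hk))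
      simp only [Sum.elim_inl, sub_dot]
      linarith
    · exact h3.2.2 j (Finset.inr_mem_disjSum.1 hk)
  · have h4 := h3 (.inl b) (Finset.inl_mem_disjSum.2 hb)
    simp only [Sum.elim_inl, sub_dot] at h4
    exact ex_top_of_eq (hf b).2 (hx.2.1 (f b) (hf b).1) (by linarith)
  · exact h3 (.inr j) (Finset.inr_mem_disjSum.2 hj)

lemma ex_pt : ∀ σ ∈ H.exCells, (intrinsicInterior ℝ σ).Nonempty := by
  intro σ hσ
  obtain ⟨hne, τ, J, -, rfl⟩ := ex_mem_cells.1 hσ
  exact hne.intrinsicInterior (ex_convex τ J)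

lemma ex_fac_indep (h : H.Good) : ∀ σ ∈ H.exCells, LinearIndepOn ℚ H.dir (H.exFac σ) := by
  intro σ hσ
  obtain ⟨⟨x, hx⟩, τ, J, -, rfl⟩ := ex_mem_cells.1 hσ
  rw [linearIndepOn_iff]
  intro l hl h0
  rw [ex_comb] at h0
  have h1 := ex_key h hx.1 (g := l)
    (fun i hi => (Finsupp.mem_supported' ℚ l).1 hl i fun hc => hi (hc x hx))
    fun j _ => by rw [h0, dotProduct_zero]
  ext i
  exact congrFun h1 i

lemma ex_fac_disj (h : H.Good) : ∀ σ ∈ H.exCells,
    Disjoint (Submodule.span ℚ (H.dir '' H.exFac σ)) (tang σ) := by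
  intro σ hσ
  obtain ⟨x, hx⟩ := ex_pt σ hσ
  obtain ⟨-, τ, J, -, rfl⟩ := ex_mem_cells.1 hσ
  have hxσ : x ∈ H.cell τ J := intrinsicInterior_subset hx
  rw [Submodule.disjoint_def]
  intro v hv hv'
  obtain ⟨l, hl, rfl⟩ := (Finsupp.mem_span_image_iff_linearCombination ℚ).1 hv
  rw [ex_comb] at hv' ⊢
  have h1 := ex_key h hxσ.1 (g := l)
    (fun i hi => (Finsupp.mem_supported' ℚ l).1 hl i fun hc => hi (hc x hxσ))
    fun j hj => by
      have h2 := G33.kill (ex_on_all (fun y hy => hy.1) hx hj) _ hv'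
      rw [G33.rv_dot] at h2
      exact_mod_cast h2
  rw [h1]
  simp

theorem Good.exists_cx (h : H.Good) : ∃ X : TropCx n, H.Is X := by
  choose! pt hpt using ex_pt (H := H)
  have hr : ∀ σ, (((Finset.univ.filter (· ∈ H.exFac σ)).image H.dir : Finset (Fin n → ℚ)) :
      Set (Fin n → ℚ)) = H.dir '' H.exFac σ := fun σ => by
    rw [Finset.coe_image]
    congr 1
    ext j
    simp
  refine ⟨⟨H.exCells, pt, fun σ => (Finset.univ.filter (· ∈ H.exFac σ)).image H.dir, ex_poly,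
    ex_face, ex_inter, hpt, fun σ _ ρ _ hρ => ?_, fun σ hσ => ?_, fun σ hσ => ?_⟩,
    fun σ => ex_mem_cells, fun σ _ => hr σ⟩
  · exact Finset.image_subset_image fun j hj => Finset.mem_filter.2
      ⟨Finset.mem_univ _, fun x hx => (Finset.mem_filter.1 hj).2 x (hρ hx)⟩
  · rw [hr]
    exact (ex_fac_indep h σ hσ).id_image
  · rw [hr]
    exact ex_fac_disj h σ hσ

end H5T.Cis
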