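import Pool.Agent.Lib.MP_e9c0f3_ag.CI.Main
import Pool.Agent.Lib.MP_e9c0f3_ag.CI.Ex
import Pool.Agent.Lib.MP_e9c0f3_ag.CI.BlkA
import Pool.Agent.Lib.MP_e9c0f3_ag.CI.BlkB
import Pool.Agent.Lib.MP_e9c0f3_ag.H5T.Van
import Pool.Agent.Lib.MP_e9c0f3_ag.H5T.Main

/-! Complete intersections in products of tropical projective spaces. -/

open Matrix
open scoped Classical

noncomputable section

namespace H5T

namespace Cis

variable {n c : ℕ} {α : Type}

/-- Coefficients that are independent over the rationals give a triangulation. -/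
theorem tri_of_indep {ι : Type} (H : Cis n c α ι) (h : LinearIndependent ℚ H.co) (x : Pt n) :
    LinearIndependent ℚ fun a : {a // H.Top a x} =>
      ((Pi.single (H.col a) 1 : Fin c → ℚ), H.ex a) := by
  rw [linearIndependent_iff']
  intro s w hw
  refine linearIndependent_iff'.1 (h.comp _ Subtype.val_injective) s w ?_
  obtain ⟨M, hM⟩ : ∃ M : Fin c → ℝ, ∀ a : {a // H.Top a x},
      H.co a = M (H.col a) - rv (H.ex a) ⬝ᵥ x := by
    refine ⟨fun i => if h : ∃ b : {a // H.Top a x}, H.col b = i then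
      rv (H.ex h.choose) ⬝ᵥ x + H.co h.choose else 0, fun a => ?_⟩
    have hx : ∃ b : {a // H.Top a x}, H.col b = H.col a := ⟨a, rfl⟩
    simp only [dif_pos hx]
    linarith [a.2 _ hx.choose_spec, hx.choose.2 _ hx.choose_spec.symm]
  have h0 := congrArg Prod.fst hw
  have h1 := congrArg Prod.snd hw
  simp only [Prod.fst_sum, Prod.snd_sum, Prod.smul_fst, Prod.smul_snd, Prod.fst_zero,
    Prod.snd_zero] at h0 h1
  have e0 := congrArg (fun v => rv v ⬝ᵥ M) h0
  have e1 := congrArg (fun v => rv v ⬝ᵥ x) h1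
  simp only [map_sum, map_smul, sum_dotProduct, smul_dotProduct, map_zero, zero_dotProduct]
    at e0 e1
  have e2 : ∀ i : Fin c, rv (Pi.single i (1 : ℚ)) ⬝ᵥ M = M i := fun i => by
    simp [dotProduct, G33.rv_apply, Pi.single_apply, apply_ite]
  simp only [e2] at e0
  refine (Finset.sum_congr rfl fun a _ => congrArg (w a • ·) (hM a)).trans ?_
  simp only [smul_sub, Finset.sum_sub_distrib, e0, e1, sub_zero]

end Cis

variable {n m s c : ℕ} {b : Fin n → Fin m} {col : Fin s → Fin c} {ex : Fin s → Fin n → ℚ}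
  {co : Fin s → ℝ} {R : ℝ} {X : TropCx n}

theorem ci_cell (σ : Set (Pt n)) :
    (∃ (τ : Set (Fin s)) (J : Set (Fin m ⊕ Fin n)), (∀ i, (τ ∩ col ⁻¹' {i}).Nontrivial) ∧
      σ = {x | τ ⊆ tops col ex co x ∧ (∀ i, rv (fan b i) ⬝ᵥ x ≤ R) ∧
        ∀ j ∈ J, rv (fan b j) ⬝ᵥ x = R}) ↔
    ∃ τ J, (∀ i, 2 ≤ (τ.filter ((Cis.blk b col ex co R).col · = i)).card) ∧
      σ = (Cis.blk b col ex co R).cell τ J := by
  have e : ∀ (τ : Finset (Fin s)) i, 2 ≤ (τ.filter ((Cis.blk b col ex co R).col · = i)).card ↔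
      ((τ : Set (Fin s)) ∩ col ⁻¹' {i}).Nontrivial := fun τ i => by
    rw [Nat.succ_le_iff, Finset.one_lt_card_iff_nontrivial, Finset.Nontrivial, Finset.coe_filter]
    rfl
  constructor
  · rintro ⟨τ, J, hτ, rfl⟩
    refine ⟨τ.toFinset, J.toFinset, fun i => (e _ i).2 (by simpa using hτ i), ?_⟩
    ext x
    simp only [Cis.cell, Set.mem_toFinset, Set.mem_setOf_eq]
    exact ⟨fun h => ⟨h.2.1, h.1, h.2.2⟩, fun h => ⟨h.2.1, h.1, h.2.2⟩⟩
  · rintro ⟨τ, J, hτ, rfl⟩
    refine ⟨τ, J, fun i => (e _ i).1 (hτ i), ?_⟩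
    ext x
    exact ⟨fun h => ⟨h.2.1, h.1, h.2.2⟩, fun h => ⟨h.2.1, h.1, h.2.2⟩⟩

theorem TropCx.IsCI.general (h : X.IsCI b col ex co R) :
    (Cis.blk b col ex co R).Good ∧ (Cis.blk b col ex co R).Is X := by
  obtain ⟨hR, ht, hf, hc, hr⟩ := h
  exact ⟨⟨Cis.blk_bdd b col ex co R, fun x _ => ht x, fun x hx j a hj ha => hf x j hx hj a ha,
    fun x _ j hj => Cis.blk_cut b col ex co hR x j hj⟩, fun σ => by rw [hc, ci_cell], hr⟩

theorem TropCx.IsCI.locVan (h : X.IsCI b col ex co R) : X.LocVan :=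
  h.general.1.locVan h.general.2

theorem TropCx.IsCI.van (h : X.IsCI b col ex co R) {k : ℕ} (hk : n ≤ 2 * k + c)
    (hB : ∀ B : Finset (Fin c), B.Nonempty →
      b '' used col ex B = Set.univ ∨ (used col ex B).ncard ≤ B.card + 2) : X.Van k := by
  intro p q hp hq
  by_cases hs : Function.Surjective col
  swap
  · intro z hz
    rw [Cis.cm_zero h.general.2 hs hz.1]
    exact Submodule.zero_mem _
  refine h.general.1.van h.general.2 (by omega) fun B hne => (hB B hne).imp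
    (fun e => ⟨Cis.blk_inn b col ex co R hs e, by omega⟩)
    fun e => ⟨_, h.general.1.few_used B, ?_⟩
  change B.card + (used col ex B).ncard + q < p + 2 * B.card
  omega

/-- The theorem when the obstruction groups vanish. -/
theorem tropical_hodge_van {k : ℕ} (X : TropCx n) (hV : X.LocVan) (hL : X.Van k)
    (u : List (Set (Pt n)) →₀ Mv n) (hu : u ∈ X.Cyc k k)
    (hw : X.wave u ∈ (X.C X.Flag (re (X.F (k + 1))) k).map bd ⊔ X.Z X.Flag (re X.I)) :
    ∃ c ∈ X.C Inside (X.F k) k ⊓ Straight k, bd c ∈ X.Z Inside X.I ∧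
      u.mapDomain (List.map X.pt) - c ∈ X.B Inside k k := by
  obtain ⟨c⟩ := exists_col X
  obtain ⟨v, hv, hbv, hKv⟩ := c.lift_van (Or.inl hL) hu hw
  exact c.of_lift hV hu hv hbv hKv

/-- Tropical polynomials whose Newton polytopes are products of simplices and whose Cayley
subdivision is a triangulation give a complete intersection. -/
theorem exists_isCI (b : Fin n → Fin m) (col : Fin s → Fin c) (ex : Fin s → Fin n → ℚ)
    (co : Fin s → ℝ) (δ : Fin c → Fin m → ℚ) (h0 : ∀ a k, 0 ≤ ex a k)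
    (h1 : ∀ a t, ex a ⬝ᵥ fan b (.inl t) ≤ δ (col a) t)
    (v : ∀ (i : Fin c) (κ : Fin m → Option (Fin n)), ∃ a, col a = i ∧
      ex a = fun k => if κ (b k) = some k then δ i (b k) else 0)
    (ht : ∀ x, LinearIndependent ℚ fun a : tops col ex co x =>
      ((Pi.single (col a) 1 : Fin c → ℚ), ex a)) :
    ∃ (R : ℝ) (X : TropCx n), X.IsCI b col ex co R := by
  obtain ⟨R, hf, hR⟩ := ((Cis.blk_face b col ex co δ h0 h1 v).and
    (Filter.eventually_gt_atTop 0)).exists
  have hG : (Cis.blk b col ex co R).Good := ⟨Cis.blk_bdd b col ex co R, fun x _ => ht x, hf,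
    fun x _ j hj => Cis.blk_cut b col ex co hR x j hj⟩
  obtain ⟨X, hX⟩ := hG.exists_cx
  exact ⟨R, X, hR, ht, fun x j hx hj a ha => hf x hx j a hj ha,
    fun σ => by rw [hX.1, ci_cell], hX.2⟩

theorem tops_indep (h : LinearIndependent ℚ co) (x : Pt n) :
    LinearIndependent ℚ fun a : tops col ex co x => ((Pi.single (col a) 1 : Fin c → ℚ), ex a) :=
  Cis.tri_of_indep (Cis.blk (fun i => i) col ex co 0) h x

end H5T
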