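import Pool.Agent.Lib.MP_e9c0f3_ag.CI.Defs
import Pool.Agent.Lib.MP_e9c0f3_ag.HY.Frame

/-! The epigraph polytope of several tropical polynomials and its coefficient systems. -/

open Matrix ExteriorAlgebra
open scoped Classical

noncomputable section

namespace H5T

/-- Constraints of the epigraph polytope: lids, monomials and facets. -/
abbrev Jx (c : ℕ) (α β : Type) := Fin c ⊕ α ⊕ β

theorem ap_dot {R : Type} [CommRing R] {c n : ℕ} (y y' : Fin c → R) (x x' : Fin n → R) :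
    Fin.append y x ⬝ᵥ Fin.append y' x' = y ⬝ᵥ y' + x ⬝ᵥ x' := by
  simp [dotProduct, Fin.sum_univ_add]

namespace Cis

variable {n c : ℕ} {α β : Type}

/-- The constraint of a monomial. -/
abbrev mo (a : α) : Jx c α β := .inr (.inl a)

/-- The constraint of a facet. -/
abbrev cu (j : β) : Jx c α β := .inr (.inr j)

/-- The facets in `S`. -/
def cuts (S : Finset (Jx c α β)) : Set β := {j | cu j ∈ S}

/-- The vertical vectors. -/
def vv (n : ℕ) (i : Fin c) : Fin (c + n) → ℚ := Fin.append (Pi.single i 1) 0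

variable (H : Cis n c α β)

/-- Covectors of the constraints. -/
def lam : Jx c α β → Fin (c + n) → ℚ
  | .inl i => Fin.append (-Pi.single i 1) 0
  | .inr (.inl a) => Fin.append (Pi.single (H.col a) 1) (-H.ex a)
  | .inr (.inr j) => Fin.append 0 (-H.nm j)

/-- The linear form of a monomial. -/
def ell (a : α) : Module.Dual ℚ (Fin (c + n) → ℚ) := dl (H.lam (mo a))

/-- The support function of the Newton polytope of colour `i` at `dir j`. -/
def hh (i : Fin c) (j : β) : ℚ :=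
  if h : ∃ a, H.col a = i ∧ ∀ b, H.col b = i → H.ex b ⬝ᵥ H.dir j ≤ H.ex a ⬝ᵥ H.dir j then
    H.ex h.choose ⬝ᵥ H.dir j else 0

/-- The lift of `dir j`. -/
def dh (j : β) : Fin (c + n) → ℚ := Fin.append (fun i => H.hh i j) (H.dir j)

/-- One monomial of each colour, and a second one for the colours in `A`. -/
def Pk (A : Finset (Fin c)) (S : Finset (Jx c α β)) (f g : Fin c → α) : Prop :=
  (∀ i, mo (f i) ∈ S ∧ H.col (f i) = i) ∧ ∀ i ∈ A, mo (g i) ∈ S ∧ H.col (g i) = i ∧ g i ≠ f i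

/-- Tangent spaces: corner locus for the colours in `A`, graph for the colours in `B`. -/
def W (A B : Finset (Fin c)) (f g : Fin c → α) : Submodule ℚ (Fin (c + n) → ℚ) :=
  (⨅ i ∈ A, LinearMap.ker (H.ell (f i) - H.ell (g i))) ⊓ ⨅ i ∈ B, LinearMap.ker (H.ell (f i))

/-- The mixed multi-tangent spaces. -/
def G (A B : Finset (Fin c)) (r : ℕ) (S : Finset (Jx c α β)) : Submodule ℚ (Mv (c + n)) :=
  ⨆ f, ⨆ g, ⨆ _ : H.Pk A S f g, wedge (H.W A B f g) r

/-- The ideal of the lifted directions and of the vertical vectors outside `B`. -/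
def J (B : Finset (Fin c)) (S : Finset (Jx c α β)) : Submodule ℚ (Mv (c + n)) :=
  (Submodule.span ℚ (H.dh '' cuts S ∪ vv n '' {i | i ∉ B})).map (ι ℚ) * ⊤

/-- Multi-tangent spaces of the complete intersection. -/
def FX (p : ℕ) (S : Finset (Jx c α β)) : Submodule ℚ (Mv n) :=
  ⨆ f, ⨆ g, ⨆ _ : H.Pk Finset.univ S f g,
    wedge (⨅ i, LinearMap.ker (dl (H.ex (f i) - H.ex (g i)))) p

/-- The sedentarity ideal. -/
def I0 (S : Finset (Jx c α β)) : Submodule ℚ (Mv n) :=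
  (Submodule.span ℚ (H.dir '' cuts S)).map (ι ℚ) * ⊤

/-- What is used of the nerve `K` of the epigraph polytope. -/
structure Fm (K : Finset (Jx c α β) → Prop) : Prop where
  down : ∀ S S', S ⊆ S' → K S' → K S
  sep : ∀ S, K S → ∀ a, mo a ∈ S → .inl (H.col a) ∉ S
  indep : ∀ S, K S → LinearIndepOn ℚ H.lam (S : Set (Jx c α β))
  face : ∀ S, K S → ∀ a, mo a ∈ S → ∀ j ∈ cuts S, H.ex a ⬝ᵥ H.dir j = H.hh (H.col a) j
  dirs : ∀ S, K S → LinearIndepOn ℚ H.dir (cuts S)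
  exact : ∀ S, K S → (∀ i, ∃ a, mo a ∈ S ∧ H.col a = i) → ∃ x ∈ H.box,
    (∀ a, H.Top a x ↔ mo a ∈ S) ∧ ∀ j, H.On j x ↔ j ∈ cuts S
  pt : ∀ S, K S → ∃ x ∈ H.box, (∀ a, mo a ∈ S → H.Top a x) ∧ ∀ j ∈ cuts S, H.On j x
  of_pt : ∀ x ∈ H.box, ∀ S, (∀ i, .inl i ∉ S) → (∀ a, mo a ∈ S → H.Top a x) →
    (∀ j ∈ cuts S, H.On j x) → K S

/-- A shelling adapted to the set `B` of colours. -/
structure Sh (K : Finset (Jx c α β) → Prop) (B : Finset (Fin c))
    (vx up : Finset (Jx c α β) → Finset (Jx c α β)) (rk : Finset (Jx c α β) → ℝ) : Prop where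
  shell : HY.Shell K vx up rk
  card : ∀ S, K S → (vx S).card = c + n
  mon_up : ∀ S, K S → ∀ i ∈ B, .inl i ∉ vx S → ∃ a, H.col a = i ∧ mo a ∈ up (vx S)
  cut_up : H.Inn B → ∀ S, K S → (∀ i, .inl i ∉ vx S) → ∀ j, cu j ∉ up (vx S)
  gen : ∀ S, K S → ∀ i ∉ B, ∀ a b, mo a ∈ vx S → mo b ∈ vx S → H.col a = i → H.col b = i →
    a ≠ b → (∃ d, H.col d = i ∧ mo d ∈ up (vx S)) ∧
      ∃ d, H.col d = i ∧ mo d ∈ vx S ∧ mo d ∉ up (vx S)

variable {H}

theorem Pk.mono {A : Finset (Fin c)} {S S' : Finset (Jx c α β)} {f g : Fin c → α}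
    (h : H.Pk A S f g) (hS : S ⊆ S') : H.Pk A S' f g :=
  ⟨fun i => ⟨hS (h.1 i).1, (h.1 i).2⟩, fun i hi => ⟨hS (h.2 i hi).1, (h.2 i hi).2⟩⟩

theorem G_mono (A B : Finset (Fin c)) (r : ℕ) : Monotone (H.G A B r) := fun _ _ h =>
  iSup_le fun f => iSup_le fun g => iSup_le fun hp =>
    le_iSup_of_le f (le_iSup_of_le g (le_iSup_of_le (hp.mono h) le_rfl))

theorem FX_mono (p : ℕ) : Monotone (H.FX p) := fun _ _ h =>
  iSup_le fun f => iSup_le fun g => iSup_le fun hp =>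
    le_iSup_of_le f (le_iSup_of_le g (le_iSup_of_le (hp.mono h) le_rfl))

theorem J_mono (B : Finset (Fin c)) : Monotone (H.J B) := fun _ _ h =>
  mul_le_mul' (Submodule.map_mono (Submodule.span_mono
    (Set.union_subset_union_left _ (Set.image_mono fun _ hx => h hx)))) le_rfl

theorem I0_mono : Monotone H.I0 := fun _ _ h =>
  mul_le_mul' (Submodule.map_mono (Submodule.span_mono (Set.image_mono fun _ hx => h hx))) le_rfl

theorem ell_ap (a : α) (y : Fin c → ℚ) (x : Fin n → ℚ) :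
    H.ell a (Fin.append y x) = y (H.col a) - H.ex a ⬝ᵥ x := by
  simp [ell, lam, ap_dot, sub_eq_add_neg]

theorem ell_vv (a : α) (i : Fin c) : H.ell a (vv n i) = if H.col a = i then 1 else 0 := by
  simp [vv, ell_ap, Pi.single_apply]

theorem Fm.ell_dh {K : Finset (Jx c α β) → Prop} (h : H.Fm K) {S : Finset (Jx c α β)} (hS : K S)
    {a : α} (ha : mo a ∈ S) {j : β} (hj : j ∈ cuts S) : H.ell a (H.dh j) = 0 := by
  rw [dh, ell_ap, h.face S hS a ha j hj, sub_self]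

end Cis

end H5T
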