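import Pool.Agent.Lib.MP_e9c0f3_ag.CI.Frame
import Pool.Agent.Lib.MP_e9c0f3_ag.HY.Poly

/-! The epigraph polytope is simple. -/

open Matrix
open scoped Classical

noncomputable section

namespace H5T.Cis

section Aux

variable {n c : ℕ} {α β : Type} {H : Cis n c α β}

/-- The vertical coordinates. -/
def gaH (y : Pt (c + n)) : Pt c := fun i => y (Fin.castAdd n i)

/-- The horizontal coordinates. -/
def gaT (y : Pt (c + n)) : Pt n := fun j => y (Fin.natAdd c j)

lemma ga_H (u : Pt c) (x : Pt n) : gaH (Fin.append u x) = u :=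
  funext fun i => Fin.append_left u x i

lemma ga_T (u : Pt c) (x : Pt n) : gaT (Fin.append u x) = x :=
  funext fun i => Fin.append_right u x i

lemma ga_ap (u : Fin c → ℚ) (w : Fin n → ℚ) (y : Pt (c + n)) :
    rv (Fin.append u w) ⬝ᵥ y = rv u ⬝ᵥ gaH y + rv w ⬝ᵥ gaT y := by
  simp [dotProduct, Fin.sum_univ_add, rv, gaH, gaT]

lemma ga_single (i : Fin c) (u : Pt c) : rv (Pi.single i 1) ⬝ᵥ u = u i := by
  have e : rv (Pi.single i 1 : Fin c → ℚ) = Pi.single i 1 := by
    ext k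
    by_cases h : k = i <;> simp [rv, h]
  rw [e, single_one_dotProduct]

/-- The constants of the constraints. -/
def gaC (H : Cis n c α β) (t : ℝ) : Jx c α β → ℝ
  | .inl _ => -t
  | .inr (.inl a) => H.co a
  | .inr (.inr j) => -H.lev j

lemma ga_lid (i : Fin c) (y : Pt (c + n)) : rv (H.lam (.inl i)) ⬝ᵥ y = -gaH y i := by
  rw [lam, ga_ap, map_neg, neg_dotProduct, ga_single, map_zero, zero_dotProduct, add_zero]

lemma ga_mon (a : α) (y : Pt (c + n)) :
    rv (H.lam (mo a)) ⬝ᵥ y = gaH y (H.col a) - rv (H.ex a) ⬝ᵥ gaT y := by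
  rw [lam, ga_ap, map_neg, neg_dotProduct, ga_single, sub_eq_add_neg]

lemma ga_cut (j : β) (y : Pt (c + n)) :
    rv (H.lam (cu j)) ⬝ᵥ y = -(rv (H.nm j) ⬝ᵥ gaT y) := by
  rw [lam, ga_ap, map_neg, neg_dotProduct, map_zero, zero_dotProduct, zero_add]

lemma ga_body {t : ℝ} {y : Pt (c + n)} : y ∈ HY.body H.lam (gaC H t) ↔
    (∀ i, gaH y i ≤ t) ∧ (∀ a, rv (H.ex a) ⬝ᵥ gaT y + H.co a ≤ gaH y (H.col a)) ∧
      gaT y ∈ H.box := by
  constructor
  · intro h
    refine ⟨fun i => ?_, fun a => ?_, fun j => ?_⟩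
    · have := h (.inl i)
      rw [ga_lid, gaC] at this; linarith
    · have := h (mo a)
      rw [ga_mon, gaC] at this; linarith
    · have := h (cu j)
      rw [ga_cut, gaC] at this; linarith
  · rintro ⟨h1, h2, h3⟩ (i | a | j)
    · rw [ga_lid, gaC]; linarith [h1 i]
    · rw [ga_mon, gaC]; linarith [h2 a]
    · rw [ga_cut, gaC]; linarith [h3 j]

lemma ga_top {t : ℝ} {y : Pt (c + n)} (hy : y ∈ HY.body H.lam (gaC H t)) {a : α}
    (ha : rv (H.lam (mo a)) ⬝ᵥ y = gaC H t (mo a)) : H.Top a (gaT y) := fun b hb => by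
  rw [ga_mon, gaC] at ha
  have := (ga_body.1 hy).2.1 b
  rw [hb] at this
  linarith

lemma ga_on {t : ℝ} {y : Pt (c + n)} {j : β} :
    rv (H.lam (cu j)) ⬝ᵥ y = gaC H t (cu j) ↔ H.On j (gaT y) := by
  rw [ga_cut, gaC, neg_inj, On]

lemma ga_hh_eq {a : α} {j : β}
    (ha : ∀ b, H.col b = H.col a → H.ex b ⬝ᵥ H.dir j ≤ H.ex a ⬝ᵥ H.dir j) :
    H.ex a ⬝ᵥ H.dir j = H.hh (H.col a) j := by
  have h : ∃ a', H.col a' = H.col a ∧
      ∀ b, H.col b = H.col a → H.ex b ⬝ᵥ H.dir j ≤ H.ex a' ⬝ᵥ H.dir j := ⟨a, rfl, ha⟩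
  rw [hh, dif_pos h]
  exact le_antisymm (h.choose_spec.2 a rfl) (ha _ h.choose_spec.1)

variable [Fintype β]

lemma Good.ga_dirs (h : H.Good) {x : Pt n} (hx : x ∈ H.box) :
    LinearIndepOn ℚ H.dir {j | H.On j x} := by
  choose μ _ h0 h1 h2 using fun j : {j | H.On j x} => h.cut x hx j j.2
  let A : Matrix {j | H.On j x} {j | H.On j x} ℚ := fun l i => H.nm l ⬝ᵥ H.dir i
  let M : Matrix {j | H.On j x} {j | H.On j x} ℚ := fun i j => μ j i
  have hAM : A * M = 1 := by
    ext l j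
    have e : ∑ i, μ j i • H.dir i = ∑ i : {j | H.On j x}, μ j i • H.dir i := by
      rw [← Finset.sum_subtype (p := fun i => i ∈ {j | H.On j x})
        (Finset.univ.filter fun i => H.On i x) (by simp) fun i => μ j i • H.dir i]
      refine (Finset.sum_subset (Finset.filter_subset _ _) fun i _ hi => ?_).symm
      rw [h0 j i (by simpa using hi), zero_smul]
    have e2 : (A * M) l j = H.nm l ⬝ᵥ ∑ i, μ j i • H.dir i := by
      rw [e, dotProduct_sum, Matrix.mul_apply]
      exact Finset.sum_congr rfl fun i _ => by rw [dotProduct_smul, smul_eq_mul, mul_comm]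
    rw [e2]
    by_cases c : l = j
    · rw [c, h1, Matrix.one_apply_eq]
    · rw [Matrix.one_apply_ne c, h2 j l l.2 fun c' => c (Subtype.ext c')]
  have hMA : M * A = 1 := mul_eq_one_comm.1 hAM
  refine Fintype.linearIndependent_iff.2 fun g hg i => ?_
  have e : A *ᵥ g = 0 := by
    ext l
    have := congrArg (H.nm l ⬝ᵥ ·) hg
    simp only [dotProduct_sum, dotProduct_smul, smul_eq_mul, dotProduct_zero] at this
    rw [Pi.zero_apply, ← this]
    exact Finset.sum_congr rfl fun i _ => mul_comm _ _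
  have e2 : g = M *ᵥ (A *ᵥ g) := by rw [Matrix.mulVec_mulVec, hMA, Matrix.one_mulVec]
  rw [e2, e, Matrix.mulVec_zero, Pi.zero_apply]

lemma Good.ga_dot (h : H.Good) {x : Pt n} (hx : x ∈ H.box) {μ : β → ℚ}
    (hμ : ∀ i, ¬ H.On i x → μ i = 0) :
    ∃ u : Fin c → ℚ, ∀ a, H.Top a x → H.ex a ⬝ᵥ ∑ i, μ i • H.dir i = u (H.col a) := by
  refine ⟨fun k => ∑ i, μ i * H.hh k i, fun a ha => ?_⟩
  simp only [dotProduct_sum, dotProduct_smul, smul_eq_mul]
  refine Finset.sum_congr rfl fun i _ => ?_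
  by_cases hi : H.On i x
  · rw [ga_hh_eq (h.face x hx i a hi ha)]
  · rw [hμ i hi, zero_mul, zero_mul]

variable [Fintype α]

lemma Good.ga_bound (h : H.Good) :
    ∃ R : ℝ, ∀ x ∈ H.box, ∀ a, |rv (H.ex a) ⬝ᵥ x + H.co a| ≤ R := by
  have hc : Continuous fun x : Pt n => fun a => rv (H.ex a) ⬝ᵥ x + H.co a := by
    refine continuous_pi fun a => ?_
    exact (continuous_const.dotProduct continuous_id).add continuous_const
  obtain ⟨R, hR⟩ := isBounded_iff_forall_norm_le.1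
    ((h.bdd.isCompact_closure.image hc).isBounded)
  exact ⟨R, fun x hx a => (norm_le_pi_norm (fun a => rv (H.ex a) ⬝ᵥ x + H.co a) a).trans
    (hR _ ⟨x, subset_closure hx, rfl⟩)⟩

lemma Good.ga_indep (h : H.Good) {x : Pt n} (hx : x ∈ H.box) (g : Jx c α β → ℚ)
    (hl : ∀ i, g (.inl i) ≠ 0 → ∀ a, H.col a = i → g (mo a) = 0)
    (hm : ∀ a, ¬ H.Top a x → g (mo a) = 0) (hc : ∀ j, ¬ H.On j x → g (cu j) = 0)
    (e : ∑ s, g s • H.lam s = 0) : ∀ s, g s = 0 := by
  have key : ∀ (u : Fin c → ℚ) (v : Fin n → ℚ), ∑ i, g (.inl i) * (-u i) +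
      (∑ a, g (mo a) * (u (H.col a) - H.ex a ⬝ᵥ v) + ∑ j, g (cu j) * (-(H.nm j ⬝ᵥ v))) = 0 := by
    intro u v
    have e1 := congrArg (· ⬝ᵥ Fin.append u v) e
    simp only [sum_dotProduct, smul_dotProduct, zero_dotProduct, Fintype.sum_sum_type, lam,
      ap_dot, neg_dotProduct, single_one_dotProduct, smul_eq_mul, add_zero, zero_add,
      add_dotProduct] at e1
    simpa only [sub_eq_add_neg] using e1
  have h1 : ∀ i, g (.inl i) = 0 := by
    intro i
    by_contra hne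
    have e1 := key (Pi.single i 1) 0
    rw [Finset.sum_eq_single i, Finset.sum_eq_zero, Finset.sum_eq_zero] at e1
    · simp at e1
      exact hne e1
    · intro j _
      simp
    · intro a _
      by_cases ha : H.col a = i
      · rw [hl i hne a ha, zero_mul]
      · simp [ha]
    · intro k _ hk
      simp [hk]
    · simp
  have h2 : ∀ j, g (cu j) = 0 := by
    intro j
    by_cases hj : H.On j x
    · obtain ⟨μ, -, m1, m2, m3⟩ := h.cut x hx j hj
      obtain ⟨u, hu⟩ := h.ga_dot hx m1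
      have e1 := key u (∑ i, μ i • H.dir i)
      rw [Finset.sum_eq_zero, Finset.sum_eq_zero, Finset.sum_eq_single j, m2] at e1
      · simpa using e1
      · intro l _ hl'
        by_cases h3 : H.On l x
        · rw [m3 l h3 hl', neg_zero, mul_zero]
        · rw [hc l h3, zero_mul]
      · simp
      · intro a _
        by_cases ha : H.Top a x
        · rw [hu a ha, sub_self, mul_zero]
        · rw [hm a ha, zero_mul]
      · intro i _
        rw [h1 i, zero_mul]
    · exact hc j hj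
  have h3 : ∀ (u : Fin c → ℚ) (v : Fin n → ℚ),
      ∑ a : {a // H.Top a x}, g (mo a) * (u (H.col a) - H.ex a ⬝ᵥ v) = 0 := by
    intro u v
    have e1 := key u v
    simp only [h1, h2, zero_mul, Finset.sum_const_zero, zero_add, add_zero] at e1
    rw [← e1, ← Finset.sum_subtype (p := fun a => H.Top a x)
      (Finset.univ.filter fun a => H.Top a x) (by simp)
      fun a => g (mo a) * (u (H.col a) - H.ex a ⬝ᵥ v)]
    refine Finset.sum_subset (Finset.filter_subset _ _) fun a _ ha => ?_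
    rw [hm a (by simpa using ha), zero_mul]
  have h4 := Fintype.linearIndependent_iff.1 (h.tri x hx) (fun a => g (mo a)) (by
    refine Prod.ext (funext fun i => ?_) (funext fun k => ?_)
    · simpa [Prod.fst_sum, Finset.sum_apply, Pi.single_apply, eq_comm] using h3 (Pi.single i 1) 0
    · simpa [Prod.snd_sum, Finset.sum_apply] using h3 0 (Pi.single k 1))
  rintro (i | a | j)
  · exact h1 i
  · by_cases ha : H.Top a x
    · exact h4 ⟨a, ha⟩
    · exact hm a ha
  · exact h2 j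

lemma Good.ga_simple (h : H.Good) (hs : Function.Surjective H.col) {R : ℝ}
    (hR : ∀ x ∈ H.box, ∀ a, |rv (H.ex a) ⬝ᵥ x + H.co a| ≤ R) :
    HY.Simple H.lam (gaC H (R + 1)) := by
  constructor
  · obtain ⟨R', hR'⟩ := isBounded_iff_forall_norm_le.1 h.bdd
    refine isBounded_iff_forall_norm_le.2 ⟨max (R + 1) R', fun y hy => ?_⟩
    obtain ⟨h1, h2, h3⟩ := ga_body.1 hy
    refine (pi_norm_le_iff_of_nonneg ((norm_nonneg _).trans
      ((hR' _ h3).trans (le_max_right _ _)))).2 fun i => ?_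
    refine Fin.addCases (fun i => ?_) (fun i => ?_) i
    · obtain ⟨a, rfl⟩ := hs i
      have h4 := abs_le.1 (hR _ h3 a)
      have h5 : |gaH y (H.col a)| ≤ R + 1 := by
        rw [abs_le]
        constructor <;> linarith [h2 a, h1 (H.col a)]
      exact h5.trans (le_max_left _ _)
    · exact (norm_le_pi_norm (gaT y) i).trans ((hR' _ h3).trans (le_max_right _ _))
  · intro y hy
    obtain ⟨h1, h2, h3⟩ := ga_body.1 hy
    rw [linearIndepOn_iff']
    intro t g ht e s hs'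
    have h4 := h.ga_indep h3 (fun s => if s ∈ t then g s else 0) (fun i hi a ha => ?_)
      (fun a ha => if_neg fun hm => ha (ga_top hy (ht hm)))
      (fun j hj => if_neg fun hm => hj (ga_on.1 (ht hm))) ?_ s
    · simpa [hs'] using h4
    · refine if_neg fun hm => hi (if_neg fun hm' => ?_)
      have e1 : rv (H.lam (mo a)) ⬝ᵥ y = gaC H (R + 1) (mo a) := ht hm
      have e2 : rv (H.lam (.inl i)) ⬝ᵥ y = gaC H (R + 1) (.inl i) := ht hm'
      rw [ga_mon, gaC, ha] at e1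
      rw [ga_lid, gaC] at e2
      linarith [(abs_le.1 (hR _ h3 a)).2]
    · rw [← e]
      refine (Finset.sum_subset (Finset.subset_univ t) fun s _ hs => ?_).symm.trans
        (Finset.sum_congr rfl fun s hs => ?_)
      · rw [if_neg hs, zero_smul]
      · rw [if_pos hs]

end Aux

variable {n c : ℕ} {α β : Type} [Fintype α] [Fintype β] {H : Cis n c α β}

theorem Good.exists_fm (h : H.Good) (hs : Function.Surjective H.col) :
    ∃ cs, HY.Simple H.lam cs ∧ H.Fm (HY.nerve H.lam cs) := by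
  obtain ⟨R, hR⟩ := h.ga_bound
  have hS0 := h.ga_simple hs hR
  refine ⟨_, hS0, ?_, ?_, ?_, ?_, ?_, fun S hS ha => ?_, ?_, fun x hx S hn h1 h2 => ?_⟩
  · rintro S S' hSS ⟨y, hy, hS⟩
    exact ⟨y, hy, fun s hs => hS s (hSS hs)⟩
  · rintro S ⟨y, hy, hS⟩ a ha hn
    have h1 := hS _ hn
    have h2 := hS _ ha
    rw [ga_lid, gaC] at h1
    rw [ga_mon, gaC] at h2
    linarith [(abs_le.1 (hR _ (ga_body.1 hy).2.2 a)).2]
  · rintro S ⟨y, hy, hS⟩
    exact (hS0.indep y hy).mono hS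
  · rintro S ⟨y, hy, hS⟩ a ha j hj
    exact ga_hh_eq (h.face _ (ga_body.1 hy).2.2 j a (ga_on.1 (hS _ hj)) (ga_top hy (hS _ ha)))
  · rintro S ⟨y, hy, hS⟩
    exact (h.ga_dirs (ga_body.1 hy).2.2).mono fun j hj => ga_on.1 (hS _ hj)
  · obtain ⟨y, hy, hS'⟩ := hS0.exists_exact hS
    refine ⟨gaT y, (ga_body.1 hy).2.2, fun a => ⟨fun ht => (hS' _).1 ?_,
      fun ha => ga_top hy ((hS' _).2 ha)⟩, fun j => ga_on.symm.trans (hS' _)⟩
    obtain ⟨a₀, ha₀, hc⟩ := ha (H.col a)
    have h1 := (hS' _).2 ha₀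
    rw [ga_mon, gaC] at h1 ⊢
    rw [hc] at h1
    linarith [ht a₀ hc, (ga_body.1 hy).2.1 a]
  · rintro S ⟨y, hy, hS⟩
    exact ⟨gaT y, (ga_body.1 hy).2.2, fun a ha => ga_top hy (hS _ ha),
      fun j hj => ga_on.1 (hS _ hj)⟩
  · have hb : ∀ i, ∃ b, H.col b = i ∧ ∀ a, H.col a = i →
        rv (H.ex a) ⬝ᵥ x + H.co a ≤ rv (H.ex b) ⬝ᵥ x + H.co b := fun i => by
      obtain ⟨a, ha⟩ := hs i
      obtain ⟨b, h3, h4⟩ := Finset.exists_max_image (Finset.univ.filter fun a => H.col a = i)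
        (fun a => rv (H.ex a) ⬝ᵥ x + H.co a) ⟨a, by simp [ha]⟩
      exact ⟨b, by simpa using h3, fun a' ha' => h4 a' (by simp [ha'])⟩
    choose b hb1 hb2 using hb
    refine ⟨Fin.append (fun i => rv (H.ex (b i)) ⬝ᵥ x + H.co (b i)) x,
      ga_body.2 ⟨fun i => ?_, fun a => ?_, ?_⟩, ?_⟩
    · rw [ga_H]
      linarith [(abs_le.1 (hR x hx (b i))).2]
    · rw [ga_H, ga_T]
      exact hb2 _ a rfl
    · rw [ga_T]
      exact hx
    · rintro (i | a | j) hm
      · exact absurd hm (hn i)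
      · rw [ga_mon, gaC, ga_H, ga_T]
        linarith [hb2 _ a rfl, h1 a hm (b (H.col a)) (hb1 _)]
      · refine ga_on.2 ?_
        rw [ga_T]
        exact h2 j hm

end H5T.Cis
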