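import Pool.Agent.Lib.MP_e9c0f3_ag.CI.Frame
import Pool.Agent.Lib.MP_e9c0f3_ag.HY.Poly

/-! Shellings adapted to a set of colours. -/

open Matrix
open scoped Classical

noncomputable section

namespace H5T.Cis

variable {n c : ℕ} {α β : Type} [Fintype α] [Fintype β] {H : Cis n c α β}

/-- The sum of the heights in `B` and the reflected point. -/
def geobP (B : Finset (Fin c)) (w : Fin (c + n) → ℚ) : Fin (n + 1) → ℚ :=
  Fin.cons (∑ i ∈ B, w (Fin.castAdd n i)) fun k => -w (Fin.natAdd c k)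

/-- The covector upstairs. -/
def geobG (B : Finset (Fin c)) (g : Fin (n + 1) → ℚ) : Fin (c + n) → ℚ :=
  Fin.append (fun i => if i ∈ B then g 0 else 0) fun k => -g k.succ

lemma geob_dot (B : Finset (Fin c)) (g : Fin (n + 1) → ℚ) (w : Fin (c + n) → ℚ) :
    geobG B g ⬝ᵥ w = g ⬝ᵥ geobP B w := by
  simp [geobG, geobP, dotProduct, Fin.sum_univ_add, Fin.sum_univ_succ, Finset.mul_sum]

lemma geob_start (B : Finset (Fin c)) (o : Fin n → ℚ) (y : Fin c → ℚ) (x : Fin n → ℚ) :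
    (Fin.cons 1 o : Fin (n + 1) → ℚ) ⬝ᵥ geobP B (Fin.append y x) = ∑ i ∈ B, y i - o ⬝ᵥ x := by
  simp [geobP, dotProduct, Fin.sum_univ_succ, sub_eq_add_neg]

omit [Fintype β] in
lemma geob_hh_le (b : α) (j : β) : H.ex b ⬝ᵥ H.dir j ≤ H.hh (H.col b) j := by
  have : Nonempty {a // H.col a = H.col b} := ⟨⟨b, rfl⟩⟩
  obtain ⟨a, ha⟩ := Finite.exists_max fun a : {a // H.col a = H.col b} => H.ex a ⬝ᵥ H.dir j
  have h : ∃ a, H.col a = H.col b ∧
      ∀ d, H.col d = H.col b → H.ex d ⬝ᵥ H.dir j ≤ H.ex a ⬝ᵥ H.dir j :=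
    ⟨a, a.2, fun d hd => ha ⟨d, hd⟩⟩
  rw [hh, dif_pos h]
  exact h.choose_spec.2 b rfl

omit [Fintype α] [Fintype β] in
lemma geob_hh_eq {a : α} {j : β}
    (ha : ∀ b, H.col b = H.col a → H.ex b ⬝ᵥ H.dir j ≤ H.ex a ⬝ᵥ H.dir j) :
    H.ex a ⬝ᵥ H.dir j = H.hh (H.col a) j := by
  have h : ∃ a', H.col a' = H.col a ∧
      ∀ d, H.col d = H.col a → H.ex d ⬝ᵥ H.dir j ≤ H.ex a' ⬝ᵥ H.dir j := ⟨a, rfl, ha⟩
  rw [hh, dif_pos h]
  exact le_antisymm (h.choose_spec.2 a rfl) (ha _ h.choose_spec.1)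

omit [Fintype α] [Fintype β] in
lemma geob_vv {v : Finset (Jx c α β)} {i : Fin c} (hi : .inl i ∉ v) {s : Jx c α β} (hs : s ∈ v) :
    H.lam s ⬝ᵥ vv n i = 0 ∨ ∃ d, s = mo d ∧ H.col d = i ∧ H.lam s ⬝ᵥ vv n i = 1 := by
  rcases s with l | d | j
  · have : l ≠ i := fun e => hi (e ▸ hs)
    exact Or.inl (by simp [lam, vv, ap_dot, this])
  · have h1 : H.lam (mo d) ⬝ᵥ vv n i = if H.col d = i then 1 else 0 := ell_vv d i
    by_cases e : H.col d = i
    · exact Or.inr ⟨d, rfl, e, h1.trans (if_pos e)⟩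
    · exact Or.inl (h1.trans (if_neg e))
  · exact Or.inl (by simp [lam, vv, ap_dot])

omit [Fintype α] [Fintype β] in
lemma geob_ne (B : Finset (Fin c)) {a b : α} (hc : H.col a = H.col b) {w : Fin (c + n) → ℚ}
    (ha : H.lam (mo a) ⬝ᵥ w = 1) (hb : H.lam (mo b) ⬝ᵥ w = 0) : geobP B w ≠ 0 := by
  intro h
  have h1 : (fun k => w (Fin.natAdd c k)) = 0 := funext fun k => by
    simpa [geobP] using congrFun h k.succ
  rw [← Fin.append_castAdd_natAdd (f := w), h1] at ha hb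
  have h2 := (ell_ap a _ _).symm.trans ha
  have h3 := (ell_ap b _ _).symm.trans hb
  rw [dotProduct_zero] at h2 h3
  rw [hc, h3] at h2
  exact zero_ne_one h2

theorem Good.exists_sh (h : H.Good) {cs : Jx c α β → ℝ} (hS : HY.Simple H.lam cs)
    (hF : H.Fm (HY.nerve H.lam cs)) (B : Finset (Fin c)) :
    ∃ vx up rk, H.Sh (HY.nerve H.lam cs) B vx up rk := by
  have h1 : ∀ (v : Finset (Jx c α β)) (t : Jx c α β), ∃ w : Fin (c + n) → ℚ,
      HY.nerve H.lam cs v → ∀ s ∈ v, H.lam s ⬝ᵥ w = if s = t then 1 else 0 := fun v t => by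
    by_cases hv : HY.nerve H.lam cs v
    · obtain ⟨w, hw⟩ := HY.exists_dual_vec (hF.indep v hv) fun s => if s = t then 1 else 0
      exact ⟨w, fun _ => hw⟩
    · exact ⟨0, fun c => absurd c hv⟩
  choose e he using h1
  obtain ⟨o, ho⟩ : ∃ o : Fin n → ℚ, H.Inn B → ∀ j, o ⬝ᵥ H.dir j < ∑ i ∈ B, H.hh i j := by
    by_cases hI : H.Inn B
    · obtain ⟨o, ho⟩ := hI
      refine ⟨o, fun _ j => ?_⟩
      obtain ⟨f, f1, f2⟩ := ho j
      refine f2.trans_le (Finset.sum_le_sum fun i hi => ?_)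
      have := geob_hh_le (H := H) (f i) j
      rwa [f1 i hi] at this
    · exact ⟨0, fun c => absurd c hI⟩
  let E : Fin c ⊕ β ⊕ Finset (Jx c α β) × Jx c α β → Fin (c + n) → ℚ :=
    Sum.elim (vv n) (Sum.elim H.dh fun p => e p.1 p.2)
  obtain ⟨g, hg⟩ := HY.poly_generic (fun j : {j // geobP B (E j) ≠ 0} => geobP B (E j))
    (fun j => j.2) (Fin.cons 1 o)
  have g0 : ∀ j, geobP B (E j) ≠ 0 → geobG B g ⬝ᵥ E j ≠ 0 := fun j hj => by
    rw [geob_dot]
    exact (hg ⟨j, hj⟩).1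
  have g1 : ∀ j, 0 < (Fin.cons 1 o : Fin (n + 1) → ℚ) ⬝ᵥ geobP B (E j) →
      0 < geobG B g ⬝ᵥ E j := fun j hj => by
    rw [geob_dot]
    exact (hg ⟨j, fun c => by simp [c] at hj⟩).2.1 hj
  have g2 : ∀ i ∈ B, 0 < geobG B g ⬝ᵥ vv n i := fun i hi => g1 (.inl i) (by
    rw [show E (.inl i) = vv n i from rfl, vv, geob_start]
    simp [Pi.single_apply, hi])
  have g3 : ∀ i ∉ B, geobG B g ⬝ᵥ vv n i = 0 := fun i hi => by
    simp [geobG, vv, ap_dot, hi]
  have g4 : H.Inn B → ∀ j, 0 < geobG B g ⬝ᵥ H.dh j := fun hI j => g1 (.inr (.inl j)) (by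
    rw [show E (.inr (.inl j)) = H.dh j from rfl, dh, geob_start]
    exact sub_pos.2 (ho hI j))
  obtain ⟨vx, up, rk, hsh, hv⟩ := hS.shell (geobG B g)
  have hup : ∀ S, HY.nerve H.lam cs S → up (vx S) ⊆ vx S := fun S hS =>
    (hsh.up_le S hS).trans (hsh.le S hS)
  refine ⟨vx, up, rk, hsh, fun S hS => (hv S hS).1, fun S hS i hi hn => ?_,
    fun hI S hS hn j hj => ?_, fun S hS i hi a b ha hb ca cb hab => ?_⟩
  · by_contra! hc
    refine absurd ((hv S hS).2.1 (vv n i) (fun s hs => ?_) fun s hs => ?_) (not_le.2 (g2 i hi))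
    · rcases geob_vv (H := H) hn hs with e | ⟨d, -, -, e⟩
      · exact e.ge
      · rw [e]; exact zero_le_one
    · rcases geob_vv (H := H) hn (hup S hS hs) with e | ⟨d, rfl, e, -⟩
      · exact e
      · exact absurd hs (hc d e)
  · obtain ⟨x, hx, x1, x2⟩ := hF.pt _ (hsh.mem S hS)
    obtain ⟨μ, h0, h1, h2, h3⟩ := h.cut x hx j (x2 j (hup S hS hj))
    have hmon : ∀ a, mo a ∈ vx S → H.lam (mo a) ⬝ᵥ (-∑ l, μ l • H.dh l) = 0 := by
      intro a ha
      rw [dotProduct_neg, neg_eq_zero, dotProduct_sum]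
      refine Finset.sum_eq_zero fun l _ => ?_
      rw [dotProduct_smul, smul_eq_mul]
      by_cases c : H.On l x
      · have : H.lam (mo a) ⬝ᵥ H.dh l = _ := ell_ap a _ _
        rw [this, geob_hh_eq (h.face x hx l a c (x1 a ha)), sub_self, mul_zero]
      · rw [h1 l c, zero_mul]
    have hcut : ∀ l, H.lam (cu l) ⬝ᵥ (-∑ l, μ l • H.dh l) = H.nm l ⬝ᵥ ∑ i, μ i • H.dir i := by
      intro l
      rw [dotProduct_neg, dotProduct_sum, dotProduct_sum, ← Finset.sum_neg_distrib]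
      refine Finset.sum_congr rfl fun i _ => ?_
      simp [lam, dh, ap_dot]
    have h4 := (hv S hS).2.2 (-∑ l, μ l • H.dh l) ?_ ?_
    · rw [dotProduct_neg, dotProduct_sum, neg_nonneg] at h4
      have h6 : ∃ i, μ i ≠ 0 := by
        by_contra! c
        simp [c] at h2
      obtain ⟨i, hi⟩ := h6
      refine absurd h4 (not_le.2 (Finset.sum_pos' (fun l _ => ?_) ⟨i, Finset.mem_univ _, ?_⟩))
      · rw [dotProduct_smul, smul_eq_mul]
        exact mul_nonneg (h0 l) (g4 hI l).le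
      · rw [dotProduct_smul, smul_eq_mul]
        exact mul_pos ((h0 i).lt_of_ne' hi) (g4 hI i)
    · rintro (i | a | l) hm
      · exact absurd hm (hn i)
      · exact (hmon a hm).ge
      · rw [hcut]
        by_cases c : l = j
        · rw [c, h2]; exact zero_le_one
        · exact (h3 l (x2 l hm) c).ge
    · rintro (i | a | l) hm hm'
      · exact absurd hm (hn i)
      · exact hmon a hm
      · rw [hcut]
        exact h3 l (x2 l hm) fun c => hm' (c ▸ hj)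
  · have hK := hsh.mem S hS
    have hn : .inl i ∉ vx S := ca ▸ hF.sep _ hK a ha
    have k0 : ∑ s ∈ vx S, (geobG B g ⬝ᵥ e (vx S) s) * (H.lam s ⬝ᵥ vv n i) = 0 := by
      rw [← g3 i hi]
      conv_rhs => rw [HY.poly_expand (hF.indep _ hK) (hv S hS).1
        (e := e (vx S)) (fun s _ t ht => (he (vx S) s hK t ht).trans (by split_ifs <;> rfl))
        (geobG B g)]
      rw [sum_dotProduct]
      exact Finset.sum_congr rfl fun s _ => by rw [smul_dotProduct, smul_eq_mul]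
    have k1 : geobG B g ⬝ᵥ e (vx S) (mo a) ≠ 0 :=
      g0 (.inr (.inr (vx S, mo a))) (geob_ne (H := H) B (ca.trans cb.symm)
        ((he _ _ hK _ ha).trans (if_pos rfl))
        ((he _ _ hK _ hb).trans (if_neg fun c => hab (by simpa using c.symm))))
    have k2 : H.lam (mo a) ⬝ᵥ vv n i = 1 := (ell_vv a i).trans (if_pos ca)
    have k3 : ∀ t, ∀ s ∈ vx S, 0 ≤ H.lam s ⬝ᵥ e (vx S) t := fun t s hs => by
      rw [he _ _ hK _ hs]
      split_ifs <;> norm_num
    have k4 : ∀ t ∉ up (vx S), geobG B g ⬝ᵥ e (vx S) t ≤ 0 := fun t ht =>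
      (hv S hS).2.1 _ (k3 t) fun s hs =>
        (he _ _ hK _ (hup S hS hs)).trans (if_neg fun c : s = t => ht (c ▸ hs))
    have k5 : ∀ t ∈ up (vx S), 0 ≤ geobG B g ⬝ᵥ e (vx S) t := fun t ht =>
      (hv S hS).2.2 _ (k3 t) fun s hs hs' =>
        (he _ _ hK _ hs).trans (if_neg fun c : s = t => hs' (c ▸ ht))
    constructor
    · by_contra! hc
      refine k1 ?_
      have := (Finset.sum_eq_zero_iff_of_nonpos fun s hs => ?_).1 k0 _ ha
      · rwa [k2, mul_one] at this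
      · rcases geob_vv (H := H) hn hs with e | ⟨d, rfl, c, e⟩
        · rw [e, mul_zero]
        · rw [e, mul_one]
          exact k4 _ (hc d c)
    · by_contra! hc
      refine k1 ?_
      have := (Finset.sum_eq_zero_iff_of_nonneg fun s hs => ?_).1 k0 _ ha
      · rwa [k2, mul_one] at this
      · rcases geob_vv (H := H) hn hs with e | ⟨d, rfl, c, e⟩
        · rw [e, mul_zero]
        · rw [e, mul_one]
          exact k5 _ (hc d c hs)

end H5T.Cis
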