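import Pool.Agent.Lib.MP_e9c0f3_ag.CI.GeoA
import Pool.Agent.Lib.MP_e9c0f3_ag.CI.GeoB
import Pool.Agent.Lib.MP_e9c0f3_ag.CI.Alg
import Pool.Agent.Lib.MP_e9c0f3_ag.CI.Down
import Pool.Agent.Lib.MP_e9c0f3_ag.CI.Count
import Pool.Agent.Lib.MP_e9c0f3_ag.CI.Cell
import Pool.Agent.Lib.MP_e9c0f3_ag.HY.HMain

/-! Local and global vanishing of tropical homology of simple complete intersections. -/

open scoped Classical

noncomputable section

namespace H5T.Cis

open HY

variable {n c : ℕ} {α β : Type} {H : Cis n c α β} {K : Finset (Jx c α β) → Prop} {X : TropCx n}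

theorem Fm.elim (h : H.Fm K) {cl : List (Finset (Jx c α β)) → Prop} (hc : Cv cl)
    (hK : ∀ S l, cl (S :: l) → K S) (A : Finset (Fin c)) : ∀ (B : Finset (Fin c)) (r g : ℕ),
    Disjoint A B → (∀ (B' : Finset (Fin c)) (g' : ℕ), g' + B'.card = g + A.card + B.card →
      Ex cl (H.G ∅ B' (r + A.card)) (H.J B') g') → Ex cl (H.G A B r) (H.J B) g := by
  induction A using Finset.induction_on with
  | empty => exact fun B r g _ e => e B g (by simp)
  | insert i A hi ih =>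
    intro B r g hd e
    rw [Finset.disjoint_insert_left] at hd
    rw [Finset.card_insert_of_notMem hi] at e
    refine h.step hc hK hi hd.1 (ih _ _ _ ?_ fun B' g' hg => ?_) (ih _ _ _ hd.2 fun B' g' hg => ?_)
    · exact Finset.disjoint_insert_right.2 ⟨hi, hd.2⟩
    · rw [Finset.card_insert_of_notMem hd.1] at hg
      rw [add_assoc, add_comm 1]
      exact e B' g' (by omega)
    · rw [add_assoc, add_comm 1]
      exact e B' g' (by omega)

theorem Fm.ex_FX (h : H.Fm K) {φ : List (Finset (Jx c α β))} {p g : ℕ}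
    (e : ∀ (B : Finset (Fin c)) (g' : ℕ), g' + B.card = g + c →
      Ex (Cl K φ ∅) (H.G ∅ B (p + c)) (H.J B) g') : Ex (Cl K φ ∅) (H.FX p) H.I0 g :=
  ex_down (cv_Cl _ _ _) (h.elim (cv_Cl _ _ _) (fun S _ hl => hl.2.1 S List.mem_cons_self) _ _ _ _
    (Finset.disjoint_empty_right _) (by simpa using e))

theorem cm_zero (hX : H.Is X) (hs : ¬ Function.Surjective H.col)
    {G : Set (Pt n) → Submodule ℚ (Mv n)} {q : ℕ} {z : List (Set (Pt n)) →₀ Mv n}
    (hz : z ∈ X.C X.Flag G q) : z = 0 := by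
  ext1 l
  by_contra hl
  obtain ⟨σ, hσ, -⟩ := hm_flag hz hl
  obtain ⟨-, τ, J, hτ, -⟩ := (hX.1 σ).1 hσ
  refine hs fun i => ?_
  obtain ⟨a, ha⟩ := Finset.card_pos.1 (lt_of_lt_of_le two_pos (hτ i))
  exact ⟨a, (Finset.mem_filter.1 ha).2⟩

variable [Fintype α] [Fintype β]

theorem Good.locVan (h : H.Good) (hX : H.Is X) : X.LocVan := by
  intro φ hφ p q hqp z hz hb
  by_cases hs : Function.Surjective H.col
  swap
  · rw [cm_zero hX hs hz]
    exact Submodule.zero_mem _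
  obtain ⟨cs, hS, hF⟩ := h.exists_fm hs
  obtain ⟨vx, up, rk, hsh⟩ := h.exists_sh hS hF ∅
  obtain ⟨ix, cx, hD⟩ := hF.dict hX
  by_cases hl : ∃ l, φ ⊆ l ∧ ∃ σ ∈ X.cells, X.Flag l σ
  swap
  · refine Submodule.mem_sup_right ((Finsupp.mem_supported ℚ z).2 fun l hl' hφl => hl ?_)
    exact ⟨l, hφl, hm_flag hz (Finsupp.mem_support_iff.1 hl')⟩
  obtain ⟨l, hφl, σ, -, -, hl⟩ := hl
  refine hD.transfer (fun ρ hρ => (hl ρ (hφl hρ)).1) ?_ hz hb
  by_cases hn : n < p + c
  · refine Ex.of_le fun S l' hc _ => ?_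
    rw [hF.FX_bot (hc.2.1 S List.mem_cons_self) hn]
    exact bot_le
  exact hF.ex_FX fun B g' hg => hF.ex_loc hsh (by simpa using hφ) (by omega)

/-- Vanishing of tropical homology below the diagonal. -/
theorem Good.van (h : H.Good) (hX : H.Is X) {p q : ℕ} (hqp : q < p)
    (hB : ∀ B : Finset (Fin c), B.Nonempty →
      (H.Inn B ∧ n < p + q + c) ∨ ∃ t, H.Few B t ∧ t + q < p + 2 * B.card) :
    X.Cyc p q ≤ X.B X.Flag p q := by
  intro z hz
  by_cases hs : Function.Surjective H.col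
  swap
  · rw [cm_zero hX hs hz.1]
    exact Submodule.zero_mem _
  obtain ⟨cs, hS, hF⟩ := h.exists_fm hs
  obtain ⟨ix, cx, hD⟩ := hF.dict hX
  have e := hD.transfer (φ := []) (p := p) (q := q) (by simp) (hF.ex_FX fun B g' hg => ?_) hz.1
    (Submodule.mem_sup_left hz.2)
  · simpa using e
  have hc : B.card ≤ c := by simpa using B.card_le_univ
  obtain ⟨vx, up, rk, hu⟩ := h.exists_sh hS hF Finset.univ
  rcases B.eq_empty_or_nonempty with rfl | hne
  · refine hF.ex_few hu (t := 0) (fun x _ τ hτ => ?_) (by simp at hg ⊢; omega)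
    rw [Nat.le_zero, Finset.card_eq_zero, Finset.eq_empty_iff_forall_notMem]
    exact fun a ha => absurd (hτ a ha).2 (Finset.notMem_empty _)
  rcases hB B hne with ⟨h1, h2⟩ | ⟨t, h1, h2⟩
  · obtain ⟨vx', up', rk', hs'⟩ := h.exists_sh hS hF B
    exact hF.ex_inn hs' h1 (by omega)
  · exact hF.ex_few hu h1 (by omega)

end H5T.Cis
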