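import Pool.Agent.Lib.MP_e9c0f3_ag.HY.Mono

/-! Splitting a monomial system of multivectors. -/

open ExteriorAlgebra Module
open scoped Classical

noncomputable section

namespace H5T.HY

variable {I : Type}

namespace Mo2

variable {m : ℕ} {κ : Type} [LinearOrder κ] (b : Basis κ ℚ (Fin m → ℚ))

theorem coord_zero {r : ℕ} {U : Finset κ} {T : Set (Set κ)}
    (h : U.card = r → ¬ ∃ t ∈ T, Disjoint t U) :
    ⨆ t ∈ T, wedge (⨅ k ∈ t, LinearMap.ker (b.coord k)) r ≤
      LinearMap.ker (b.ExteriorAlgebra.coord U) := by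
  refine iSup₂_le fun t ht x hx => ?_
  by_cases hU : U.card = r
  · obtain ⟨k, hk, hkU⟩ := Set.not_disjoint_iff.1 fun hd => h hU ⟨t, ht, hd⟩
    have h1 := Mo.coord_map b k U x
    rw [if_pos (show k ∈ U from hkU), EA.map_wedge _
      (fun v hv => Mo.pr_ker b k v ((Submodule.mem_iInf _).1 ((Submodule.mem_iInf _).1 hv k) hk))
      _ _ hx] at h1
    exact h1
  · exact Mo.coord_top b hU (pow_le_pow_left' (Submodule.map_mono le_top) r hx)

theorem mono_in {U : Finset κ} {T : Set (Set κ)} (h : ∃ t ∈ T, Disjoint t U) :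
    b.ExteriorAlgebra U ∈ ⨆ t ∈ T, wedge (⨅ k ∈ t, LinearMap.ker (b.coord k)) U.card := by
  obtain ⟨t, ht, hd⟩ := h
  refine Submodule.mem_iSup_of_mem t (Submodule.mem_iSup_of_mem ht (Mo.mono_mem b fun j hj => ?_))
  refine (Submodule.mem_iInf _).2 fun k => (Submodule.mem_iInf _).2 fun hk => ?_
  exact LinearMap.mem_ker.2 (Mo.coord_ne b fun e => Set.disjoint_left.1 hd hk (e ▸ hj))

theorem alive {U : Finset κ} {A : Set κ} (hA : Disjoint A U) :
    (Submodule.span ℚ (b '' A)).map (ι ℚ) * ⊤ ≤ LinearMap.ker (b.ExteriorAlgebra.coord U) :=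
  le_sup_left.trans (Mo.alive b (r := 0) (T := ∅) (Set.empty_subset _) hA)

theorem gone {U : Finset κ} {A : Set κ} (hA : ¬ Disjoint A U) :
    b.ExteriorAlgebra U ∈ (Submodule.span ℚ (b '' A)).map (ι ℚ) * ⊤ := by
  simpa using Mo.gone b (T := ∅) fun h => hA h.2

end Mo2

theorem Ex.mono_split2 {m r g : ℕ} {κ : Type} [Fintype κ] (b : Basis κ ℚ (Fin m → ℚ))
    {c : List (Finset I) → Prop} {G J : Finset I → Submodule ℚ (Mv m)}
    (A : Finset I → Set κ) (T : Finset I → Set (Set κ))
    (hG : ∀ S l, c (S :: l) → G S = ⨆ t ∈ T S, wedge (⨅ k ∈ t, LinearMap.ker (b.coord k)) r)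
    (hJ : ∀ S l, c (S :: l) → J S = (Submodule.span ℚ (b '' A S)).map (ι ℚ) * ⊤)
    (h : ∀ U : Finset κ, U.card = r → ∀ W : Submodule ℚ (Mv m),
      Ex c (fun S => if ∃ t ∈ T S, Disjoint t U then W else ⊥)
        (fun S => if Disjoint (A S) U then ⊥ else ⊤) g) :
    Ex c G J g := by
  let _ : LinearOrder κ := LinearOrder.lift' (Fintype.equivFin κ) (Equiv.injective _)
  intro z hz hb
  set B := b.ExteriorAlgebra with hB
  let Q : Finset κ → Mv m →ₗ[ℚ] Mv m := fun U => (B.coord U).smulRight (B U)
  have hQ : ∀ U x, Q U x = B.coord U x • B U := fun _ _ => rfl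
  have hsum : z = ∑ U, co (Q U) z := by
    ext l
    rw [Finsupp.finsetSum_apply]
    exact (B.sum_repr (z l)).symm
  rw [hsum]
  refine Submodule.sum_mem _ fun U _ => ?_
  by_cases hU : U.card = r
  swap
  · have : co (Q U) z = 0 := by
      ext l
      have h1 := mem_Ch.1 hz l
      rw [co_apply, Finsupp.zero_apply]
      split_ifs at h1 with hl
      · cases l with
        | nil => rw [(Submodule.mem_bot ℚ).1 h1, map_zero]
        | cons S l =>
          change _ ∈ G S at h1
          rw [hG S l hl.1] at h1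
          rw [hQ, LinearMap.mem_ker.1 (Mo2.coord_zero b (fun e => absurd e hU) h1), zero_smul]
      · rw [(Submodule.mem_bot ℚ).1 h1, map_zero]
    rw [this]
    exact zero_mem _
  set W := Submodule.span ℚ {B U} with hW
  have hQW : ∀ x, Q U x ∈ W := fun x =>
    Submodule.smul_mem _ _ (Submodule.mem_span_singleton_self _)
  have hCC : ∀ {g : ℕ} (l : List (Finset I)), (if c l ∧ l.length = g then
      hd (fun S => if ∃ t ∈ T S, Disjoint t U then W else ⊥) l else ⊥) ≤ W := by
    intro g l
    split_ifs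
    · cases l with
      | nil => exact bot_le
      | cons S l =>
        change (if ∃ t ∈ T S, Disjoint t U then W else ⊥) ≤ W
        split_ifs
        · exact le_rfl
        · exact bot_le
    · exact bot_le
  have h1 : co (Q U) z ∈ CC c (fun S => if ∃ t ∈ T S, Disjoint t U then W else ⊥) g := by
    refine co_mem_Ch _ (fun l β hβ => ?_) hz
    split_ifs at hβ ⊢ with hl
    · cases l with
      | nil => rw [(Submodule.mem_bot ℚ).1 hβ, map_zero]; exact zero_mem _
      | cons S l =>
        change β ∈ G S at hβ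
        change Q U β ∈ (if ∃ t ∈ T S, Disjoint t U then W else ⊥)
        split_ifs with ha
        · exact hQW β
        · rw [hG S l hl.1] at hβ
          rw [hQ, LinearMap.mem_ker.1 (Mo2.coord_zero b (fun _ => ha) hβ), zero_smul]
          exact zero_mem _
    · rw [(Submodule.mem_bot ℚ).1 hβ, map_zero]; exact zero_mem _
  have h2 : bd (co (Q U) z) ∈ NN c (fun S => if Disjoint (A S) U then ⊥ else ⊤) := by
    rw [bd_co]
    refine co_mem_Ch _ (fun l β hβ => ?_) hb
    by_cases hl : c l
    · rw [if_pos hl] at hβ ⊢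
      cases l with
      | nil => rw [(Submodule.mem_bot ℚ).1 hβ, map_zero]; exact zero_mem _
      | cons S l =>
        change β ∈ J S at hβ
        change Q U β ∈ (if Disjoint (A S) U then ⊥ else ⊤)
        split_ifs with ha
        · rw [hJ S l hl] at hβ
          rw [hQ, LinearMap.mem_ker.1 (Mo2.alive b ha hβ), zero_smul]
          exact zero_mem _
        · exact Submodule.mem_top
    · rw [if_neg hl]; exact Submodule.mem_top
  obtain ⟨_, ⟨y, hy, rfl⟩, n, hn, e⟩ := Submodule.mem_sup.1 (h U hU W _ h1 h2)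
  rw [← e]
  refine Submodule.add_mem_sup ⟨y, Ch_mono (fun l => ?_) hy, rfl⟩ (mem_Ch.2 fun l => ?_)
  · split_ifs with hl
    · cases l with
      | nil => exact le_rfl
      | cons S l =>
        change (if ∃ t ∈ T S, Disjoint t U then W else ⊥) ≤ G S
        split_ifs with ha
        · rw [hG S l hl.1, hW, Submodule.span_singleton_le_iff_mem, ← hU]
          exact Mo2.mono_in b ha
        · exact bot_le
    · exact le_rfl
  · have hnl := mem_Ch.1 hn l
    by_cases hl : c l
    · rw [if_pos hl] at hnl ⊢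
      cases l with
      | nil => exact hnl
      | cons S l =>
        change n (S :: l) ∈ J S
        change _ ∈ (if Disjoint (A S) U then ⊥ else ⊤) at hnl
        split_ifs at hnl with ha
        · rw [(Submodule.mem_bot ℚ).1 hnl]; exact zero_mem _
        · have hy' : bd y ∈ Ch fun _ => W := bd_mem_Ch (fun l _ _ _ => hCC l) hy
          have hn' : n (S :: l) ∈ W := by
            rw [eq_sub_of_add_eq' e, Finsupp.sub_apply]
            exact sub_mem (hQW _) (mem_Ch.1 hy' _)
          rw [hJ S l hl]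
          exact (Submodule.span_singleton_le_iff_mem _ _).2 (Mo2.gone b ha) hn'
    · rw [if_neg hl]; exact Submodule.mem_top

end H5T.HY
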