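import Pool.Agent.Lib.MP_e9c0f3_ag.CI.Frame
import Pool.Agent.Lib.MP_e9c0f3_ag.CI.Sys2
import Pool.Agent.Lib.MP_e9c0f3_ag.CI.Mono2
import Pool.Agent.Lib.MP_e9c0f3_ag.HY.Poly

/-! At a vertex the systems split into systems of rank one. -/

open Matrix ExteriorAlgebra
open scoped Classical

noncomputable section

namespace H5T.Cis

open HY

variable {n c : ℕ} {α β : Type} {H : Cis n c α β} {K : Finset (Jx c α β) → Prop}

/-- The constraints that kill the monomial `U`. -/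
def Kill (H : Cis n c α β) (B D : Finset (Fin c)) (U : Finset (Jx c α β)) : Jx c α β → Prop
  | .inl _ => False
  | .inr (.inl a) => H.col a ∈ D ∧ (H.col a ∉ B ∨ mo a ∉ U)
  | .inr (.inr j) => cu j ∈ U

theorem red_blocks {I κ E : Type} [Fintype κ] [AddCommGroup E] [Module ℚ E]
    {cl : List (Finset I) → Prop} (hc : Cv cl) {v : Finset I} (hv : ∀ S l, cl (S :: l) → S ⊆ v)
    (s : κ → I → Prop) (s₀ : I → Prop) (W : Submodule ℚ E) {g : ℕ} {p q : Finset I → Prop}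
    {k : Finset κ → Finset I → Prop} {i1 : ∀ S, Decidable (p S)} {i2 : ∀ S, Decidable (q S)}
    {i3 : ∀ D S, Decidable (k D S)} (hp : ∀ S ⊆ v, p S ↔ ∀ i, ∃ x ∈ S, s i x)
    (hq : ∀ S ⊆ v, q S ↔ ∀ x ∈ S, ¬ s₀ x)
    (hk : ∀ D, ∀ S ⊆ v, k D S ↔ ∀ x ∈ S, ¬ s₀ x ∧ ∀ i ∈ D, ¬ s i x)
    (h : ∀ D, Ex cl (fun _ => W) (fun S => @ite _ (k D S) (i3 D S) ⊥ ⊤) (g + D.card)) :
    Ex cl (fun S => @ite _ (p S) (i1 S) W ⊥) (fun S => @ite _ (q S) (i2 S) ⊥ ⊤) g := by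
  refine (ex_blocks hc Finset.univ (fun i => v.filter (s i)) (v.filter s₀) W fun D _ =>
    (h D).congr (fun _ => Iff.rfl) (fun _ _ _ => rfl) fun S l hl => if_congr ?_ rfl rfl).congr
      (fun _ => Iff.rfl) (fun S l hl => @if_congr _ _ _ _ (_) _ _ _ _ ?_ rfl rfl)
      fun S l hl => if_congr ?_ rfl rfl
  · have hS := hv S l hl
    rw [hk D S hS, Finset.disjoint_left]
    refine forall₂_congr fun x hx => ?_
    simp [hS hx]
  · have hS := hv S l hl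
    rw [hp S hS]
    refine forall_congr' fun i => ?_
    simp only [Finset.mem_univ, true_imp_iff, Finset.not_disjoint_iff, Finset.mem_filter]
    exact exists_congr fun x => and_congr_right fun hx => (and_iff_right (hS hx)).symm
  · have hS := hv S l hl
    rw [hq S hS, Finset.disjoint_left]
    refine forall₂_congr fun x hx => ?_
    simp [hS hx]

theorem red_dis {κ : Type} {s t : Set κ} (h : Disjoint s t) (k : κ) (h1 : k ∈ s) (h2 : k ∈ t) :
    False := Set.disjoint_left.1 h h1 h2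

theorem red_coef {κ : Type} [Fintype κ] {m : ℕ} {w : κ → Fin m → ℚ} {x : κ → ℚ}
    (h0 : ∑ k, x k • w k = 0) (f : (Fin m → ℚ) →ₗ[ℚ] ℚ) {t : κ} (h1 : f (w t) = 1)
    (h : ∀ k, k ≠ t → x k = 0 ∨ f (w k) = 0) : x t = 0 := by
  have := congrArg f h0
  rw [map_sum, map_zero, Finset.sum_eq_single t] at this
  · rwa [map_smul, h1, smul_eq_mul, mul_one] at this
  · intro k _ hk
    rw [map_smul, smul_eq_mul]
    exact mul_eq_zero.2 (h k hk)
  · simp

/-- A basis adapted to a vertex that has all colours. -/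
theorem Fm.red_basis (h : H.Fm K) {v : Finset (Jx c α β)} (hv : K v) (hc : v.card = c + n)
    (B : Finset (Fin c)) {a₀ : Fin c → α} (h0 : ∀ i, H.col (a₀ i) = i ∧ mo (a₀ i) ∈ v) :
    ∃ b : Module.Basis v ℚ (Fin (c + n) → ℚ), (∀ j (hj : cu j ∈ v), b ⟨_, hj⟩ = H.dh j) ∧
      (∀ i ∉ B, b ⟨_, (h0 i).2⟩ = vv n i) ∧
      ∀ a (ha : mo a ∈ v), H.col a ∈ B → b.coord ⟨_, ha⟩ = H.ell a := by
  have hn : ∀ i, .inl i ∉ v := fun i => (h0 i).1 ▸ h.sep v hv _ (h0 i).2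
  choose e he using fun t : Jx c α β =>
    exists_dual_vec (h.indep v hv) fun s => if t = s then 1 else 0
  let w : Jx c α β → Fin (c + n) → ℚ := Sum.elim 0 (Sum.elim
    (fun a => if H.col a ∉ B ∧ a = a₀ (H.col a) then vv n (H.col a) else e (mo a)) H.dh)
  have key : ∀ a, mo a ∈ v → ∀ t ∈ v, H.ell a (w t) =
      if t = mo a ∨ (H.col a ∉ B ∧ t = mo (a₀ (H.col a))) then 1 else 0 := by
    intro a ha t ht
    rcases t with i | b | j
    · exact absurd ht (hn i)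
    · by_cases hb : H.col b ∉ B ∧ b = a₀ (H.col b)
      · have : w (mo b) = vv n (H.col b) := if_pos hb
        rw [this, ell_vv]
        refine if_congr ⟨fun e' => Or.inr ⟨e' ▸ hb.1, by rw [e', ← hb.2]⟩, ?_⟩ rfl rfl
        rintro (e' | ⟨-, e'⟩)
        · rw [Sum.inl.inj (Sum.inr.inj e')]
        · rw [Sum.inl.inj (Sum.inr.inj e'), (h0 _).1]
      · have : w (mo b) = e (mo b) := if_neg hb
        rw [this, ell, dl_apply, he (mo b) _ ha]
        refine if_congr ⟨Or.inl, ?_⟩ rfl rfl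
        rintro (e' | ⟨e1, e'⟩)
        · exact e'
        · have e2 := Sum.inl.inj (Sum.inr.inj e')
          have e3 : H.col b = H.col a := by rw [e2, (h0 _).1]
          exact absurd ⟨e3 ▸ e1, e3 ▸ e2⟩ hb
    · rw [if_neg (by simp)]
      exact h.ell_dh hv ha ht
  have li : LinearIndependent ℚ fun k : v => w k := by
    rw [Fintype.linearIndependent_iff]
    intro x hx
    have m1 : ∀ i, x ⟨_, (h0 i).2⟩ = 0 := fun i =>
      red_coef hx (H.ell (a₀ i)) (by rw [key _ (h0 i).2 _ (h0 i).2, if_pos (Or.inl rfl)])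
        fun k hk => Or.inr (by
          rw [key _ (h0 i).2 _ k.2, (h0 i).1, if_neg]
          rintro (e' | ⟨-, e'⟩) <;> exact hk (Subtype.ext e'))
    have m : ∀ a (ha : mo a ∈ v), x ⟨_, ha⟩ = 0 := fun a ha =>
      red_coef hx (H.ell a) (by rw [key _ ha _ ha, if_pos (Or.inl rfl)]) fun k hk => by
        by_cases e' : k.1 = mo (a₀ (H.col a))
        · exact Or.inl (by rw [show k = ⟨_, (h0 _).2⟩ from Subtype.ext e']; exact m1 _)
        · refine Or.inr ?_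
          rw [key _ ha _ k.2, if_neg]
          rintro (e1 | ⟨-, e1⟩)
          · exact hk (Subtype.ext e1)
          · exact e' e1
    rintro ⟨i | a | j, hk⟩
    · exact absurd hk (hn i)
    · exact m a hk
    · obtain ⟨y, hy⟩ := exists_dual_vec (h.dirs v hv) fun s => if j = s then 1 else 0
      have k2 : ∀ i, cu i ∈ v →
          dl (Fin.append (0 : Fin c → ℚ) y) (w (cu i)) = if j = i then 1 else 0 := by
        intro i hi
        rw [← hy i hi, dotProduct_comm (H.dir i)]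
        change Fin.append (0 : Fin c → ℚ) y ⬝ᵥ H.dh i = _
        rw [dh, ap_dot, zero_dotProduct, zero_add]
      refine red_coef hx (dl (Fin.append (0 : Fin c → ℚ) y)) (by rw [k2 j hk, if_pos rfl]) ?_
      rintro ⟨i | a | i, hi⟩ hne
      · exact absurd hi (hn i)
      · exact Or.inl (m a hi)
      · exact Or.inr (by rw [k2 i hi, if_neg fun e' => hne (by subst e'; rfl)])
  let b := basisOfLinearIndependentOfCardEqFinrank' (K := ℚ) _ li (by simp [hc])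
  have hb : ∀ k, b k = w k := fun k =>
    congrFun (coe_basisOfLinearIndependentOfCardEqFinrank' (K := ℚ) _ li _) k
  refine ⟨b, fun j hj => hb _, fun i hi => ?_, fun a ha hB => b.ext fun k => ?_⟩
  · have : w (mo (a₀ i)) = vv n (H.col (a₀ i)) := if_pos (by rw [(h0 i).1]; exact ⟨hi, rfl⟩)
    rw [hb, this, (h0 i).1]
  · rw [hb, key a ha _ k.2, Module.Basis.coord_apply, ← hb, b.repr_self, Finsupp.single_apply]
    exact if_congr (Subtype.ext_iff.trans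
      ⟨Or.inl, fun e' => e'.resolve_right fun e1 => e1.1 hB⟩) rfl rfl

theorem Fm.red (h : H.Fm K) {v : Finset (Jx c α β)} (hv : K v) (hc : v.card = c + n)
    {B : Finset (Fin c)} {φ : List (Finset (Jx c α β))} {u : Finset (Jx c α β)} {r g : ℕ}
    (e : (∀ i, .inl i ∉ v) → ∀ U ⊆ v, U.card = r →
      (∀ i ∉ B, ∃ a, H.col a = i ∧ mo a ∈ v ∧ mo a ∉ U) → ∀ (D : Finset (Fin c))
      (W : Submodule ℚ (Mv (c + n))), Ex (Cl (· ⊆ v) φ u) (fun _ => W)
        (fun S => if ∀ s ∈ S, ¬ H.Kill B D U s then ⊥ else ⊤) (g + D.card)) :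
    Ex (Cl (· ⊆ v) φ u) (H.G ∅ B r) (H.J B) g := by
  have hsub : ∀ S l, Cl (· ⊆ v) φ u (S :: l) → S ⊆ v := fun S l hl =>
    hl.2.1 S List.mem_cons_self
  by_cases hall : ∀ i, ∃ a, H.col a = i ∧ mo a ∈ v
  swap
  · refine Ex.of_le fun S l hl _ => iSup_le fun f => iSup_le fun _ => iSup_le fun hp => ?_
    exact absurd (fun i => ⟨f i, (hp.1 i).2, hsub S l hl (hp.1 i).1⟩) hall
  choose a₀ h1 h2 using hall
  have h0 : ∀ i, H.col (a₀ i) = i ∧ mo (a₀ i) ∈ v := fun i => ⟨h1 i, h2 i⟩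
  have hn : ∀ i, .inl i ∉ v := fun i => h1 i ▸ h.sep v hv _ (h2 i)
  obtain ⟨b, hb1, hb2, hb3⟩ := h.red_basis hv hc B h0
  refine Ex.mono_split2 (r := r) b
    (fun S => {k | (∃ j, k.1 = cu j ∧ k.1 ∈ S) ∨ ∃ i ∉ B, k.1 = mo (a₀ i)})
    (fun S => {t | ∃ f, H.Pk ∅ S f f ∧ t = {k | ∃ i ∈ B, k.1 = mo (f i)}})
    (fun S l hl => ?_) (fun S l hl => ?_) fun U hU W => ?_
  · have hS := hsub S l hl
    have hW : ∀ f g, H.Pk ∅ S f g → H.W ∅ B f g =
        ⨅ k ∈ {k : v | ∃ i ∈ B, k.1 = mo (f i)}, LinearMap.ker (b.coord k) := fun f g hp => by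
      have h3 : ∀ i ∈ B, b.coord ⟨_, hS (hp.1 i).1⟩ = H.ell (f i) := fun i hi =>
        hb3 _ _ (by rw [(hp.1 i).2]; exact hi)
      rw [Cis.W]
      simp only [Finset.notMem_empty, iInf_false, iInf_top, top_inf_eq]
      refine le_antisymm (le_iInf₂ ?_) (le_iInf₂ fun i hi => ?_)
      · rintro ⟨_, hk⟩ ⟨i, hi, rfl⟩
        exact (iInf₂_le i hi).trans (by rw [h3 i hi])
      · exact (iInf₂_le ⟨_, hS (hp.1 i).1⟩ ⟨i, hi, rfl⟩).trans (by rw [h3 i hi])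
    refine le_antisymm (iSup_le fun f => iSup_le fun g => iSup_le fun hp => ?_) (iSup₂_le ?_)
    · rw [hW f g hp]
      exact le_iSup₂_of_le _ ⟨f, ⟨hp.1, by simp⟩, rfl⟩ le_rfl
    · rintro _ ⟨f, hp, rfl⟩
      rw [← hW f f hp]
      exact le_iSup_of_le f (le_iSup_of_le f (le_iSup_of_le hp le_rfl))
  · have hS := hsub S l hl
    rw [J]
    congr 3
    ext x
    constructor
    · rintro (⟨j, hj, rfl⟩ | ⟨i, hi, rfl⟩)
      · exact ⟨⟨_, hS hj⟩, Or.inl ⟨j, rfl, hj⟩, hb1 j _⟩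
      · exact ⟨⟨_, h2 i⟩, Or.inr ⟨i, hi, rfl⟩, hb2 i hi⟩
    · rintro ⟨⟨_, hk⟩, ⟨j, rfl, hj⟩ | ⟨i, hi, rfl⟩, rfl⟩
      · exact Or.inl ⟨j, hj, (hb1 j hk).symm⟩
      · exact Or.inr ⟨i, hi, (hb2 i hi).symm⟩
  · by_cases hU0 : ∃ i ∉ B, (⟨_, h2 i⟩ : v) ∈ U
    · obtain ⟨i, hi, hiU⟩ := hU0
      refine Ex.of_le fun S l _ _ => ?_
      refine le_top.trans (if_neg fun hd => ?_).ge
      exact red_dis hd ⟨_, h2 i⟩ (Or.inr ⟨i, hi, rfl⟩) hiU
    obtain ⟨U', hU'⟩ : ∃ U', U' = U.map (Function.Embedding.subtype _) := ⟨_, rfl⟩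
    have hm : ∀ k : v, k.1 ∈ U' ↔ k ∈ U := fun k =>
      hU' ▸ Finset.mem_map' (Function.Embedding.subtype _)
    have hUv : U' ⊆ v := fun x hx => by
      obtain ⟨k, -, rfl⟩ := Finset.mem_map.1 (hU' ▸ hx)
      exact k.2
    refine red_blocks (cv_Cl _ _ _) hsub
      (fun i x => ∃ a, x = mo a ∧ H.col a = i ∧ (i ∉ B ∨ x ∉ U')) (fun x => ∃ j, x = cu j ∧ x ∈ U')
      W (fun S hS => ⟨?_, fun hs => ?_⟩) (fun S hS => ⟨fun hd x hx => ?_, fun hs => ?_⟩)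
      (fun D S hS => forall₂_congr fun x hx => ?_)
      fun D => e hn U' hUv (by rw [hU', Finset.card_map, hU])
        (fun i hi => ⟨a₀ i, h1 i, h2 i, fun hx => hU0 ⟨i, hi, (hm ⟨_, h2 i⟩).1 hx⟩⟩) D W
    · rintro ⟨_, ⟨f, hp, rfl⟩, hd⟩ i
      refine ⟨_, (hp.1 i).1, f i, rfl, (hp.1 i).2, or_iff_not_imp_left.2 fun hi hx => ?_⟩
      exact red_dis hd ⟨_, hUv hx⟩ ⟨i, not_not.1 hi, rfl⟩ ((hm _).1 hx)
    · choose x hx f hf h3 h4 using hs
      refine ⟨_, ⟨f, ⟨fun i => ⟨hf i ▸ hx i, h3 i⟩, by simp⟩, rfl⟩, Set.disjoint_left.2 ?_⟩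
      rintro k ⟨i, hi, hk⟩ hkU
      exact (h4 i).resolve_left (not_not.2 hi) (by rw [hf i, ← hk]; exact (hm k).2 hkU)
    · rintro ⟨j, hj, hxU⟩
      exact red_dis hd ⟨x, hS hx⟩ (Or.inl ⟨j, hj, hx⟩) ((hm _).1 hxU)
    · refine Set.disjoint_left.2 ?_
      rintro ⟨x, hx⟩ (⟨j, hj, hk⟩ | ⟨i, hi, rfl⟩) hkU
      · exact hs x hk ⟨j, hj, (hm _).2 hkU⟩
      · exact hU0 ⟨i, hi, hkU⟩
    · rcases x with i | a | j
      · simp [Kill]
      · simp only [Kill]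
        constructor
        · refine fun hk => ⟨by simp, ?_⟩
          rintro i hi ⟨a', e1, rfl, e2⟩
          obtain rfl := Sum.inl.inj (Sum.inr.inj e1)
          exact hk ⟨hi, e2⟩
        · exact fun hk h3 => hk.2 _ h3.1 ⟨a, rfl, rfl, h3.2⟩
      · simp [Kill]

end H5T.Cis
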